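import Pool.Agent.Lib.MP_c534e4_co.OneD

/-! Module B2 (owner helper44): API of an abstract model. -/

set_option autoImplicit false

namespace KS

open MeasureTheory Set

variable {Q : Type} [Fintype Q] {μ : Measure (Q → ℝ)}

theorem measurable_D (x y : Q) : Measurable (D x y : (Q → ℝ) → ℝ) := by
  unfold D
  exact (measurable_pi_apply x).sub (measurable_pi_apply y)

theorem measurable_pin (z : Q) (c : ℝ) : Measurable (pin z c : (Q → ℝ) → (Q → ℝ)) := by
  refine measurable_pi_lambda _ fun x => ?_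
  have h1 : Measurable (fun S : Q → ℝ => S x - S z + c) :=
    ((measurable_pi_apply x).sub (measurable_pi_apply z)).add measurable_const
  exact h1

theorem IsKS.lc_aux (h : IsKS μ) (x y : Q) (r t s : ℝ) (hrt : r ≤ t) (hs : 0 ≤ s) :
    μ.real {S | t + s ≤ D x y S} * μ.real {S | r ≤ D x y S} ≤
      μ.real {S | r + s ≤ D x y S} * μ.real {S | t ≤ D x y S} := by
  have hm : ∀ c : ℝ, MeasurableSet {S : Q → ℝ | c ≤ S x} := fun c =>
    measurableSet_le measurable_const (measurable_pi_apply x)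
  have key := h.fft y 0 s hs {S | t + s ≤ S x} {S | r + s ≤ S x} {S | r + s ≤ S x}
    {S | t + s ≤ S x} (hm _) (hm _) (hm _) (hm _) (by
      intro S hS T hT _ _
      simp only [mem_setOf_eq, Pi.inf_apply, Pi.sup_apply] at hS hT ⊢
      exact ⟨le_inf (by linarith) hT, le_sup_of_le_left hS⟩)
  have e1 : {S : Q → ℝ | pin y 0 S ∈ {S : Q → ℝ | t + s ≤ S x}} = {S | t + s ≤ D x y S} := by
    ext S; simp only [mem_setOf_eq, pin, D]; constructor <;> intro h <;> linarith
  have e2 : {S : Q → ℝ | pin y s S ∈ {S : Q → ℝ | r + s ≤ S x}} = {S | r ≤ D x y S} := by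
    ext S; simp only [mem_setOf_eq, pin, D]; constructor <;> intro h <;> linarith
  have e3 : {S : Q → ℝ | pin y 0 S ∈ {S : Q → ℝ | r + s ≤ S x}} = {S | r + s ≤ D x y S} := by
    ext S; simp only [mem_setOf_eq, pin, D]; constructor <;> intro h <;> linarith
  have e4 : {S : Q → ℝ | pin y s S ∈ {S : Q → ℝ | t + s ≤ S x}} = {S | t ≤ D x y S} := by
    ext S; simp only [mem_setOf_eq, pin, D]; constructor <;> intro h <;> linarith
  rw [e1, e2, e3, e4] at key
  exact key

theorem IsKS.lc (h : IsKS μ) (x y : Q) : LC (μ.map (D x y)) := by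
  have := h.prob
  have hI : ∀ c : ℝ, (μ.map (D x y)).real (Ici c) = μ.real {S | c ≤ D x y S} := by
    intro c
    rw [map_measureReal_apply (measurable_D x y) measurableSet_Ici]
    rfl
  have hJ : ∀ c : ℝ, (μ.map (D x y)).real (Iic (-c)) = μ.real {S | c ≤ D y x S} := by
    intro c
    rw [map_measureReal_apply (measurable_D x y) measurableSet_Iic]
    congr 1
    ext S
    simp only [mem_preimage, mem_Iic, mem_setOf_eq, D]
    constructor <;> intro h <;> linarith
  refine ⟨?_, ?_⟩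
  · intro r t s hrt hs
    rw [hI, hI, hI, hI]
    exact h.lc_aux x y r t s hrt hs
  · intro r t s hrt hs
    rw [hJ, hJ, hJ, hJ]
    exact h.lc_aux y x r t s hrt hs

theorem IsKS.integrable_D (h : IsKS μ) (x y : Q) : Integrable (D x y) μ := by
  have := h.prob
  exact (h.l2 x y).integrable one_le_two

theorem IsKS.integrable_D_sub (h : IsKS μ) (x y : Q) (a : ℝ) :
    Integrable (fun S => D x y S - a) μ := by
  have := h.prob
  exact (h.integrable_D x y).sub (integrable_const a)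

theorem IsKS.integrable_D_sq (h : IsKS μ) (x y : Q) : Integrable (fun S => (D x y S) ^ 2) μ :=
  (h.l2 x y).integrable_sq

theorem IsKS.memLp_D_sub (h : IsKS μ) (x y : Q) (a : ℝ) :
    MemLp (fun S => D x y S - a) 2 μ := by
  have := h.prob
  exact (h.l2 x y).sub (memLp_const a)

theorem IsKS.integrable_D_sub_sq (h : IsKS μ) (x y : Q) (a : ℝ) :
    Integrable (fun S => (D x y S - a) ^ 2) μ :=
  (h.memLp_D_sub x y a).integrable_sq

/-- Jensen for the square. -/
theorem sq_integral_abs_le [IsProbabilityMeasure μ] {X : (Q → ℝ) → ℝ} (hX : MemLp X 2 μ) :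
    (∫ S, |X S| ∂μ) ^ 2 ≤ ∫ S, (X S) ^ 2 ∂μ := by
  have hi : Integrable (fun S => |X S|) μ := (hX.integrable one_le_two).abs
  have hi2 : Integrable (fun S => (X S) ^ 2) μ := hX.integrable_sq
  set m := ∫ S, |X S| ∂μ with hm
  have h0 : 0 ≤ ∫ S, ((X S) ^ 2 - 2 * m * |X S| + m ^ 2) ∂μ := by
    refine integral_nonneg fun S => ?_
    have : (X S) ^ 2 - 2 * m * |X S| + m ^ 2 = (|X S| - m) ^ 2 := by
      rw [← sq_abs (X S)]; ring
    show 0 ≤ (X S) ^ 2 - 2 * m * |X S| + m ^ 2
    rw [this]; positivity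
  have h1 : ∫ S, ((X S) ^ 2 - 2 * m * |X S| + m ^ 2) ∂μ
      = ∫ S, (X S) ^ 2 ∂μ - 2 * m * m + m ^ 2 := by
    have g1 : Integrable (fun S => (X S) ^ 2 - 2 * m * |X S|) μ := hi2.sub (hi.const_mul (2 * m))
    rw [integral_add g1 (integrable_const _),
      integral_sub hi2 (hi.const_mul (2 * m)), integral_const_mul, ← hm]
    simp
  rw [h1] at h0
  nlinarith

theorem IsKS.second_moment (h : IsKS μ) (x y : Q) (b : ℝ) :
    ∫ S, (D x y S - b) ^ 2 ∂μ = V μ x y + (M μ x y - b) ^ 2 := by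
  have := h.prob
  have hi := h.integrable_D_sub x y (M μ x y)
  have hi2 := h.integrable_D_sub_sq x y (M μ x y)
  have e : ∀ S : Q → ℝ, (D x y S - b) ^ 2 = (D x y S - M μ x y) ^ 2 +
      2 * (M μ x y - b) * (D x y S - M μ x y) + (M μ x y - b) ^ 2 := by
    intro S; ring
  have e0 : ∫ S, (D x y S - M μ x y) ∂μ = 0 := by
    rw [integral_sub (h.integrable_D x y) (integrable_const _)]
    simp [M]
  simp only [e]
  have g1 : Integrable (fun S => (D x y S - M μ x y) ^ 2 +
      2 * (M μ x y - b) * (D x y S - M μ x y)) μ := hi2.add (hi.const_mul _)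
  rw [integral_add g1 (integrable_const _),
    integral_add hi2 (hi.const_mul _), integral_const_mul, e0]
  simp [V]

theorem V_nonneg (μ : Measure (Q → ℝ)) (x y : Q) : 0 ≤ V μ x y :=
  integral_nonneg fun _ => sq_nonneg _

theorem d_nonneg (μ : Measure (Q → ℝ)) (x y : Q) : 0 ≤ d μ x y :=
  integral_nonneg fun _ => abs_nonneg _

theorem D_symm (x y : Q) (S : Q → ℝ) : D y x S = - D x y S := by
  unfold D; ring

theorem M_symm (μ : Measure (Q → ℝ)) (x y : Q) : M μ y x = - M μ x y := by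
  unfold M
  rw [← integral_neg]
  simp only [D_symm x y]

theorem V_symm (μ : Measure (Q → ℝ)) (x y : Q) : V μ x y = V μ y x := by
  unfold V
  refine integral_congr_ae (Filter.Eventually.of_forall fun S => ?_)
  simp only
  rw [M_symm μ x y, D_symm x y S]; ring

theorem d_symm (μ : Measure (Q → ℝ)) (x y : Q) : d μ x y = d μ y x := by
  unfold d
  refine integral_congr_ae (Filter.Eventually.of_forall fun S => ?_)
  simp only
  rw [D_symm x y S, abs_neg]

theorem D_self (x : Q) (S : Q → ℝ) : D x x S = 0 := by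
  unfold D; ring

theorem M_self (μ : Measure (Q → ℝ)) (x : Q) : M μ x x = 0 := by
  unfold M
  simp [D_self]

theorem V_self (μ : Measure (Q → ℝ)) (x : Q) : V μ x x = 0 := by
  unfold V
  simp [D_self, M_self]

theorem d_self (μ : Measure (Q → ℝ)) (x : Q) : d μ x x = 0 := by
  unfold d
  simp [D_self]

theorem D_add (x y w : Q) (S : Q → ℝ) : D x y S + D y w S = D x w S := by
  unfold D; ring

theorem IsKS.M_add (h : IsKS μ) (x y w : Q) : M μ x y + M μ y w = M μ x w := by
  unfold M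
  rw [← integral_add (h.integrable_D x y) (h.integrable_D y w)]
  simp only [D_add]

theorem IsKS.d_tri (h : IsKS μ) (x y w : Q) : d μ x w ≤ d μ x y + d μ y w := by
  unfold d
  rw [← integral_add (h.integrable_D x y).abs (h.integrable_D y w).abs]
  refine integral_mono (h.integrable_D x w).abs
    ((h.integrable_D x y).abs.add (h.integrable_D y w).abs) fun S => ?_
  simp only
  rw [← D_add x y w S]
  exact abs_add_le _ _

theorem IsKS.abs_M_le_d (h : IsKS μ) (x y : Q) : |M μ x y| ≤ d μ x y := by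
  have _ := h.prob
  exact abs_integral_le_integral_abs

theorem IsKS.abs_dev_le (h : IsKS μ) (x y : Q) (a : ℝ) :
    (∫ S, |D x y S - a| ∂μ) ^ 2 ≤ ∫ S, (D x y S - a) ^ 2 ∂μ := by
  have := h.prob
  exact sq_integral_abs_le (h.memLp_D_sub x y a)

theorem IsKS.abs_dev_le_sqrt (h : IsKS μ) (x y : Q) :
    (∫ S, |D x y S - M μ x y| ∂μ) ≤ Real.sqrt (V μ x y) := by
  apply Real.le_sqrt_of_sq_le
  exact h.abs_dev_le x y (M μ x y)

theorem IsKS.d_le (h : IsKS μ) (x y : Q) : d μ x y ≤ |M μ x y| + Real.sqrt (V μ x y) := by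
  have := h.prob
  have h1 : d μ x y ≤ |M μ x y| + ∫ S, |D x y S - M μ x y| ∂μ := by
    have e : |M μ x y| + ∫ S, |D x y S - M μ x y| ∂μ
        = ∫ S, (|M μ x y| + |D x y S - M μ x y|) ∂μ := by
      rw [integral_add (integrable_const _) (h.integrable_D_sub x y _).abs]
      simp
    rw [e]
    refine integral_mono (h.integrable_D x y).abs
      ((integrable_const _).add (h.integrable_D_sub x y _).abs) fun S => ?_
    simp only
    calc |D x y S| = |M μ x y + (D x y S - M μ x y)| := by congr 1; ring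
      _ ≤ _ := abs_add_le _ _
  linarith [h.abs_dev_le_sqrt x y]

theorem IsKS.d_sq_le (h : IsKS μ) (x y : Q) : (d μ x y) ^ 2 ≤ (M μ x y) ^ 2 + V μ x y := by
  have h1 := h.abs_dev_le x y 0
  have h2 := h.second_moment x y 0
  simp only [sub_zero] at h1 h2
  rw [h2] at h1
  unfold d
  linarith

/-- Chebyshev. -/
theorem IsKS.cheb (h : IsKS μ) (x y : Q) (s : ℝ) (hs : 0 < s) :
    μ.real {S | s ≤ |D x y S - M μ x y|} ≤ V μ x y / s ^ 2 := by
  have := h.prob
  have h1 := mul_meas_ge_le_integral_of_nonneg (μ := μ)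
    (f := fun S => (D x y S - M μ x y) ^ 2) (Filter.Eventually.of_forall fun S => sq_nonneg _)
    (h.integrable_D_sub_sq x y _) (s ^ 2)
  have e : {S : Q → ℝ | s ^ 2 ≤ (D x y S - M μ x y) ^ 2} = {S | s ≤ |D x y S - M μ x y|} := by
    ext S
    simp only [mem_setOf_eq]
    rw [← sq_abs (D x y S - M μ x y)]
    exact pow_le_pow_iff_left₀ hs.le (abs_nonneg _) two_ne_zero
  rw [e] at h1
  rw [le_div_iff₀ (by positivity)]
  have : s ^ 2 * μ.real {S | s ≤ |D x y S - M μ x y|} ≤ V μ x y := h1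
  linarith

/-! transfer to the law of `D x y` -/

theorem integral_map_D (μ : Measure (Q → ℝ)) (x y : Q) {f : ℝ → ℝ} (hf : Measurable f) :
    ∫ t, f t ∂(μ.map (D x y)) = ∫ S, f (D x y S) ∂μ :=
  integral_map (measurable_D x y).aemeasurable hf.aestronglyMeasurable

theorem IsKS.integrable_map (h : IsKS μ) (x y : Q) :
    Integrable (fun t : ℝ => t) (μ.map (D x y)) := by
  exact (integrable_map_measure (f := D x y) (g := fun t : ℝ => t)
    (measurable_id.aestronglyMeasurable) (measurable_D x y).aemeasurable).2 (h.integrable_D x y)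

theorem IsKS.memLp_map (h : IsKS μ) (x y : Q) :
    MemLp (fun t : ℝ => t) 2 (μ.map (D x y)) := by
  exact (memLp_map_measure_iff (f := D x y) (g := fun t : ℝ => t)
    (measurable_id.aestronglyMeasurable) (measurable_D x y).aemeasurable).2 (h.l2 x y)

theorem IsKS.tail_a (h : IsKS μ) (x y : Q) (a s : ℝ) (hs : 0 ≤ s) :
    μ.real {S | s ≤ |D x y S - a|} ≤ 4 * Real.exp (-(s / (8 * ∫ S, |D x y S - a| ∂μ))) := by
  have := h.prob
  have : IsProbabilityMeasure (μ.map (D x y)) :=
    Measure.isProbabilityMeasure_map (measurable_D x y).aemeasurable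
  have h1 := (h.lc x y).tail_exp (h.integrable_map x y) a s hs
  rw [integral_map_D μ x y (f := fun t => |t - a|) (by fun_prop),
    map_measureReal_apply (measurable_D x y) (measurableSet_le measurable_const (by fun_prop))] at h1
  exact h1

theorem IsKS.sq_a (h : IsKS μ) (x y : Q) (a : ℝ) :
    ∫ S, (D x y S - a) ^ 2 ∂μ ≤ 1000 * (∫ S, |D x y S - a| ∂μ) ^ 2 := by
  have := h.prob
  have : IsProbabilityMeasure (μ.map (D x y)) :=
    Measure.isProbabilityMeasure_map (measurable_D x y).aemeasurable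
  have h1 := (h.lc x y).sq_le (h.memLp_map x y) a
  rw [integral_map_D μ x y (f := fun t => |t - a|) (by fun_prop),
    integral_map_D μ x y (f := fun t => (t - a) ^ 2) (by fun_prop)] at h1
  exact h1

theorem IsKS.small_a (h : IsKS μ) (x y : Q) (b r : ℝ) (hr : 0 < r) :
    μ.real {S | b ≤ D x y S ∧ D x y S ≤ b + r} * ∫ S, |D x y S - b| ∂μ ≤ 4 * r := by
  have := h.prob
  have : IsProbabilityMeasure (μ.map (D x y)) :=
    Measure.isProbabilityMeasure_map (measurable_D x y).aemeasurable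
  have h1 := (h.lc x y).small (h.integrable_map x y) b r hr
  rw [integral_map_D μ x y (f := fun t => |t - b|) (by fun_prop),
    map_measureReal_apply (measurable_D x y) measurableSet_Icc] at h1
  exact h1

theorem IsKS.tail_d (h : IsKS μ) (x y : Q) (s : ℝ) (hs : 0 ≤ s) :
    μ.real {S | s ≤ |D x y S|} ≤ 4 * Real.exp (-(s / (8 * d μ x y))) := by
  have h1 := h.tail_a x y 0 s hs
  simp only [sub_zero] at h1
  exact h1

theorem IsKS.tail_V (h : IsKS μ) (x y : Q) (s : ℝ) (hs : 0 ≤ s) :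
    μ.real {S | s ≤ |D x y S - M μ x y|} ≤ 4 * Real.exp (-(s / (8 * Real.sqrt (V μ x y)))) := by
  have := h.prob
  have h1 := h.tail_a x y (M μ x y) s hs
  have h2 := h.abs_dev_le_sqrt x y
  have h3 := h.sq_a x y (M μ x y)
  have he : 0 ≤ ∫ S, |D x y S - M μ x y| ∂μ := integral_nonneg fun _ => abs_nonneg _
  rcases he.eq_or_lt with he | he
  · rw [← he] at h3
    have hV : V μ x y = 0 := le_antisymm (by unfold V; linarith) (V_nonneg μ x y)
    rw [hV]
    simp only [Real.sqrt_zero, mul_zero, div_zero, neg_zero, Real.exp_zero, mul_one]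
    exact measureReal_le_one.trans (by norm_num)
  · refine h1.trans ?_
    have : s / (8 * Real.sqrt (V μ x y)) ≤ s / (8 * ∫ S, |D x y S - M μ x y| ∂μ) :=
      div_le_div_of_nonneg_left hs (by positivity) (by linarith)
    have := Real.exp_le_exp.2 (neg_le_neg this)
    linarith

theorem IsKS.tail_6 (h : IsKS μ) (x y : Q) (s : ℝ) (hs : 0 < s) :
    μ.real {S | s ≤ |D x y S - M μ x y|} ≤ 10 ^ 9 * (V μ x y) ^ 3 / s ^ 6 := by
  have := h.prob
  rcases (V_nonneg μ x y).eq_or_lt with hV | hV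
  · have h1 := h.cheb x y s hs
    rw [← hV] at h1 ⊢
    simpa using h1
  · have h1 := h.tail_V x y s hs.le
    refine h1.trans ?_
    set q := Real.sqrt (V μ x y) with hq
    have hq0 : 0 < q := Real.sqrt_pos.2 hV
    have hqV : V μ x y = q ^ 2 := (Real.sq_sqrt hV.le).symm
    set v := s / (8 * q) with hv
    have hv0 : 0 < v := by positivity
    have h2 : v ^ 6 / (Nat.factorial 6 : ℝ) ≤ Real.exp v := Real.pow_div_factorial_le_exp v hv0.le 6
    have h3 : Real.exp (-v) ≤ 720 / v ^ 6 := by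
      rw [Real.exp_neg, inv_eq_one_div, div_le_div_iff₀ (Real.exp_pos v) (by positivity)]
      have : (Nat.factorial 6 : ℝ) = 720 := by norm_num [Nat.factorial]
      rw [this, div_le_iff₀ (by norm_num)] at h2
      linarith
    have h4 : 720 / v ^ 6 = 720 * 8 ^ 6 * q ^ 6 / s ^ 6 := by
      rw [hv]; field_simp
    rw [hqV]
    have h5 : (10 : ℝ) ^ 9 * (q ^ 2) ^ 3 / s ^ 6 = 10 ^ 9 * q ^ 6 / s ^ 6 := by ring
    rw [h5]
    calc 4 * Real.exp (-v) ≤ 4 * (720 * 8 ^ 6 * q ^ 6 / s ^ 6) := by rw [← h4]; linarith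
      _ = (4 * 720 * 8 ^ 6) * (q ^ 6 / s ^ 6) := by ring
      _ ≤ 10 ^ 9 * (q ^ 6 / s ^ 6) := by
        apply mul_le_mul_of_nonneg_right (by norm_num) (by positivity)
      _ = _ := by ring

theorem IsKS.V_le_second (h : IsKS μ) (x y : Q) (b : ℝ) :
    V μ x y ≤ ∫ S, (D x y S - b) ^ 2 ∂μ := by
  rw [h.second_moment x y b]
  have := sq_nonneg (M μ x y - b)
  linarith

theorem IsKS.V_le (h : IsKS μ) (x y : Q) : V μ x y ≤ 1000 * (d μ x y) ^ 2 := by
  have h1 := h.V_le_second x y 0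
  have h2 := h.sq_a x y 0
  simp only [sub_zero] at h1 h2
  exact h1.trans h2

theorem IsKS.small0_aux (h : IsKS μ) (x y : Q) (hxy : x ≠ y) (η : ℝ) (hη : 0 < η) :
    μ.real {S | |D x y S| ≤ η * d μ x y} ≤ 16 * η := by
  have := h.prob
  have hd := h.d_ge x y hxy
  rcases le_or_gt (1 / 16) η with h16 | h16
  · exact measureReal_le_one.trans (by linarith)
  · have h1 := h.small_a x y (-(η * d μ x y)) (2 * (η * d μ x y)) (by positivity)
    have e : {S : Q → ℝ | -(η * d μ x y) ≤ D x y S ∧ D x y S ≤ -(η * d μ x y) + 2 * (η * d μ x y)}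
        = {S | |D x y S| ≤ η * d μ x y} := by
      ext S
      simp only [mem_setOf_eq, abs_le]
      constructor <;> rintro ⟨h1, h2⟩ <;> exact ⟨by linarith, by linarith⟩
    rw [e] at h1
    have h2 : d μ x y / 2 ≤ ∫ S, |D x y S - -(η * d μ x y)| ∂μ := by
      have h3 : d μ x y - η * d μ x y ≤ ∫ S, |D x y S - -(η * d μ x y)| ∂μ := by
        have e2 : d μ x y - η * d μ x y = ∫ S, (|D x y S| - η * d μ x y) ∂μ := by
          rw [integral_sub (h.integrable_D x y).abs (integrable_const _)]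
          simp [d]
        rw [e2]
        refine integral_mono ((h.integrable_D x y).abs.sub (integrable_const _))
          (h.integrable_D_sub x y _).abs fun S => ?_
        simp only
        have h4 : |D x y S| ≤ |D x y S - -(η * d μ x y)| + |η * d μ x y| := by
          calc |D x y S| = |(D x y S - -(η * d μ x y)) + -(η * d μ x y)| := by congr 1; ring
            _ ≤ |D x y S - -(η * d μ x y)| + |-(η * d μ x y)| := abs_add_le _ _
            _ = _ := by rw [abs_neg]
        rw [abs_of_nonneg (by positivity : 0 ≤ η * d μ x y)] at h4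
        linarith
      nlinarith
    have h5 : μ.real {S | |D x y S| ≤ η * d μ x y} * (d μ x y / 2) ≤ 4 * (2 * (η * d μ x y)) :=
      (mul_le_mul_of_nonneg_left h2 measureReal_nonneg).trans h1
    have h6 : μ.real {S | |D x y S| ≤ η * d μ x y} * (d μ x y / 2) ≤ (16 * η) * (d μ x y / 2) := by
      linarith
    exact le_of_mul_le_mul_right h6 (by linarith)

theorem IsKS.small0 (h : IsKS μ) (x y : Q) (hxy : x ≠ y) (η : ℝ) (hη : 0 ≤ η) :
    μ.real {S | |D x y S| ≤ η * d μ x y} ≤ 16 * η := by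
  have := h.prob
  refine le_of_forall_pos_le_add fun δ hδ => ?_
  have h1 := h.small0_aux x y hxy (η + δ / 16) (by positivity)
  have h2 : μ.real {S | |D x y S| ≤ η * d μ x y} ≤
      μ.real {S | |D x y S| ≤ (η + δ / 16) * d μ x y} := by
    refine measureReal_mono (fun S hS => ?_)
    simp only [mem_setOf_eq] at hS ⊢
    have := d_nonneg μ x y
    nlinarith
  linarith

theorem IsKS.small_aux (h : IsKS μ) (x y : Q) (b r : ℝ) (hr : 0 < r) :
    μ.real {S | b ≤ D x y S ∧ D x y S ≤ b + r} * Real.sqrt (V μ x y) ≤ 128 * r := by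
  have h1 := h.small_a x y b r hr
  have he : 0 ≤ ∫ S, |D x y S - b| ∂μ := integral_nonneg fun _ => abs_nonneg _
  have h2 : Real.sqrt (V μ x y) ≤ 32 * ∫ S, |D x y S - b| ∂μ := by
    apply Real.sqrt_le_iff.2
    refine ⟨by positivity, ?_⟩
    have h3 := (h.V_le_second x y b).trans (h.sq_a x y b)
    have h4 := sq_nonneg (∫ S, |D x y S - b| ∂μ)
    nlinarith
  have h5 := mul_le_mul_of_nonneg_left h2
    (measureReal_nonneg (μ := μ) (s := {S | b ≤ D x y S ∧ D x y S ≤ b + r}))
  linarith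

theorem IsKS.small (h : IsKS μ) (x y : Q) (b r : ℝ) (hr : 0 ≤ r) :
    μ.real {S | b ≤ D x y S ∧ D x y S ≤ b + r} * Real.sqrt (V μ x y) ≤ 128 * r := by
  have := h.prob
  refine le_of_forall_pos_le_add fun δ hδ => ?_
  have h1 := h.small_aux x y b (r + δ / 128) (by positivity)
  have h2 : μ.real {S | b ≤ D x y S ∧ D x y S ≤ b + r} ≤
      μ.real {S | b ≤ D x y S ∧ D x y S ≤ b + (r + δ / 128)} := by
    refine measureReal_mono (fun S hS => ?_)
    exact ⟨hS.1, hS.2.trans (by linarith)⟩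
  have h3 := mul_le_mul_of_nonneg_right h2 (Real.sqrt_nonneg (V μ x y))
  linarith

open Classical in
theorem IsKS.card_le (h : IsKS μ) (z : Q) (r : ℝ) (hr : 0 ≤ r) :
    ((Finset.univ.filter (fun x : Q => d μ x z ≤ r)).card : ℝ) ≤ 20 * (r + 1) := by
  have := h.prob
  set F := Finset.univ.filter (fun x : Q => d μ x z ≤ r) with hF
  have hup := h.cnt_up z (2 * r) (by linarith)
  have hdn := h.cnt_dn z (2 * r) (by linarith)
  have hhalf : ∀ x ∈ F.erase z, (1 / 2 : ℝ) ≤
      μ.real {S | x ≠ z ∧ 0 ≤ D x z S ∧ D x z S ≤ 2 * r} +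
      μ.real {S | x ≠ z ∧ 0 ≤ D z x S ∧ D z x S ≤ 2 * r} := by
    intro x hx
    have hxz : x ≠ z := Finset.ne_of_mem_erase hx
    have hxr : d μ x z ≤ r := (Finset.mem_filter.1 (Finset.mem_of_mem_erase hx)).2
    have hd1 := h.d_ge x z hxz
    have hm1 := mul_meas_ge_le_integral_of_nonneg (μ := μ)
      (f := fun S => |D x z S|) (Filter.Eventually.of_forall fun S => abs_nonneg _)
      (h.integrable_D x z).abs (2 * r)
    have hm2 : 2 * r * μ.real {S | 2 * r ≤ |D x z S|} ≤ r := hm1.trans hxr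
    have hm3 : μ.real {S | 2 * r ≤ |D x z S|} ≤ 1 / 2 := by
      by_contra hc
      push Not at hc
      nlinarith
    have hcov : (univ : Set (Q → ℝ)) ⊆ {S | 2 * r ≤ |D x z S|} ∪
        ({S | x ≠ z ∧ 0 ≤ D x z S ∧ D x z S ≤ 2 * r} ∪
          {S | x ≠ z ∧ 0 ≤ D z x S ∧ D z x S ≤ 2 * r}) := by
      intro S _
      by_cases h1 : 2 * r ≤ |D x z S|
      · exact Or.inl h1
      · push Not at h1
        rw [abs_lt] at h1
        right
        rcases le_total 0 (D x z S) with h0 | h0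
        · exact Or.inl ⟨hxz, h0, h1.2.le⟩
        · refine Or.inr ⟨hxz, ?_, ?_⟩
          · rw [D_symm x z]; linarith
          · rw [D_symm x z]; linarith
    have h1 : (1 : ℝ) ≤ μ.real {S | 2 * r ≤ |D x z S|} +
        (μ.real {S | x ≠ z ∧ 0 ≤ D x z S ∧ D x z S ≤ 2 * r} +
          μ.real {S | x ≠ z ∧ 0 ≤ D z x S ∧ D z x S ≤ 2 * r}) := by
      calc (1 : ℝ) = μ.real univ := by simp
        _ ≤ _ := measureReal_mono hcov
        _ ≤ _ := measureReal_union_le _ _
        _ ≤ _ := by gcongr; exact measureReal_union_le _ _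
    linarith
  have hsum : ((F.erase z).card : ℝ) * (1 / 2) ≤ 2 * (2 * r + 1) + 2 * (2 * r + 1) := by
    calc ((F.erase z).card : ℝ) * (1 / 2) = ∑ _x ∈ F.erase z, (1 / 2 : ℝ) := by
          rw [Finset.sum_const, nsmul_eq_mul]
      _ ≤ ∑ x ∈ F.erase z, (μ.real {S | x ≠ z ∧ 0 ≤ D x z S ∧ D x z S ≤ 2 * r} +
          μ.real {S | x ≠ z ∧ 0 ≤ D z x S ∧ D z x S ≤ 2 * r}) := Finset.sum_le_sum hhalf
      _ ≤ ∑ x : Q, (μ.real {S | x ≠ z ∧ 0 ≤ D x z S ∧ D x z S ≤ 2 * r} +
          μ.real {S | x ≠ z ∧ 0 ≤ D z x S ∧ D z x S ≤ 2 * r}) := by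
          refine Finset.sum_le_sum_of_subset_of_nonneg (Finset.subset_univ _) fun _ _ _ => ?_
          exact add_nonneg measureReal_nonneg measureReal_nonneg
      _ ≤ _ := by
          rw [Finset.sum_add_distrib]
          exact add_le_add hup hdn
  have hcard : (F.card : ℝ) ≤ (F.erase z).card + 1 := by
    have h9 : F.card ≤ (F.erase z).card + 1 := by
      have := Finset.pred_card_le_card_erase (s := F) (a := z)
      omega
    exact_mod_cast h9
  linarith

theorem Deep.mono {z : Q} {K K' : ℝ} (h : Deep μ z K) (hK : K' ≤ K) : Deep μ z K' :=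
  ⟨fun u l hu hl hul => h.up_le u l hu hl (hul.trans hK),
    fun u l hu hl hul => h.up_ge u l hu hl (hul.trans hK),
    fun u l hu hl hul => h.dn_le u l hu hl (hul.trans hK),
    fun u l hu hl hul => h.dn_ge u l hu hl (hul.trans hK)⟩

/-! The reversed model. -/

theorem map_neg_real (μ : Measure (Q → ℝ)) (s : Set (Q → ℝ)) :
    (μ.map (fun S => -S)).real s = μ.real {S | -S ∈ s} := by
  have h := (MeasurableEquiv.neg (Q → ℝ)).map_apply (μ := μ) s
  exact congrArg ENNReal.toReal h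

theorem D_neg (x y : Q) (S : Q → ℝ) : D x y (-S) = - D x y S := by
  unfold D; simp only [Pi.neg_apply]; ring

theorem integral_map_neg (μ : Measure (Q → ℝ)) (f : (Q → ℝ) → ℝ) :
    ∫ S, f S ∂(μ.map (fun S => -S)) = ∫ S, f (-S) ∂μ :=
  (MeasurableEquiv.neg (Q → ℝ)).measurableEmbedding.integral_map f

theorem M_neg (μ : Measure (Q → ℝ)) (x y : Q) : M (μ.map (fun S => -S)) x y = - M μ x y := by
  unfold M
  rw [integral_map_neg, ← integral_neg]
  simp only [D_neg]

theorem V_neg (μ : Measure (Q → ℝ)) (x y : Q) : V (μ.map (fun S => -S)) x y = V μ x y := by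
  unfold V
  rw [integral_map_neg, M_neg]
  refine integral_congr_ae (Filter.Eventually.of_forall fun S => ?_)
  simp only
  rw [D_neg]; ring

theorem d_neg (μ : Measure (Q → ℝ)) (x y : Q) : d (μ.map (fun S => -S)) x y = d μ x y := by
  unfold d
  rw [integral_map_neg]
  refine integral_congr_ae (Filter.Eventually.of_forall fun S => ?_)
  simp only
  rw [D_neg, abs_neg]

theorem EpsBad.neg {ε : ℝ} (h : EpsBad μ ε) : EpsBad (μ.map (fun S => -S)) ε := by
  intro x y hxy
  rw [map_neg_real, map_neg_real]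
  have e1 : ∀ a b : Q, {S : Q → ℝ | -S ∈ {S : Q → ℝ | S a < S b}} = {S | S b < S a} := by
    intro a b; ext S; simp
  rw [e1, e1]
  exact (h x y hxy).symm

theorem cnt_neg (z : Q) (p : ℝ → Prop) (S : Q → ℝ) :
    cnt z p (-S) = cnt z (fun t => p (-t)) S := by
  classical
  unfold cnt
  congr 1
  ext x
  simp only [Finset.mem_filter, Finset.mem_univ, true_and, D_neg]

theorem cnt_congr (z : Q) {p q : ℝ → Prop} (hpq : ∀ t, p t ↔ q t) (S : Q → ℝ) :
    cnt z p S = cnt z q S := by
  have : p = q := funext fun t => propext (hpq t)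
  rw [this]

theorem Deep.neg {z : Q} {K : ℝ} (h : Deep μ z K) : Deep (μ.map (fun S => -S)) z K := by
  refine ⟨?_, ?_, ?_, ?_⟩
  · intro u l hu hl hul
    rw [map_neg_real]
    have e : {S : Q → ℝ | -S ∈ {S : Q → ℝ | u + l < (cnt z (fun t => 0 ≤ t ∧ t ≤ u) S : ℝ)}}
        = {S | u + l < (cnt z (fun t => -u ≤ t ∧ t ≤ 0) S : ℝ)} := by
      ext S
      show u + l < (cnt z (fun t => 0 ≤ t ∧ t ≤ u) (-S) : ℝ) ↔
        u + l < (cnt z (fun t => -u ≤ t ∧ t ≤ 0) S : ℝ)
      rw [cnt_neg, cnt_congr z (q := fun t => -u ≤ t ∧ t ≤ 0)]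
      intro t; constructor <;> rintro ⟨h1, h2⟩ <;> exact ⟨by linarith, by linarith⟩
    rw [e]
    exact h.dn_le u l hu hl hul
  · intro u l hu hl hul
    rw [map_neg_real]
    have e : {S : Q → ℝ | -S ∈ {S : Q → ℝ | (cnt z (fun t => 0 < t ∧ t < u) S : ℝ) < u - l}}
        = {S | (cnt z (fun t => -u < t ∧ t < 0) S : ℝ) < u - l} := by
      ext S
      show (cnt z (fun t => 0 < t ∧ t < u) (-S) : ℝ) < u - l ↔
        (cnt z (fun t => -u < t ∧ t < 0) S : ℝ) < u - l
      rw [cnt_neg, cnt_congr z (q := fun t => -u < t ∧ t < 0)]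
      intro t; constructor <;> rintro ⟨h1, h2⟩ <;> exact ⟨by linarith, by linarith⟩
    rw [e]
    exact h.dn_ge u l hu hl hul
  · intro u l hu hl hul
    rw [map_neg_real]
    have e : {S : Q → ℝ | -S ∈ {S : Q → ℝ | u + l < (cnt z (fun t => -u ≤ t ∧ t ≤ 0) S : ℝ)}}
        = {S | u + l < (cnt z (fun t => 0 ≤ t ∧ t ≤ u) S : ℝ)} := by
      ext S
      show u + l < (cnt z (fun t => -u ≤ t ∧ t ≤ 0) (-S) : ℝ) ↔
        u + l < (cnt z (fun t => 0 ≤ t ∧ t ≤ u) S : ℝ)
      rw [cnt_neg, cnt_congr z (q := fun t => 0 ≤ t ∧ t ≤ u)]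
      intro t; constructor <;> rintro ⟨h1, h2⟩ <;> exact ⟨by linarith, by linarith⟩
    rw [e]
    exact h.up_le u l hu hl hul
  · intro u l hu hl hul
    rw [map_neg_real]
    have e : {S : Q → ℝ | -S ∈ {S : Q → ℝ | (cnt z (fun t => -u < t ∧ t < 0) S : ℝ) < u - l}}
        = {S | (cnt z (fun t => 0 < t ∧ t < u) S : ℝ) < u - l} := by
      ext S
      show (cnt z (fun t => -u < t ∧ t < 0) (-S) : ℝ) < u - l ↔
        (cnt z (fun t => 0 < t ∧ t < u) S : ℝ) < u - l
      rw [cnt_neg, cnt_congr z (q := fun t => 0 < t ∧ t < u)]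
      intro t; constructor <;> rintro ⟨h1, h2⟩ <;> exact ⟨by linarith, by linarith⟩
    rw [e]
    exact h.up_ge u l hu hl hul

theorem IsKS.neg (h : IsKS μ) : IsKS (μ.map (fun S => -S)) := by
  have := h.prob
  have hneg : Measurable (fun S : Q → ℝ => -S) := measurable_neg
  refine ⟨Measure.isProbabilityMeasure_map hneg.aemeasurable, ?_, ?_, ?_, ?_, ?_, ?_⟩
  · intro x y
    refine (memLp_map_measure_iff (f := fun S : Q → ℝ => -S) (g := D x y)
      (measurable_D x y).aestronglyMeasurable hneg.aemeasurable).2 ?_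
    have e : (D x y ∘ fun S : Q → ℝ => -S) = - D x y := by
      funext S
      simp only [Function.comp_apply, Pi.neg_apply, D_neg]
    rw [e]
    exact (h.l2 x y).neg
  · intro z c c' hc A B C E hA hB hC hE hyp
    rw [map_neg_real, map_neg_real, map_neg_real, map_neg_real]
    have hm : ∀ s : Set (Q → ℝ), MeasurableSet s → MeasurableSet {S : Q → ℝ | -S ∈ s} :=
      fun s hs => hneg hs
    have key := h.fft z (-c') (-c) (by linarith) {S | -S ∈ B} {S | -S ∈ A} {S | -S ∈ E}
      {S | -S ∈ C} (hm _ hB) (hm _ hA) (hm _ hE) (hm _ hC) (by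
        intro S hS T hT hSz hTz
        have := hyp (-T) hT (-S) hS (by simp [hTz]) (by simp [hSz])
        refine ⟨?_, ?_⟩
        · show -(S ⊓ T) ∈ E
          have e : -(S ⊓ T) = -T ⊔ -S := by rw [neg_inf, sup_comm]
          rw [e]; exact this.2
        · show -(S ⊔ T) ∈ C
          have e : -(S ⊔ T) = -T ⊓ -S := by rw [neg_sup, inf_comm]
          rw [e]; exact this.1)
    have e : ∀ (a : ℝ) (s : Set (Q → ℝ)), {S : Q → ℝ | -S ∈ {S : Q → ℝ | pin z a S ∈ s}} =
        {S | pin z (-a) S ∈ {S : Q → ℝ | -S ∈ s}} := by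
      intro a s
      ext S
      show pin z a (-S) ∈ s ↔ -(pin z (-a) S) ∈ s
      have : pin z a (-S) = -(pin z (-a) S) := by
        funext x
        simp only [pin, Pi.neg_apply]
        ring
      rw [this]
    rw [e, e, e, e, mul_comm, mul_comm (μ.real {S | pin z (-c) S ∈ {S : Q → ℝ | -S ∈ C}})]
    exact key
  · intro x y w
    rw [V_neg, V_neg, V_neg]
    exact h.V_tri x y w
  · intro x y hxy
    rw [d_neg]
    exact h.d_ge x y hxy
  · intro z u hu
    have e : ∀ x : Q, (μ.map (fun S => -S)).real {S | x ≠ z ∧ 0 ≤ D x z S ∧ D x z S ≤ u} =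
        μ.real {S | x ≠ z ∧ 0 ≤ D z x S ∧ D z x S ≤ u} := by
      intro x
      rw [map_neg_real]
      congr 1
      ext S
      show (x ≠ z ∧ 0 ≤ D x z (-S) ∧ D x z (-S) ≤ u) ↔ (x ≠ z ∧ 0 ≤ D z x S ∧ D z x S ≤ u)
      rw [D_neg, D_symm x z]
    simp only [e]
    exact h.cnt_dn z u hu
  · intro z u hu
    have e : ∀ x : Q, (μ.map (fun S => -S)).real {S | x ≠ z ∧ 0 ≤ D z x S ∧ D z x S ≤ u} =
        μ.real {S | x ≠ z ∧ 0 ≤ D x z S ∧ D x z S ≤ u} := by
      intro x
      rw [map_neg_real]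
      congr 1
      ext S
      show (x ≠ z ∧ 0 ≤ D z x (-S) ∧ D z x (-S) ≤ u) ↔ (x ≠ z ∧ 0 ≤ D x z S ∧ D x z S ≤ u)
      rw [D_neg, D_symm x z, neg_neg]
    simp only [e]
    exact h.cnt_up z u hu

end KS
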