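import Pool.Agent.Lib.MP_c534e4_co.Doubling

/-! Module D2 (owner helper3): chaining. -/

set_option autoImplicit false

namespace KS

open MeasureTheory Set

/-- union bound over the points of a finite set -/
theorem measureReal_exists_le {Q Ω : Type} [MeasurableSpace Ω] (μ : Measure Ω)
    [IsProbabilityMeasure μ] (G : Finset Q) (p : Q → Ω → Prop) (b : ℝ)
    (hb : ∀ g ∈ G, μ.real {ω | p g ω} ≤ b) :
    μ.real {ω | ∃ g ∈ G, p g ω} ≤ G.card * b := by
  have h1 : {ω | ∃ g ∈ G, p g ω} = ⋃ g ∈ G, {ω | p g ω} := by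
    ext ω
    simp
  rw [h1]
  calc μ.real (⋃ g ∈ G, {ω | p g ω}) ≤ ∑ g ∈ G, μ.real {ω | p g ω} :=
        measureReal_biUnion_finset_le _ _
    _ ≤ ∑ _g ∈ G, b := Finset.sum_le_sum hb
    _ = G.card * b := by rw [Finset.sum_const, nsmul_eq_mul]

theorem chaining_aux (ε : ℝ) (m : ℕ) (hm1 : 1 ≤ m)
    (hm : ∀ {Q : Type} [Fintype Q] (μ : Measure (Q → ℝ)), IsKS μ → EpsBad μ ε →
      ∀ (z : Q) (ρ : ℝ), 0 < ρ → ∀ F : Finset Q, (∀ x ∈ F, d μ x z ≤ ρ) →
      (∀ x ∈ F, ∀ y ∈ F, x ≠ y → (1 / 2) * ρ ≤ d μ x y) → F.card ≤ m)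
    {Q : Type} [Fintype Q] (μ : Measure (Q → ℝ)) (hμ : IsKS μ) (hbad : EpsBad μ ε) (n : ℕ) :
    ∀ (z : Q) (ρ t : ℝ), 0 < ρ → ρ < 2 ^ n → 256 * m * ρ ≤ t →
    μ.real {S | ∃ x, d μ x z ≤ ρ ∧ t < |D x z S|} ≤ 8 * m * Real.exp (-(t / (64 * ρ))) := by
  classical
  have := hμ.prob
  have hmpos : (1 : ℝ) ≤ m := by exact_mod_cast hm1
  induction n with
  | zero =>
    intro z ρ t hρ hρ1 ht
    rw [pow_zero] at hρ1
    have h1 : {S : Q → ℝ | ∃ x, d μ x z ≤ ρ ∧ t < |D x z S|} = ∅ := by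
      ext S
      simp only [Set.mem_ofPred_eq, Set.mem_empty_iff_false, iff_false, not_exists, not_and,
        not_lt]
      intro x hx
      by_cases hxz : x = z
      · subst hxz
        simp only [D, sub_self, abs_zero]
        have : 0 ≤ 256 * m * ρ := by positivity
        linarith
      · have := hμ.d_ge x z hxz
        linarith
    rw [h1, measureReal_empty]
    positivity
  | succ n ih =>
    intro z ρ t hρ hρ1 ht
    have ht0 : 0 < t := lt_of_lt_of_le (by positivity) ht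
    set F : Finset Q := Finset.univ.filter (fun x => d μ x z ≤ ρ) with hF
    obtain ⟨G, hGF, hGsep, hGnet⟩ := exists_net μ F (ρ / 2) (by positivity)
    have hGd : ∀ g ∈ G, d μ g z ≤ ρ := fun g hg => (Finset.mem_filter.1 (hGF hg)).2
    have hGm : G.card ≤ m := by
      refine hm μ hμ hbad z ρ hρ G hGd ?_
      intro x hx y hy hxy
      have := hGsep x hx y hy hxy
      linarith
    have hGm' : (G.card : ℝ) ≤ m := by exact_mod_cast hGm
    -- decomposition
    have hsub : {S : Q → ℝ | ∃ x, d μ x z ≤ ρ ∧ t < |D x z S|} ⊆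
        {S | ∃ g ∈ G, t / 4 ≤ |D g z S|} ∪
        {S | ∃ g ∈ G, ∃ x, d μ x g ≤ ρ / 2 ∧ 3 * t / 4 < |D x g S|} := by
      rintro S ⟨x, hx, hxt⟩
      obtain ⟨g, hg, hxg⟩ := hGnet x (Finset.mem_filter.2 ⟨Finset.mem_univ x, hx⟩)
      by_cases hc : t / 4 ≤ |D g z S|
      · exact Or.inl ⟨g, hg, hc⟩
      · right
        refine ⟨g, hg, x, hxg, ?_⟩
        push Not at hc
        have h1 : D x z S = D x g S + D g z S := by simp only [D]; ring
        have h2 : |D x z S| ≤ |D x g S| + |D g z S| := by rw [h1]; exact abs_add_le _ _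
        linarith
    have hA : μ.real {S | ∃ g ∈ G, t / 4 ≤ |D g z S|} ≤
        G.card * (4 * Real.exp (-(t / 4 / (8 * ρ)))) := by
      apply measureReal_exists_le
      intro g hg
      exact hμ.tail_ball g z ρ (t / 4) hρ (hGd g hg) (by positivity)
    have hB : μ.real {S | ∃ g ∈ G, ∃ x, d μ x g ≤ ρ / 2 ∧ 3 * t / 4 < |D x g S|} ≤
        G.card * (8 * m * Real.exp (-(3 * t / 4 / (64 * (ρ / 2))))) := by
      apply measureReal_exists_le
      intro g hg
      refine ih g (ρ / 2) (3 * t / 4) (by positivity) ?_ ?_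
      · rw [pow_succ] at hρ1
        linarith
      · have : 256 * m * (ρ / 2) ≤ t / 2 := by linarith
        linarith
    -- numerics
    set E : ℝ := Real.exp (-(t / (64 * ρ))) with hE
    set E2 : ℝ := Real.exp (-(t / (128 * ρ))) with hE2
    have hEpos : 0 < E := Real.exp_pos _
    have hE2pos : 0 < E2 := Real.exp_pos _
    have e1 : Real.exp (-(t / 4 / (8 * ρ))) = E * E := by
      rw [hE, ← Real.exp_add]
      congr 1
      field_simp
      ring
    have e2 : Real.exp (-(3 * t / 4 / (64 * (ρ / 2)))) = E * E2 := by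
      rw [hE, hE2, ← Real.exp_add]
      congr 1
      field_simp
      ring
    have e3 : E ≤ 1 := by
      rw [hE, Real.exp_le_one_iff]
      have : 0 < t / (64 * ρ) := by positivity
      linarith
    have e4 : m * E2 ≤ 1 / 2 := by
      have h1 : 2 * (m : ℝ) ≤ t / (128 * ρ) := by
        rw [le_div_iff₀ (by positivity)]
        linarith
      have h2 : 2 * (m : ℝ) ≤ Real.exp (t / (128 * ρ)) := by
        have := Real.add_one_le_exp (t / (128 * ρ))
        linarith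
      have h3 : E2 = (Real.exp (t / (128 * ρ)))⁻¹ := by rw [hE2, Real.exp_neg]
      rw [h3, ← div_eq_mul_inv, div_le_iff₀ (Real.exp_pos _)]
      linarith
    rw [e1] at hA
    rw [e2] at hB
    have hA' : μ.real {S | ∃ g ∈ G, t / 4 ≤ |D g z S|} ≤ 4 * m * E := by
      refine hA.trans ?_
      have : (G.card : ℝ) * (4 * (E * E)) ≤ m * (4 * (1 * E)) := by
        gcongr
      linarith
    have hB' : μ.real {S | ∃ g ∈ G, ∃ x, d μ x g ≤ ρ / 2 ∧ 3 * t / 4 < |D x g S|} ≤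
        4 * m * E := by
      refine hB.trans ?_
      calc (G.card : ℝ) * (8 * m * (E * E2)) ≤ m * (8 * m * (E * E2)) := by gcongr
        _ = 8 * m * E * (m * E2) := by ring
        _ ≤ 8 * m * E * (1 / 2) := by gcongr
        _ = 4 * m * E := by ring
    calc μ.real {S | ∃ x, d μ x z ≤ ρ ∧ t < |D x z S|} ≤ _ := measureReal_mono hsub
      _ ≤ _ := measureReal_union_le _ _
      _ ≤ 4 * m * E + 4 * m * E := add_le_add hA' hB'
      _ = 8 * m * E := by ring

theorem chaining (ε : ℝ) (hε : 0 < ε) : ∃ C c : ℝ, 0 < C ∧ 0 < c ∧ ∀ {Q : Type} [Fintype Q]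
    (μ : Measure (Q → ℝ)), IsKS μ → EpsBad μ ε → ∀ (z : Q) (ρ t : ℝ), 0 < ρ → 0 ≤ t →
    μ.real {S | ∃ x, d μ x z ≤ ρ ∧ t < |D x z S|} ≤ C * Real.exp (-(c * t / ρ)) := by
  obtain ⟨m₀, hm₀⟩ := doubling ε (1 / 2) hε (by norm_num)
  set m : ℕ := m₀ + 1 with hm
  have hmm : ∀ {Q : Type} [Fintype Q] (μ : Measure (Q → ℝ)), IsKS μ → EpsBad μ ε →
      ∀ (z : Q) (ρ : ℝ), 0 < ρ → ∀ F : Finset Q, (∀ x ∈ F, d μ x z ≤ ρ) →
      (∀ x ∈ F, ∀ y ∈ F, x ≠ y → (1 / 2) * ρ ≤ d μ x y) → F.card ≤ m := by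
    intro Q _ μ hμ hbad z ρ hρ F hF hsep
    have := hm₀ μ hμ hbad z ρ hρ F hF hsep
    omega
  refine ⟨8 * m + Real.exp (4 * m), 1 / 64, by positivity, by norm_num, ?_⟩
  intro Q _ μ hμ hbad z ρ t hρ ht
  have := hμ.prob
  have hE : -(1 / 64 * t / ρ) = -(t / (64 * ρ)) := by
    field_simp
  rw [hE]
  have hEpos : 0 < Real.exp (-(t / (64 * ρ))) := Real.exp_pos _
  by_cases hc : 256 * m * ρ ≤ t
  · obtain ⟨n, hn⟩ := pow_unbounded_of_one_lt ρ (one_lt_two)
    have h1 := chaining_aux ε m (by omega) hmm μ hμ hbad n z ρ t hρ hn hc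
    refine h1.trans ?_
    apply mul_le_mul_of_nonneg_right _ hEpos.le
    have := Real.exp_pos (4 * (m : ℝ))
    linarith
  · push Not at hc
    have h1 : μ.real {S | ∃ x, d μ x z ≤ ρ ∧ t < |D x z S|} ≤ 1 := measureReal_le_one
    refine h1.trans ?_
    have h2 : (1 : ℝ) ≤ Real.exp (4 * m) * Real.exp (-(t / (64 * ρ))) := by
      rw [← Real.exp_add]
      apply Real.one_le_exp
      have h3 : t / (64 * ρ) ≤ 4 * m := by
        rw [div_le_iff₀ (by positivity)]
        linarith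
      linarith
    have h3 : 0 ≤ 8 * (m : ℝ) * Real.exp (-(t / (64 * ρ))) := by positivity
    linarith

end KS
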