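import Mathlib

/-!
# Kahn–Saks conjecture (S11313): definitions

A configuration is a function `S : Q → ℝ` (times of the elements of a finite set `Q`); a model is a
probability measure `μ` on configurations.  Only differences `D x y S = S x - S y` matter.
The concrete model `ks Q` of a finite poset `Q`: uniform linear extension with iid exponential gaps.
-/

set_option autoImplicit false

namespace KS

open MeasureTheory ProbabilityTheory Set
open scoped ENNReal

section abstractModel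

variable {Q : Type} [Fintype Q]

/-- Difference of two coordinates. -/
def D (x y : Q) (S : Q → ℝ) : ℝ := S x - S y

/-- The configuration `S` translated so that its value at `z` is `c`. -/
def pin (z : Q) (c : ℝ) (S : Q → ℝ) : Q → ℝ := fun x => S x - S z + c

/-- Mean of `D x y`. -/
noncomputable def M (μ : Measure (Q → ℝ)) (x y : Q) : ℝ := ∫ S, D x y S ∂μ

/-- Variance of `D x y`. -/
noncomputable def V (μ : Measure (Q → ℝ)) (x y : Q) : ℝ := ∫ S, (D x y S - M μ x y) ^ 2 ∂μ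

/-- First absolute moment of `D x y` (a metric on `Q`). -/
noncomputable def d (μ : Measure (Q → ℝ)) (x y : Q) : ℝ := ∫ S, |D x y S| ∂μ

/-- The abstract properties of the random configuration attached to a finite poset. -/
structure IsKS (μ : Measure (Q → ℝ)) : Prop where
  prob : IsProbabilityMeasure μ
  l2 : ∀ x y : Q, MemLp (D x y) 2 μ
  /-- the four functions theorem with one pinned coordinate -/
  fft : ∀ (z : Q) (c c' : ℝ), c ≤ c' → ∀ A B C E : Set (Q → ℝ),
    MeasurableSet A → MeasurableSet B → MeasurableSet C → MeasurableSet E →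
    (∀ S ∈ A, ∀ T ∈ B, S z = c → T z = c' → S ⊓ T ∈ C ∧ S ⊔ T ∈ E) →
    μ.real {S | pin z c S ∈ A} * μ.real {S | pin z c' S ∈ B} ≤
      μ.real {S | pin z c S ∈ C} * μ.real {S | pin z c' S ∈ E}
  /-- subadditivity of the variances -/
  V_tri : ∀ x y w : Q, V μ x w ≤ V μ x y + V μ y w
  d_ge : ∀ x y : Q, x ≠ y → 1 ≤ d μ x y
  cnt_up : ∀ (z : Q) (u : ℝ), 0 ≤ u →
    ∑ x : Q, μ.real {S | x ≠ z ∧ 0 ≤ D x z S ∧ D x z S ≤ u} ≤ 2 * (u + 1)
  cnt_dn : ∀ (z : Q) (u : ℝ), 0 ≤ u →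
    ∑ x : Q, μ.real {S | x ≠ z ∧ 0 ≤ D z x S ∧ D z x S ≤ u} ≤ 2 * (u + 1)

/-- No pair is `ε`-balanced. -/
def EpsBad (μ : Measure (Q → ℝ)) (ε : ℝ) : Prop :=
  ∀ x y : Q, x ≠ y → 1 / 2 + ε ≤ μ.real {S | S x < S y} ∨ 1 / 2 + ε ≤ μ.real {S | S y < S x}

open Classical in
/-- Number of `x ≠ z` with `p (D x z S)`. -/
noncomputable def cnt (z : Q) (p : ℝ → Prop) (S : Q → ℝ) : ℕ :=
  (Finset.univ.filter (fun x : Q => x ≠ z ∧ p (D x z S))).card

/-- The numbers of elements in windows next to `z`, of length up to `K`, are concentrated. -/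
structure Deep (μ : Measure (Q → ℝ)) (z : Q) (K : ℝ) : Prop where
  up_le : ∀ u l : ℝ, 0 ≤ u → 2 ≤ l → u + l ≤ K →
    μ.real {S | u + l < (cnt z (fun t => 0 ≤ t ∧ t ≤ u) S : ℝ)} ≤ 8 * (u + l) / l ^ 2
  up_ge : ∀ u l : ℝ, 0 ≤ u → 2 ≤ l → u + l ≤ K →
    μ.real {S | (cnt z (fun t => 0 < t ∧ t < u) S : ℝ) < u - l} ≤ 8 * (u + l) / l ^ 2
  dn_le : ∀ u l : ℝ, 0 ≤ u → 2 ≤ l → u + l ≤ K →
    μ.real {S | u + l < (cnt z (fun t => -u ≤ t ∧ t ≤ 0) S : ℝ)} ≤ 8 * (u + l) / l ^ 2
  dn_ge : ∀ u l : ℝ, 0 ≤ u → 2 ≤ l → u + l ≤ K →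
    μ.real {S | (cnt z (fun t => -u < t ∧ t < 0) S : ℝ) < u - l} ≤ 8 * (u + l) / l ^ 2

/-- `core` controls the model: deep elements in the core, trivial (chain) elements outside. -/
structure Core (μ : Measure (Q → ℝ)) (core : Finset Q) (K : ℝ) : Prop where
  nonempty : core.Nonempty
  deep : ∀ z ∈ core, Deep μ z K
  tame : ∀ x y, ∃ x' ∈ core, ∃ y' ∈ core, |M μ x' y'| ≤ |M μ x y| ∧
    V μ x y ≤ |M μ x y| + V μ x' y'
  gap1 : ∀ z, z ∉ core → (∀ y, M μ y z ≤ 0) ∨ ∃ y, 0 < M μ y z ∧ M μ y z ≤ 1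
  gapK : ∀ z ∈ core, (∀ y, M μ y z ≤ 0) ∨ ∃ y, 0 < M μ y z ∧ M μ y z ≤ K / 4

end abstractModel

/-- log-concavity of both survival functions of a law on ℝ -/
structure LC (ρ : Measure ℝ) : Prop where
  up : ∀ r t s : ℝ, r ≤ t → 0 ≤ s →
    ρ.real (Ici (t + s)) * ρ.real (Ici r) ≤ ρ.real (Ici (r + s)) * ρ.real (Ici t)
  dn : ∀ r t s : ℝ, r ≤ t → 0 ≤ s →
    ρ.real (Iic (-(t + s))) * ρ.real (Iic (-r)) ≤ ρ.real (Iic (-(r + s))) * ρ.real (Iic (-t))

section concrete

variable (Q : Type) [Fintype Q] [PartialOrder Q]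

/-- linear extensions of `Q` -/
abbrev LinExt : Type := {σ : Q ≃ Fin (Fintype.card Q) // StrictMono ⇑σ}

noncomputable instance : Fintype (LinExt Q) := Fintype.ofFinite _

variable {Q} in
/-- the configuration with order `σ` and gaps `g` -/
noncomputable def conf (σ : Q ≃ Fin (Fintype.card Q)) (g : Fin (Fintype.card Q) → ℝ) : Q → ℝ :=
  fun x => ∑ i, if i < σ x then g i else 0

/-- the random configuration: uniform linear extension, iid exponential gaps -/
noncomputable def ks : Measure (Q → ℝ) :=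
  (Fintype.card (LinExt Q) : ℝ≥0∞)⁻¹ •
    ∑ σ : LinExt Q, (Measure.pi (fun _ : Fin (Fintype.card Q) => expMeasure 1)).map (conf σ.1)

variable {Q}

open Classical in
/-- `T` extended by the value `c` at `y` -/
noncomputable def ext (y : Q) (c : ℝ) (T : {x : Q // x ≠ y} → ℝ) : Q → ℝ :=
  fun x => if h : x = y then c else T ⟨x, h⟩

open Classical in
/-- the density of the configuration (posets with a top and a bottom) -/
noncomputable def wO [BoundedOrder Q] (S : Q → ℝ) : ℝ≥0∞ :=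
  if StrictMono S then ENNReal.ofReal (Real.exp (-(S ⊤ - S ⊥))) else 0

end concrete

end KS
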