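import Pool.Agent.Lib.MP_c534e4_co.KsBasic

/-! Module G (owner helper46): moments and window counts of the concrete model. -/

set_option autoImplicit false

namespace KS

open MeasureTheory Set ProbabilityTheory
open scoped ENNReal

section gaps

variable {n : ℕ}

/-- law of the gaps -/
noncomputable abbrev gl (n : ℕ) : Measure (Fin n → ℝ) :=
  Measure.pi (fun _ : Fin n => expMeasure 1)

lemma gl_eq (n : ℕ) : gl n = Pool.Agent.Lib.MP_c534e4_co.H96.ν (fun _ : Fin n => (1 : ℝ)) := rfl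

lemma gl_memLp (c : Fin n → ℝ) : MemLp (fun g : Fin n → ℝ => ∑ i, c i * g i) 2 (gl n) :=
  Pool.Agent.Lib.MP_c534e4_co.H96.lin_memLp (r := fun _ : Fin n => (1 : ℝ)) (fun _ => one_pos) c

lemma gl_mean (c : Fin n → ℝ) : ∫ g, ∑ i, c i * g i ∂(gl n) = ∑ i, c i := by
  have h := Pool.Agent.Lib.MP_c534e4_co.H96.lin_mean (r := fun _ : Fin n => (1 : ℝ))
    (fun _ => one_pos) c
  simpa [gl_eq] using h

lemma gl_var (c : Fin n → ℝ) : Var[fun g : Fin n → ℝ => ∑ i, c i * g i; gl n] = ∑ i, c i ^ 2 := by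
  have h := Pool.Agent.Lib.MP_c534e4_co.H96.lin_var (r := fun _ : Fin n => (1 : ℝ))
    (fun _ => one_pos) c
  simpa [gl_eq] using h

lemma sum_ind (s : Finset (Fin n)) (g : Fin n → ℝ) :
    ∑ i, (if i ∈ s then (1 : ℝ) else 0) * g i = ∑ i ∈ s, g i := by
  simp [Finset.sum_ite_mem]

lemma gs_memLp (s : Finset (Fin n)) : MemLp (fun g : Fin n → ℝ => ∑ i ∈ s, g i) 2 (gl n) := by
  have h := gl_memLp (fun i => if i ∈ s then (1 : ℝ) else 0)
  simpa only [sum_ind] using h

lemma gs_mean (s : Finset (Fin n)) : ∫ g, ∑ i ∈ s, g i ∂(gl n) = s.card := by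
  have h := gl_mean (fun i => if i ∈ s then (1 : ℝ) else 0)
  simp only [sum_ind] at h
  rw [h]
  simp

lemma gs_var (s : Finset (Fin n)) :
    Var[fun g : Fin n → ℝ => ∑ i ∈ s, g i; gl n] = s.card := by
  have h := gl_var (fun i => if i ∈ s then (1 : ℝ) else 0)
  simp only [sum_ind] at h
  rw [h]
  simp

lemma gs_cheb (s : Finset (Fin n)) (c : ℝ) (hc : 0 < c) :
    (gl n).real {g | c ≤ |∑ i ∈ s, g i - s.card|} ≤ s.card / c ^ 2 := by
  have h := meas_ge_le_variance_div_sq (gs_memLp s) hc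
  rw [gs_mean, gs_var] at h
  rw [Measure.real]
  refine (ENNReal.toReal_mono ENNReal.ofReal_ne_top h).trans ?_
  rw [ENNReal.toReal_ofReal (by positivity)]

lemma gs_le (s : Finset (Fin n)) (u : ℝ) (hu : u < s.card) :
    (gl n).real {g | ∑ i ∈ s, g i ≤ u} ≤ s.card / (s.card - u) ^ 2 := by
  refine le_trans (measureReal_mono ?_) (gs_cheb s (s.card - u) (by linarith))
  intro g hg
  simp only [mem_setOf_eq] at hg ⊢
  rw [abs_sub_comm]
  exact le_trans (by linarith) (le_abs_self _)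

lemma gs_ge (s : Finset (Fin n)) (u : ℝ) (hu : (s.card : ℝ) < u) :
    (gl n).real {g | u ≤ ∑ i ∈ s, g i} ≤ s.card / (u - s.card) ^ 2 := by
  refine le_trans (measureReal_mono ?_) (gs_cheb s (u - s.card) (by linarith))
  intro g hg
  simp only [mem_setOf_eq] at hg ⊢
  exact le_trans (by linarith) (le_abs_self _)

lemma integral_exp_neg_exp : ∫ t, Real.exp (-t) ∂(expMeasure 1) = 1 / 2 := by
  rw [Pool.Agent.Lib.MP_c534e4_co.H96.expMeasure_eq,
    integral_withDensity_eq_integral_toReal_smul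
      (Pool.Agent.Lib.MP_c534e4_co.H96.measurable_expPDF 1)
      (Filter.Eventually.of_forall fun x => ENNReal.ofReal_lt_top)]
  have h1 : (fun x : ℝ => (exponentialPDF 1 x).toReal • Real.exp (-x)) =ᵐ[volume]
      (Set.Ioi (0 : ℝ)).indicator (fun t : ℝ => t ^ 0 * Real.exp (-(2 * t))) := by
    have h0 : ∀ᵐ x : ℝ, x ≠ 0 := by
      rw [ae_iff]
      simp
    filter_upwards [h0] with x hx
    rcases lt_or_gt_of_ne hx with h | h
    · rw [Set.indicator_of_notMem (by simp [h.le]), exponentialPDF_of_neg h]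
      simp
    · rw [Set.indicator_of_mem (by exact h), exponentialPDF_of_nonneg h.le,
        ENNReal.toReal_ofReal (by positivity)]
      simp only [smul_eq_mul, one_mul, pow_zero]
      rw [← Real.exp_add]
      congr 1
      ring
  rw [integral_congr_ae h1, integral_indicator measurableSet_Ioi,
    Pool.Agent.Lib.MP_c534e4_co.H96.integral_pow_exp two_pos]
  norm_num

lemma gs_exp (s : Finset (Fin n)) :
    ∫ g, Real.exp (-(∑ i ∈ s, g i)) ∂(gl n) = (1 / 2) ^ s.card := by
  have h := integral_fintype_prod_eq_prod (μ := fun _ : Fin n => expMeasure 1)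
    (fun (i : Fin n) (t : ℝ) => if i ∈ s then Real.exp (-t) else 1)
  have h1 : ∀ g : Fin n → ℝ, Real.exp (-(∑ i ∈ s, g i)) =
      ∏ i, (if i ∈ s then Real.exp (-(g i)) else 1) := by
    intro g
    rw [← Finset.sum_neg_distrib, Real.exp_sum, Finset.prod_ite_mem]
    simp
  simp_rw [h1]
  rw [h]
  have h2 : ∀ i : Fin n, (∫ t, (if i ∈ s then Real.exp (-t) else 1) ∂(expMeasure 1)) =
      if i ∈ s then (1 / 2 : ℝ) else 1 := by
    intro i
    split_ifs
    · exact integral_exp_neg_exp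
    · simp
  simp_rw [h2]
  rw [Finset.prod_ite_mem]
  simp

lemma gs_le_exp (s : Finset (Fin n)) (u : ℝ) :
    (gl n).real {g | ∑ i ∈ s, g i ≤ u} ≤ Real.exp u * (1 / 2) ^ s.card := by
  have hint : Integrable (fun g : Fin n → ℝ => Real.exp (-1 * (∑ i ∈ s, g i))) (gl n) := by
    apply Integrable.of_bound (C := 1)
    · apply Measurable.aestronglyMeasurable
      fun_prop
    · filter_upwards [ae_gap_pos n] with g hg
      rw [Real.norm_eq_abs, abs_of_pos (Real.exp_pos _), Real.exp_le_one_iff]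
      have := Finset.sum_nonneg (fun i (_ : i ∈ s) => (hg i).le)
      linarith
  have h := measure_le_le_exp_mul_mgf (μ := gl n) (X := fun g => ∑ i ∈ s, g i) (t := -1) u
    (by norm_num) hint
  refine h.trans (le_of_eq ?_)
  rw [mgf]
  have : ∫ g, Real.exp (-1 * (∑ i ∈ s, g i)) ∂(gl n) = (1 / 2) ^ s.card := by
    rw [← gs_exp s]
    congr 1
    funext g
    congr 1
    ring
  rw [this]
  norm_num

end gaps

section model

variable {Q : Type} [Fintype Q] [PartialOrder Q]

omit [PartialOrder Q] in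
lemma D_conf (σ : Q ≃ Fin (Fintype.card Q)) (g : Fin (Fintype.card Q) → ℝ) (x y : Q) :
    D x y (conf σ g) = ∑ i, ((if i < σ x then (1 : ℝ) else 0) - (if i < σ y then 1 else 0)) * g i := by
  unfold D conf
  rw [← Finset.sum_sub_distrib]
  apply Finset.sum_congr rfl
  intro i _
  split_ifs <;> ring

lemma D_conf_of_le (σ : Q ≃ Fin (Fintype.card Q)) (g : Fin (Fintype.card Q) → ℝ) {x y : Q}
    (h : σ y ≤ σ x) : D x y (conf σ g) = ∑ i ∈ Finset.Ico (σ y) (σ x), g i := by
  unfold D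
  rw [conf_apply, conf_apply]
  have hs : Finset.Iio (σ x) = Finset.Iio (σ y) ∪ Finset.Ico (σ y) (σ x) := by
    ext i
    simp only [Finset.mem_Iio, Finset.mem_union, Finset.mem_Ico]
    constructor
    · intro hi
      rcases lt_or_ge i (σ y) with h' | h'
      · exact Or.inl h'
      · exact Or.inr ⟨h', hi⟩
    · rintro (h' | h')
      · exact lt_of_lt_of_le h' h
      · exact h'.2
  rw [hs, Finset.sum_union]
  · ring
  · rw [Finset.disjoint_left]
    intro i hi hi2
    exact absurd (Finset.mem_Iio.1 hi) (not_lt.2 (Finset.mem_Ico.1 hi2).1)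

omit [Fintype Q] [PartialOrder Q] in
lemma measD (x y : Q) : Measurable (D x y : (Q → ℝ) → ℝ) :=
  (measurable_pi_apply x).sub (measurable_pi_apply y)

lemma integrable_ks {F : (Q → ℝ) → ℝ} (hF : Measurable F)
    (h : ∀ σ : LinExt Q, Integrable (fun g => F (conf σ.1 g)) (gl (Fintype.card Q))) :
    Integrable F (ks Q) := by
  unfold ks
  apply Integrable.smul_measure
  · rw [integrable_finsetSum_measure]
    intro σ _
    rw [integrable_map_measure hF.aestronglyMeasurable (measurable_conf σ.1).aemeasurable]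
    exact h σ
  · rw [ne_eq, ENNReal.inv_eq_top]
    exact card_linExt_ne_zero Q

lemma integral_ks {F : (Q → ℝ) → ℝ} (hF : Measurable F)
    (h : ∀ σ : LinExt Q, Integrable (fun g => F (conf σ.1 g)) (gl (Fintype.card Q))) :
    ∫ S, F S ∂(ks Q) = (Fintype.card (LinExt Q) : ℝ)⁻¹ *
      ∑ σ : LinExt Q, ∫ g, F (conf σ.1 g) ∂(gl (Fintype.card Q)) := by
  unfold ks
  rw [integral_smul_measure, integral_finsetSum_measure]
  · rw [smul_eq_mul, ENNReal.toReal_inv, ENNReal.toReal_natCast]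
    congr 1
    apply Finset.sum_congr rfl
    intro σ _
    rw [integral_map (measurable_conf σ.1).aemeasurable hF.aestronglyMeasurable]
  · intro σ _
    rw [integrable_map_measure hF.aestronglyMeasurable (measurable_conf σ.1).aemeasurable]
    exact h σ

lemma ks_real {s : Set (Q → ℝ)} (hs : MeasurableSet s) :
    (ks Q).real s = (Fintype.card (LinExt Q) : ℝ)⁻¹ *
      ∑ σ : LinExt Q, (gl (Fintype.card Q)).real (conf σ.1 ⁻¹' s) := by
  rw [Measure.real, ks_apply hs, ENNReal.toReal_mul, ENNReal.toReal_inv, ENNReal.toReal_natCast,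
    ENNReal.toReal_sum (fun σ _ => measure_ne_top _ _)]
  rfl

lemma avg_le {f : LinExt Q → ℝ} {c : ℝ} (h : ∀ σ, f σ ≤ c) :
    (Fintype.card (LinExt Q) : ℝ)⁻¹ * ∑ σ : LinExt Q, f σ ≤ c := by
  have hc : (0 : ℝ) < Fintype.card (LinExt Q) := by
    exact_mod_cast Fintype.card_pos
  rw [inv_mul_le_iff₀ hc]
  calc ∑ σ : LinExt Q, f σ ≤ ∑ _σ : LinExt Q, c := Finset.sum_le_sum fun σ _ => h σ
    _ = Fintype.card (LinExt Q) * c := by
      rw [Finset.sum_const, Finset.card_univ, nsmul_eq_mul]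

lemma le_avg {f : LinExt Q → ℝ} {c : ℝ} (h : ∀ σ, c ≤ f σ) :
    c ≤ (Fintype.card (LinExt Q) : ℝ)⁻¹ * ∑ σ : LinExt Q, f σ := by
  have hc : (0 : ℝ) < Fintype.card (LinExt Q) := by
    exact_mod_cast Fintype.card_pos
  rw [le_inv_mul_iff₀ hc]
  calc Fintype.card (LinExt Q) * c = ∑ _σ : LinExt Q, c := by
        rw [Finset.sum_const, Finset.card_univ, nsmul_eq_mul]
    _ ≤ ∑ σ : LinExt Q, f σ := Finset.sum_le_sum fun σ _ => h σ

omit [PartialOrder Q] in
lemma conf_memLp (σ : Q ≃ Fin (Fintype.card Q)) (x y : Q) :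
    MemLp (fun g => D x y (conf σ g)) 2 (gl (Fintype.card Q)) := by
  have h := gl_memLp (fun i => (if i < σ x then (1 : ℝ) else 0) - (if i < σ y then 1 else 0))
  simpa only [D_conf] using h

lemma sum_lt_eq {n : ℕ} (a : Fin n) : ∑ i : Fin n, (if i < a then (1 : ℝ) else 0) = ((a : ℕ) : ℝ) := by
  rw [Finset.sum_boole]
  have : (Finset.univ.filter (fun i : Fin n => i < a)) = Finset.Iio a := by
    ext i; simp
  rw [this, Fin.card_Iio]

omit [PartialOrder Q] in
lemma conf_mean (σ : Q ≃ Fin (Fintype.card Q)) (x y : Q) :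
    ∫ g, D x y (conf σ g) ∂(gl (Fintype.card Q)) = ((σ x : ℕ) : ℝ) - ((σ y : ℕ) : ℝ) := by
  have h := gl_mean (fun i => (if i < σ x then (1 : ℝ) else 0) - (if i < σ y then 1 else 0))
  simp only [D_conf]
  rw [h, Finset.sum_sub_distrib, sum_lt_eq, sum_lt_eq]

lemma d_ks (x y : Q) : d (ks Q) x y = (Fintype.card (LinExt Q) : ℝ)⁻¹ *
    ∑ σ : LinExt Q, ∫ g, |D x y (conf σ.1 g)| ∂(gl (Fintype.card Q)) := by
  have hm : Measurable (fun S : Q → ℝ => |D x y S|) := (measD x y).norm
  exact integral_ks hm (fun σ => ((conf_memLp σ.1 x y).integrable (by norm_num)).norm)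

end model

variable {Q : Type} [Fintype Q] [PartialOrder Q]

theorem ks_l2 (x y : Q) : MemLp (D x y) 2 (ks Q) := by
  rw [memLp_two_iff_integrable_sq (measD x y).aestronglyMeasurable]
  exact integrable_ks ((measD x y).pow_const 2) (fun σ => (conf_memLp σ.1 x y).integrable_sq)

theorem ks_d_ge (x y : Q) (h : x ≠ y) : 1 ≤ d (ks Q) x y := by
  rw [d_ks]
  apply le_avg
  intro σ
  have h1 : |∫ g, D x y (conf σ.1 g) ∂(gl (Fintype.card Q))| ≤
      ∫ g, |D x y (conf σ.1 g)| ∂(gl (Fintype.card Q)) := abs_integral_le_integral_abs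
  refine le_trans ?_ h1
  rw [conf_mean]
  have h2 : ((σ.1 x : ℕ) : ℤ) - ((σ.1 y : ℕ) : ℤ) ≠ 0 := by
    intro h3
    apply h
    apply σ.1.injective
    apply Fin.ext
    omega
  have h3 : (1 : ℤ) ≤ |((σ.1 x : ℕ) : ℤ) - ((σ.1 y : ℕ) : ℤ)| := Int.one_le_abs h2
  exact_mod_cast h3

theorem ks_d_le (x y : Q) (k : ℕ) (h : ∀ σ : LinExt Q, |((σ.1 x : ℕ) : ℤ) - ((σ.1 y : ℕ) : ℤ)| ≤ k) :
    d (ks Q) x y ≤ k := by
  rw [d_ks]
  apply avg_le
  intro σ
  have key : ∀ a b : Q, σ.1 b ≤ σ.1 a → ∫ g, |D a b (conf σ.1 g)| ∂(gl (Fintype.card Q)) =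
      ((σ.1 a : ℕ) : ℝ) - ((σ.1 b : ℕ) : ℝ) := by
    intro a b hab
    rw [← conf_mean]
    apply integral_congr_ae
    filter_upwards [ae_gap_pos (Fintype.card Q)] with g hg
    rw [abs_of_nonneg]
    rw [D_conf_of_le σ.1 g hab]
    exact Finset.sum_nonneg fun i _ => (hg i).le
  have h2 := h σ
  rcases le_total (σ.1 y) (σ.1 x) with hle | hle
  · change ∫ g, |D x y (conf σ.1 g)| ∂(gl (Fintype.card Q)) ≤ k
    rw [key x y hle]
    have h3 : ((σ.1 x : ℕ) : ℤ) - ((σ.1 y : ℕ) : ℤ) ≤ k := (le_abs_self _).trans h2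
    exact_mod_cast h3
  · have h4 : ∀ g, |D x y (conf σ.1 g)| = |D y x (conf σ.1 g)| := by
      intro g
      unfold D
      exact abs_sub_comm _ _
    change ∫ g, |D x y (conf σ.1 g)| ∂(gl (Fintype.card Q)) ≤ k
    simp_rw [h4]
    rw [key y x hle]
    have h3 : ((σ.1 y : ℕ) : ℤ) - ((σ.1 x : ℕ) : ℤ) ≤ k := by
      rw [abs_sub_comm] at h2
      exact (le_abs_self _).trans h2
    exact_mod_cast h3

/-- consecutive chain elements -/
theorem ks_step (x y : Q) (h : x < y) (hw : ∀ w, w ≤ x ∨ y ≤ w) :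
    M (ks Q) y x = 1 ∧ V (ks Q) y x = 1 := by
  have hpos : ∀ σ : LinExt Q, ((σ.1 y : ℕ)) = (σ.1 x : ℕ) + 1 := by
    intro σ
    have h1 : σ.1 x < σ.1 y := σ.2 h
    by_contra hne
    have h2 : (σ.1 x : ℕ) + 1 < (σ.1 y : ℕ) := by
      have : (σ.1 x : ℕ) < (σ.1 y : ℕ) := h1
      omega
    have h3 : (σ.1 x : ℕ) + 1 < Fintype.card Q := h2.trans (σ.1 y).2
    set w := σ.1.symm ⟨(σ.1 x : ℕ) + 1, h3⟩ with hwdef
    have hσw : σ.1 w = ⟨(σ.1 x : ℕ) + 1, h3⟩ := by
      rw [hwdef, Equiv.apply_symm_apply]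
    rcases hw w with h4 | h4
    · have h5 := σ.2.monotone h4
      rw [hσw] at h5
      have : (σ.1 x : ℕ) + 1 ≤ (σ.1 x : ℕ) := h5
      omega
    · have h5 := σ.2.monotone h4
      rw [hσw] at h5
      have : (σ.1 y : ℕ) ≤ (σ.1 x : ℕ) + 1 := h5
      omega
  have hD : ∀ (σ : LinExt Q) g, D y x (conf σ.1 g) = ∑ i ∈ {σ.1 x}, g i := by
    intro σ g
    have h1 : σ.1 x < σ.1 y := σ.2 h
    rw [D_conf_of_le σ.1 g h1.le]
    congr 1
    ext i
    simp only [Finset.mem_Ico, Finset.mem_singleton]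
    have := hpos σ
    constructor
    · rintro ⟨ha, hb⟩
      apply Fin.ext
      have ha' : (σ.1 x : ℕ) ≤ i := ha
      have hb' : (i : ℕ) < σ.1 y := hb
      omega
    · rintro rfl
      exact ⟨le_rfl, h1⟩
  have hM : M (ks Q) y x = 1 := by
    unfold M
    rw [integral_ks (measD y x) (fun σ => (conf_memLp σ.1 y x).integrable (by norm_num))]
    apply le_antisymm
    · apply avg_le
      intro σ
      rw [conf_mean, hpos σ]
      push_cast
      linarith
    · apply le_avg
      intro σ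
      rw [conf_mean, hpos σ]
      push_cast
      linarith
  refine ⟨hM, ?_⟩
  have hval : ∀ σ : LinExt Q, ∫ g, (D y x (conf σ.1 g) - 1) ^ 2 ∂(gl (Fintype.card Q)) = 1 := by
    intro σ
    have h1 := gs_var ({σ.1 x} : Finset (Fin (Fintype.card Q)))
    have h2 := gs_mean ({σ.1 x} : Finset (Fin (Fintype.card Q)))
    rw [variance_eq_integral (gs_memLp _).aestronglyMeasurable.aemeasurable, h2] at h1
    simp only [hD σ]
    simpa using h1
  unfold V
  rw [hM]
  rw [integral_ks (((measD y x).sub_const 1).pow_const 2)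
    (fun σ => (((conf_memLp σ.1 y x).sub (memLp_const 1)).integrable_sq))]
  apply le_antisymm
  · exact avg_le fun σ => (hval σ).le
  · exact le_avg fun σ => (hval σ).ge


section counting

/-- bound for the probability that the `k`-th gap sum is at most `u` -/
noncomputable def mb (u : ℝ) (k : ℕ) : ℝ := min 1 (Real.exp u * (1 / 2) ^ k)

lemma mb_nonneg (u : ℝ) (k : ℕ) : 0 ≤ mb u k := le_min zero_le_one (by positivity)

lemma mb_sum (u : ℝ) (hu : 0 ≤ u) (N : ℕ) : ∑ k ∈ Finset.range N, mb u (k + 1) ≤ 2 * (u + 1) := by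
  set K := ⌈2 * u⌉₊ with hK
  have hK1 : (K : ℝ) < 2 * u + 1 := Nat.ceil_lt_add_one (by linarith)
  have hK2 : 2 * u ≤ K := Nat.le_ceil _
  have hexp : Real.exp u ≤ 2 ^ K := by
    have h1 : Real.exp 1 ≤ 4 := by
      have := Real.exp_one_lt_d9
      linarith
    have h2 : Real.exp u ≤ (4 : ℝ) ^ u := by
      rw [← Real.exp_one_rpow]
      exact Real.rpow_le_rpow (Real.exp_pos 1).le h1 hu
    have h3 : (4 : ℝ) ^ u = (2 : ℝ) ^ (2 * u) := by
      rw [Real.rpow_mul (by norm_num)]
      norm_num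
    rw [h3] at h2
    refine h2.trans ?_
    rw [← Real.rpow_natCast]
    exact Real.rpow_le_rpow_of_exponent_le (by norm_num) hK2
  have hsmall : ∀ N : ℕ, ∑ k ∈ Finset.range N, mb u (k + 1) ≤ N := by
    intro N
    calc ∑ k ∈ Finset.range N, mb u (k + 1) ≤ ∑ _k ∈ Finset.range N, (1 : ℝ) :=
          Finset.sum_le_sum fun k _ => min_le_left _ _
      _ = N := by simp
  have hbig : ∀ j : ℕ, ∑ k ∈ Finset.range (K + j), mb u (k + 1) ≤ K + 1 - (1 / 2) ^ j := by
    intro j
    induction j with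
    | zero =>
      have := hsmall K
      simpa using this
    | succ j ih =>
      rw [← add_assoc, Finset.sum_range_succ]
      have h1 : mb u (K + j + 1) ≤ (1 / 2) ^ (j + 1) := by
        refine (min_le_right _ _).trans ?_
        have h2 : (1 / 2 : ℝ) ^ (K + j + 1) = (1 / 2) ^ K * (1 / 2) ^ (j + 1) := by
          rw [add_assoc, pow_add]
        rw [h2, ← mul_assoc]
        have h3 : Real.exp u * (1 / 2) ^ K ≤ 1 := by
          calc Real.exp u * (1 / 2) ^ K ≤ 2 ^ K * (1 / 2) ^ K :=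
                mul_le_mul_of_nonneg_right hexp (by positivity)
            _ = 1 := by
              rw [← mul_pow]
              norm_num
        calc Real.exp u * (1 / 2) ^ K * (1 / 2) ^ (j + 1) ≤ 1 * (1 / 2) ^ (j + 1) :=
              mul_le_mul_of_nonneg_right h3 (by positivity)
          _ = (1 / 2) ^ (j + 1) := one_mul _
      have h4 : (1 / 2 : ℝ) ^ (j + 1) = (1 / 2) ^ j / 2 := by
        rw [pow_succ]; ring
      rw [h4] at h1 ⊢
      linarith
  rcases le_total N K with h | h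
  · have := hsmall N
    have h2 : (N : ℝ) ≤ K := by exact_mod_cast h
    linarith
  · obtain ⟨j, rfl⟩ := Nat.exists_eq_add_of_le h
    have := hbig j
    have h2 : (0 : ℝ) < (1 / 2) ^ j := by positivity
    linarith

lemma mb_up {n : ℕ} (r : Fin n) (u : ℝ) (hu : 0 ≤ u) :
    ∑ j : Fin n, (if r < j then mb u ((j : ℕ) - (r : ℕ)) else 0) ≤ 2 * (u + 1) := by
  have h1 : ∑ j : Fin n, (if r < j then mb u ((j : ℕ) - (r : ℕ)) else 0) =
      ∑ j ∈ Finset.range n, (if (r : ℕ) < j then mb u (j - (r : ℕ)) else 0) := by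
    rw [← Fin.sum_univ_eq_sum_range (fun j => if (r : ℕ) < j then mb u (j - (r : ℕ)) else 0)]
    rfl
  rw [h1]
  refine le_trans ?_ (mb_sum u hu n)
  calc ∑ j ∈ Finset.range n, (if (r : ℕ) < j then mb u (j - (r : ℕ)) else 0)
      ≤ ∑ j ∈ Finset.range ((r : ℕ) + 1 + n), (if (r : ℕ) < j then mb u (j - (r : ℕ)) else 0) := by
        apply Finset.sum_le_sum_of_subset_of_nonneg
        · intro i hi
          simp only [Finset.mem_range] at hi ⊢
          omega
        · intro i _ _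
          split_ifs
          · exact mb_nonneg _ _
          · exact le_rfl
    _ = ∑ k ∈ Finset.range n, mb u (k + 1) := by
        rw [Finset.sum_range_add]
        rw [Finset.sum_eq_zero, zero_add]
        · apply Finset.sum_congr rfl
          intro k _
          rw [if_pos (by omega)]
          congr 1
          omega
        · intro i hi
          rw [Finset.mem_range] at hi
          rw [if_neg (by omega)]

lemma mb_dn {n : ℕ} (r : Fin n) (u : ℝ) (hu : 0 ≤ u) :
    ∑ j : Fin n, (if j < r then mb u ((r : ℕ) - (j : ℕ)) else 0) ≤ 2 * (u + 1) := by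
  have h1 : ∑ j : Fin n, (if j < r then mb u ((r : ℕ) - (j : ℕ)) else 0) =
      ∑ j : Fin n, (if r.rev < j then mb u ((j : ℕ) - (r.rev : ℕ)) else 0) := by
    rw [← Equiv.sum_comp Fin.revPerm]
    apply Finset.sum_congr rfl
    intro j _
    simp only [Fin.revPerm_apply, Fin.rev_lt_iff]
    by_cases h : r.rev < j
    · rw [if_pos h, if_pos h]
      congr 1
      rw [Fin.val_rev, Fin.val_rev]
      have := r.2
      have := j.2
      omega
    · rw [if_neg h, if_neg h]
  rw [h1]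
  exact mb_up r.rev u hu

variable {Q : Type} [Fintype Q] [PartialOrder Q]

lemma conf_prob_up (σ : Q ≃ Fin (Fintype.card Q)) (z x : Q) (u : ℝ) :
    (gl (Fintype.card Q)).real (conf σ ⁻¹' {S | x ≠ z ∧ 0 ≤ D x z S ∧ D x z S ≤ u}) ≤
      (if σ z < σ x then mb u ((σ x : ℕ) - (σ z : ℕ)) else 0) := by
  split_ifs with h
  · apply le_min
    · exact measureReal_le_one
    · have h1 := gs_le_exp (Finset.Ico (σ z) (σ x)) u
      rw [Fin.card_Ico] at h1
      refine le_trans (measureReal_mono ?_) h1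
      intro g hg
      have hg2 : D x z (conf σ g) ≤ u := hg.2.2
      rw [D_conf_of_le σ g h.le] at hg2
      exact hg2
  · apply le_of_eq
    rw [measureReal_eq_zero_iff]
    have h2 : ∀ᵐ g ∂(gl (Fintype.card Q)),
        ¬ (x ≠ z ∧ 0 ≤ D x z (conf σ g) ∧ D x z (conf σ g) ≤ u) := by
      filter_upwards [ae_gap_pos (Fintype.card Q)] with g hg
      rintro ⟨hne, h0, _⟩
      have hlt : σ x < σ z := lt_of_le_of_ne (not_lt.1 h) (σ.injective.ne hne)
      have := conf_lt_of_lt σ hg hlt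
      unfold D at h0
      linarith
    rw [ae_iff] at h2
    simp only [not_not] at h2
    exact h2

lemma conf_prob_dn (σ : Q ≃ Fin (Fintype.card Q)) (z x : Q) (u : ℝ) :
    (gl (Fintype.card Q)).real (conf σ ⁻¹' {S | x ≠ z ∧ 0 ≤ D z x S ∧ D z x S ≤ u}) ≤
      (if σ x < σ z then mb u ((σ z : ℕ) - (σ x : ℕ)) else 0) := by
  have h := conf_prob_up σ x z u
  refine le_trans (measureReal_mono ?_) h
  intro g hg
  exact ⟨hg.1.symm, hg.2.1, hg.2.2⟩

end counting

theorem ks_cnt_up (z : Q) (u : ℝ) (hu : 0 ≤ u) :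
    ∑ x : Q, (ks Q).real {S | x ≠ z ∧ 0 ≤ D x z S ∧ D x z S ≤ u} ≤ 2 * (u + 1) := by
  have hm : ∀ x : Q, MeasurableSet {S : Q → ℝ | x ≠ z ∧ 0 ≤ D x z S ∧ D x z S ≤ u} := by
    intro x
    apply MeasurableSet.inter (MeasurableSet.const _)
    exact (measurableSet_le measurable_const (measD x z)).inter
      (measurableSet_le (measD x z) measurable_const)
  simp_rw [fun x => ks_real (hm x)]
  rw [← Finset.mul_sum, Finset.sum_comm]
  apply avg_le
  intro σ
  calc ∑ x : Q, (gl (Fintype.card Q)).real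
        (conf σ.1 ⁻¹' {S | x ≠ z ∧ 0 ≤ D x z S ∧ D x z S ≤ u})
      ≤ ∑ x : Q, (if σ.1 z < σ.1 x then mb u ((σ.1 x : ℕ) - (σ.1 z : ℕ)) else 0) :=
        Finset.sum_le_sum fun x _ => conf_prob_up σ.1 z x u
    _ = ∑ j : Fin (Fintype.card Q), (if σ.1 z < j then mb u ((j : ℕ) - (σ.1 z : ℕ)) else 0) :=
        Equiv.sum_comp σ.1 (fun j => if σ.1 z < j then mb u ((j : ℕ) - (σ.1 z : ℕ)) else 0)
    _ ≤ 2 * (u + 1) := mb_up _ u hu

theorem ks_cnt_dn (z : Q) (u : ℝ) (hu : 0 ≤ u) :
    ∑ x : Q, (ks Q).real {S | x ≠ z ∧ 0 ≤ D z x S ∧ D z x S ≤ u} ≤ 2 * (u + 1) := by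
  have hm : ∀ x : Q, MeasurableSet {S : Q → ℝ | x ≠ z ∧ 0 ≤ D z x S ∧ D z x S ≤ u} := by
    intro x
    apply MeasurableSet.inter (MeasurableSet.const _)
    exact (measurableSet_le measurable_const (measD z x)).inter
      (measurableSet_le (measD z x) measurable_const)
  simp_rw [fun x => ks_real (hm x)]
  rw [← Finset.mul_sum, Finset.sum_comm]
  apply avg_le
  intro σ
  calc ∑ x : Q, (gl (Fintype.card Q)).real
        (conf σ.1 ⁻¹' {S | x ≠ z ∧ 0 ≤ D z x S ∧ D z x S ≤ u})
      ≤ ∑ x : Q, (if σ.1 x < σ.1 z then mb u ((σ.1 z : ℕ) - (σ.1 x : ℕ)) else 0) :=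
        Finset.sum_le_sum fun x _ => conf_prob_dn σ.1 z x u
    _ = ∑ j : Fin (Fintype.card Q), (if j < σ.1 z then mb u ((σ.1 z : ℕ) - (j : ℕ)) else 0) :=
        Equiv.sum_comp σ.1 (fun j => if j < σ.1 z then mb u ((σ.1 z : ℕ) - (j : ℕ)) else 0)
    _ ≤ 2 * (u + 1) := mb_dn _ u hu


section deep

variable {Q : Type} [Fintype Q]

lemma cnt_eq (z : Q) (p : ℝ → Prop) [DecidablePred p] [DecidableEq Q] (S : Q → ℝ) :
    cnt z p S = (Finset.univ.filter (fun x : Q => x ≠ z ∧ p (D x z S))).card := by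
  unfold cnt
  congr!

lemma measurable_cnt (z : Q) (p : ℝ → Prop) (hp : MeasurableSet {t | p t}) :
    Measurable (fun S : Q → ℝ => (cnt z p S : ℝ)) := by
  classical
  simp_rw [cnt_eq, Finset.card_filter]
  push_cast
  apply Finset.measurable_fun_sum
  intro x _
  apply Measurable.ite _ measurable_const measurable_const
  exact (MeasurableSet.const (x ≠ z)).inter (measD x z hp)

/-- if at least `j` elements are in the window `[0,u]` after `z` then the `j`-th is -/
lemma cnt_upper {n : ℕ} (σ : Q ≃ Fin n) (S : Q → ℝ) (hS : ∀ x y, σ x < σ y → S x < S y)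
    (z x : Q) (u : ℝ) (j : ℕ) (hj : 1 ≤ j) (hx : (σ x : ℕ) = (σ z : ℕ) + j)
    (hc : j ≤ cnt z (fun t => 0 ≤ t ∧ t ≤ u) S) : D x z S ≤ u := by
  classical
  by_contra hcon
  rw [not_le] at hcon
  rw [cnt_eq] at hc
  have hsub : (Finset.univ.filter (fun w : Q => w ≠ z ∧ (0 ≤ D w z S ∧ D w z S ≤ u))).map
      σ.toEmbedding ⊆ Finset.Ioo (σ z) (σ x) := by
    intro i hi
    rw [Finset.mem_map] at hi
    obtain ⟨w, hw, rfl⟩ := hi
    simp only [Finset.mem_filter, Finset.mem_univ, true_and] at hw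
    obtain ⟨hwz, h0, hu⟩ := hw
    have hne : σ w ≠ σ z := σ.injective.ne hwz
    rw [Finset.mem_Ioo]
    constructor
    · by_contra h
      have h1 : σ w < σ z := lt_of_le_of_ne (not_lt.1 h) hne
      have := hS _ _ h1
      unfold D at h0
      linarith
    · by_contra h
      have h1 : σ x ≤ σ w := not_lt.1 h
      have h2 : S x ≤ S w := by
        rcases h1.lt_or_eq with h3 | h3
        · exact (hS _ _ h3).le
        · rw [σ.injective h3]
      unfold D at hu hcon
      linarith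
  have h1 := Finset.card_le_card hsub
  rw [Finset.card_map, Fin.card_Ioo] at h1
  omega

lemma cnt_lower {n : ℕ} (σ : Q ≃ Fin n) (S : Q → ℝ) (hS : ∀ x y, σ x < σ y → S x < S y)
    (z x : Q) (u : ℝ) (j : ℕ) (hx : (σ x : ℕ) = (σ z : ℕ) + j)
    (hu : D x z S < u) : j ≤ cnt z (fun t => 0 < t ∧ t < u) S := by
  classical
  rw [cnt_eq]
  have hsub : Finset.Ioc (σ z) (σ x) ⊆
      (Finset.univ.filter (fun w : Q => w ≠ z ∧ (0 < D w z S ∧ D w z S < u))).map
      σ.toEmbedding := by
    intro i hi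
    rw [Finset.mem_Ioc] at hi
    rw [Finset.mem_map]
    refine ⟨σ.symm i, ?_, by simp⟩
    simp only [Finset.mem_filter, Finset.mem_univ, true_and]
    have hi1 : σ z < σ (σ.symm i) := by simpa using hi.1
    have hi2 : σ (σ.symm i) ≤ σ x := by simpa using hi.2
    refine ⟨?_, ?_, ?_⟩
    · intro h
      rw [h] at hi1
      exact lt_irrefl _ hi1
    · have := hS _ _ hi1
      unfold D
      linarith
    · have h2 : S (σ.symm i) ≤ S x := by
        rcases hi2.lt_or_eq with h3 | h3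
        · exact (hS _ _ h3).le
        · rw [σ.injective h3]
      unfold D at hu ⊢
      linarith
  have h1 := Finset.card_le_card hsub
  rw [Finset.card_map, Fin.card_Ioc] at h1
  omega

lemma cnt_neg (z : Q) (p : ℝ → Prop) (S : Q → ℝ) :
    cnt z p (-S) = cnt z (fun t => p (-t)) S := by
  classical
  rw [cnt_eq, cnt_eq]
  congr 1
  ext x
  have : D x z (-S) = -D x z S := by
    unfold D
    simp only [Pi.neg_apply]
    ring
  simp only [Finset.mem_filter, Finset.mem_univ, true_and, this]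

lemma cnt_congr (z : Q) (p q : ℝ → Prop) (h : ∀ t, p t ↔ q t) (S : Q → ℝ) :
    cnt z p S = cnt z q S := by
  have : p = q := by
    funext t
    exact propext (h t)
  rw [this]

lemma cheb_le (j : ℕ) (u l : ℝ) (hu : 0 ≤ u) (hl : 2 ≤ l) (hj : u + l < j) (hj2 : (j : ℝ) ≤ u + l + 1) :
    (j : ℝ) / (j - u) ^ 2 ≤ 8 * (u + l) / l ^ 2 := by
  have h1 : l ^ 2 ≤ (j - u) ^ 2 := pow_le_pow_left₀ (by linarith) (by linarith) 2
  calc (j : ℝ) / (j - u) ^ 2 ≤ (8 * (u + l)) / l ^ 2 :=
    div_le_div₀ (by linarith) (by linarith) (by positivity) h1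

lemma cheb_ge (j : ℕ) (u l : ℝ) (hu : 0 ≤ u) (hl : 2 ≤ l) (hj2 : (j : ℝ) < u - l + 1) :
    (j : ℝ) / (u - j) ^ 2 ≤ 8 * (u + l) / l ^ 2 := by
  have h1 : (l / 2) ^ 2 ≤ (u - j) ^ 2 := pow_le_pow_left₀ (by linarith) (by linarith) 2
  calc (j : ℝ) / (u - j) ^ 2 ≤ (u + l) / (l / 2) ^ 2 :=
        div_le_div₀ (by linarith) (by linarith) (by positivity) h1
    _ = 4 * (u + l) / l ^ 2 := by
      field_simp
      ring
    _ ≤ 8 * (u + l) / l ^ 2 := by
      apply div_le_div_of_nonneg_right _ (by positivity)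
      linarith

end deep

open Classical in
theorem ks_deep (z : Q) (k : ℕ) (h1 : k ≤ (Finset.univ.filter (fun x : Q => z < x)).card)
    (h2 : k ≤ (Finset.univ.filter (fun x : Q => x < z)).card) : Deep (ks Q) z ((k : ℝ) - 1) := by
  -- elements above
  have habove : ∀ (σ : LinExt Q) (j : ℕ), j ≤ k → (σ.1 z : ℕ) + j < Fintype.card Q := by
    intro σ j hj
    have hsub : (Finset.univ.filter (fun x : Q => z < x)).map σ.1.toEmbedding ⊆
        Finset.Ioi (σ.1 z) := by
      intro i hi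
      rw [Finset.mem_map] at hi
      obtain ⟨w, hw, rfl⟩ := hi
      simp only [Finset.mem_filter, Finset.mem_univ, true_and] at hw
      rw [Finset.mem_Ioi]
      exact σ.2 hw
    have h3 := Finset.card_le_card hsub
    rw [Finset.card_map, Fin.card_Ioi] at h3
    have := (σ.1 z).2
    omega
  have hbelow : ∀ (σ : LinExt Q) (j : ℕ), j ≤ k → j ≤ (σ.1 z : ℕ) := by
    intro σ j hj
    have hsub : (Finset.univ.filter (fun x : Q => x < z)).map σ.1.toEmbedding ⊆
        Finset.Iio (σ.1 z) := by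
      intro i hi
      rw [Finset.mem_map] at hi
      obtain ⟨w, hw, rfl⟩ := hi
      simp only [Finset.mem_filter, Finset.mem_univ, true_and] at hw
      rw [Finset.mem_Iio]
      exact σ.2 hw
    have h3 := Finset.card_le_card hsub
    rw [Finset.card_map, Fin.card_Iio] at h3
    omega
  have hup : ∀ (σ : LinExt Q) (j : ℕ), j ≤ k → ∃ x : Q, (σ.1 x : ℕ) = (σ.1 z : ℕ) + j := by
    intro σ j hj
    exact ⟨σ.1.symm ⟨(σ.1 z : ℕ) + j, habove σ j hj⟩, by simp⟩
  have hdn : ∀ (σ : LinExt Q) (j : ℕ), j ≤ k → ∃ x : Q, (σ.1 z : ℕ) = (σ.1 x : ℕ) + j := by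
    intro σ j hj
    have h3 := hbelow σ j hj
    refine ⟨σ.1.symm ⟨(σ.1 z : ℕ) - j, by have := (σ.1 z).2; omega⟩, ?_⟩
    simp only [Equiv.apply_symm_apply]
    omega
  -- reduction to one linear extension
  have hred : ∀ (p : ℝ → Prop) (hp : MeasurableSet {t | p t}) (B : Set ℝ) (hB : MeasurableSet B)
      (c : ℝ), (∀ σ : LinExt Q, ∃ E : Set (Fin (Fintype.card Q) → ℝ),
        (∀ g, (∀ i, 0 < g i) → (cnt z p (conf σ.1 g) : ℝ) ∈ B → g ∈ E) ∧
        (gl (Fintype.card Q)).real E ≤ c) →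
      (ks Q).real {S | (cnt z p S : ℝ) ∈ B} ≤ c := by
    intro p hp B hB c h
    have hm : MeasurableSet {S : Q → ℝ | (cnt z p S : ℝ) ∈ B} := measurable_cnt z p hp hB
    rw [ks_real hm]
    apply avg_le
    intro σ
    obtain ⟨E, hE1, hE2⟩ := h σ
    refine le_trans ?_ hE2
    rw [Measure.real, Measure.real]
    apply ENNReal.toReal_mono (measure_ne_top _ _)
    apply measure_mono_ae
    filter_upwards [ae_gap_pos (Fintype.card Q)] with g hg hg2
    exact hE1 g hg hg2
  have hrev : ∀ (σ : LinExt Q) (g : Fin (Fintype.card Q) → ℝ), (∀ i, 0 < g i) → ∀ x y,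
      (σ.1.trans Fin.revPerm) x < (σ.1.trans Fin.revPerm) y →
      (-(conf σ.1 g)) x < (-(conf σ.1 g)) y := by
    intro σ g hg x y hxy
    simp only [Equiv.trans_apply, Fin.revPerm_apply, Fin.rev_lt_rev] at hxy
    have := conf_lt_of_lt σ.1 hg hxy
    simp only [Pi.neg_apply]
    linarith
  constructor
  · -- up_le
    intro u l hu hl hul
    apply hred (fun t => 0 ≤ t ∧ t ≤ u) measurableSet_Icc (Ioi (u + l)) measurableSet_Ioi
    intro σ
    set j := ⌊u + l⌋₊ + 1 with hjdef
    have hj1 : u + l < j := by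
      rw [hjdef]; push_cast; exact Nat.lt_floor_add_one _
    have hj2 : (j : ℝ) ≤ u + l + 1 := by
      rw [hjdef]; push_cast
      have := Nat.floor_le (show 0 ≤ u + l by linarith)
      linarith
    have hjk : j ≤ k := by
      have : (j : ℝ) ≤ k := by linarith
      exact_mod_cast this
    obtain ⟨x, hx⟩ := hup σ j hjk
    have hle : σ.1 z ≤ σ.1 x := by
      rw [Fin.le_def]; omega
    refine ⟨{g | ∑ i ∈ Finset.Ico (σ.1 z) (σ.1 x), g i ≤ u}, ?_, ?_⟩
    · intro g hg hc
      have hc2 : u + l < (cnt z (fun t => 0 ≤ t ∧ t ≤ u) (conf σ.1 g) : ℝ) := hc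
      have hc3 : j ≤ cnt z (fun t => 0 ≤ t ∧ t ≤ u) (conf σ.1 g) := by
        rw [hjdef]
        exact Nat.succ_le_of_lt ((Nat.floor_lt (by linarith)).2 hc2)
      have := cnt_upper σ.1 (conf σ.1 g) (fun a b hab => conf_lt_of_lt σ.1 hg hab) z x u j
        (by omega) hx hc3
      rw [D_conf_of_le σ.1 g hle] at this
      exact this
    · have hcard : (Finset.Ico (σ.1 z) (σ.1 x)).card = j := by
        rw [Fin.card_Ico]; omega
      have h3 := gs_le (Finset.Ico (σ.1 z) (σ.1 x)) u (by rw [hcard]; linarith)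
      rw [hcard] at h3
      exact h3.trans (cheb_le j u l hu hl hj1 hj2)
  · -- up_ge
    intro u l hu hl hul
    apply hred (fun t => 0 < t ∧ t < u) measurableSet_Ioo (Iio (u - l)) measurableSet_Iio
    intro σ
    by_cases hneg : u - l ≤ 0
    · refine ⟨∅, ?_, ?_⟩
      · intro g _ hc
        have hc2 : (cnt z (fun t => 0 < t ∧ t < u) (conf σ.1 g) : ℝ) < u - l := hc
        have : (0 : ℝ) ≤ (cnt z (fun t => 0 < t ∧ t < u) (conf σ.1 g) : ℝ) := Nat.cast_nonneg _
        linarith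
      · simp only [measureReal_empty]
        positivity
    · rw [not_le] at hneg
      set j := ⌈u - l⌉₊ with hjdef
      have hj1 : u - l ≤ j := Nat.le_ceil _
      have hj2 : (j : ℝ) < u - l + 1 := Nat.ceil_lt_add_one hneg.le
      have hjk : j ≤ k := by
        have : (j : ℝ) ≤ k := by linarith
        exact_mod_cast this
      obtain ⟨x, hx⟩ := hup σ j hjk
      have hle : σ.1 z ≤ σ.1 x := by
        rw [Fin.le_def]; omega
      refine ⟨{g | u ≤ ∑ i ∈ Finset.Ico (σ.1 z) (σ.1 x), g i}, ?_, ?_⟩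
      · intro g hg hc
        have hc2 : (cnt z (fun t => 0 < t ∧ t < u) (conf σ.1 g) : ℝ) < u - l := hc
        by_contra hcon
        rw [mem_setOf_eq, not_le, ← D_conf_of_le σ.1 g hle] at hcon
        have := cnt_lower σ.1 (conf σ.1 g) (fun a b hab => conf_lt_of_lt σ.1 hg hab) z x u j hx hcon
        have h4 : (j : ℝ) ≤ (cnt z (fun t => 0 < t ∧ t < u) (conf σ.1 g) : ℝ) := by
          exact_mod_cast this
        linarith
      · have hcard : (Finset.Ico (σ.1 z) (σ.1 x)).card = j := by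
          rw [Fin.card_Ico]; omega
        have h3 := gs_ge (Finset.Ico (σ.1 z) (σ.1 x)) u (by rw [hcard]; linarith)
        rw [hcard] at h3
        exact h3.trans (cheb_ge j u l hu hl hj2)
  · -- dn_le
    intro u l hu hl hul
    apply hred (fun t => -u ≤ t ∧ t ≤ 0) measurableSet_Icc (Ioi (u + l)) measurableSet_Ioi
    intro σ
    set j := ⌊u + l⌋₊ + 1 with hjdef
    have hj1 : u + l < j := by
      rw [hjdef]; push_cast; exact Nat.lt_floor_add_one _
    have hj2 : (j : ℝ) ≤ u + l + 1 := by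
      rw [hjdef]; push_cast
      have := Nat.floor_le (show 0 ≤ u + l by linarith)
      linarith
    have hjk : j ≤ k := by
      have : (j : ℝ) ≤ k := by linarith
      exact_mod_cast this
    obtain ⟨x, hx⟩ := hdn σ j hjk
    have hle : σ.1 x ≤ σ.1 z := by
      rw [Fin.le_def]; omega
    refine ⟨{g | ∑ i ∈ Finset.Ico (σ.1 x) (σ.1 z), g i ≤ u}, ?_, ?_⟩
    · intro g hg hc
      have hc2 : u + l < (cnt z (fun t => -u ≤ t ∧ t ≤ 0) (conf σ.1 g) : ℝ) := hc
      have hc3 : j ≤ cnt z (fun t => -u ≤ t ∧ t ≤ 0) (conf σ.1 g) := by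
        rw [hjdef]
        exact Nat.succ_le_of_lt ((Nat.floor_lt (by linarith)).2 hc2)
      have hc4 : j ≤ cnt z (fun t => 0 ≤ t ∧ t ≤ u) (-(conf σ.1 g)) := by
        rw [cnt_neg, cnt_congr z _ (fun t => -u ≤ t ∧ t ≤ 0)]
        · exact hc3
        · intro t
          constructor
          · rintro ⟨ha, hb⟩
            exact ⟨by linarith, by linarith⟩
          · rintro ⟨ha, hb⟩
            exact ⟨by linarith, by linarith⟩
      have := cnt_upper (σ.1.trans Fin.revPerm) (-(conf σ.1 g)) (hrev σ g hg) z x u j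
        (by omega) (by
          simp only [Equiv.trans_apply, Fin.revPerm_apply, Fin.val_rev]
          have := (σ.1 z).2
          omega) hc4
      have h5 : D x z (-(conf σ.1 g)) = D z x (conf σ.1 g) := by
        unfold D
        simp only [Pi.neg_apply]
        ring
      rw [h5, D_conf_of_le σ.1 g hle] at this
      exact this
    · have hcard : (Finset.Ico (σ.1 x) (σ.1 z)).card = j := by
        rw [Fin.card_Ico]; omega
      have h3 := gs_le (Finset.Ico (σ.1 x) (σ.1 z)) u (by rw [hcard]; linarith)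
      rw [hcard] at h3
      exact h3.trans (cheb_le j u l hu hl hj1 hj2)
  · -- dn_ge
    intro u l hu hl hul
    apply hred (fun t => -u < t ∧ t < 0) measurableSet_Ioo (Iio (u - l)) measurableSet_Iio
    intro σ
    by_cases hneg : u - l ≤ 0
    · refine ⟨∅, ?_, ?_⟩
      · intro g _ hc
        have hc2 : (cnt z (fun t => -u < t ∧ t < 0) (conf σ.1 g) : ℝ) < u - l := hc
        have : (0 : ℝ) ≤ (cnt z (fun t => -u < t ∧ t < 0) (conf σ.1 g) : ℝ) := Nat.cast_nonneg _
        linarith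
      · simp only [measureReal_empty]
        positivity
    · rw [not_le] at hneg
      set j := ⌈u - l⌉₊ with hjdef
      have hj1 : u - l ≤ j := Nat.le_ceil _
      have hj2 : (j : ℝ) < u - l + 1 := Nat.ceil_lt_add_one hneg.le
      have hjk : j ≤ k := by
        have : (j : ℝ) ≤ k := by linarith
        exact_mod_cast this
      obtain ⟨x, hx⟩ := hdn σ j hjk
      have hle : σ.1 x ≤ σ.1 z := by
        rw [Fin.le_def]; omega
      refine ⟨{g | u ≤ ∑ i ∈ Finset.Ico (σ.1 x) (σ.1 z), g i}, ?_, ?_⟩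
      · intro g hg hc
        have hc2 : (cnt z (fun t => -u < t ∧ t < 0) (conf σ.1 g) : ℝ) < u - l := hc
        by_contra hcon
        rw [mem_setOf_eq, not_le, ← D_conf_of_le σ.1 g hle] at hcon
        have h5 : D x z (-(conf σ.1 g)) = D z x (conf σ.1 g) := by
          unfold D
          simp only [Pi.neg_apply]
          ring
        rw [← h5] at hcon
        have := cnt_lower (σ.1.trans Fin.revPerm) (-(conf σ.1 g)) (hrev σ g hg) z x u j (by
          simp only [Equiv.trans_apply, Fin.revPerm_apply, Fin.val_rev]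
          have := (σ.1 z).2
          omega) hcon
        rw [cnt_neg, cnt_congr z _ (fun t => -u < t ∧ t < 0)] at this
        · have h4 : (j : ℝ) ≤ (cnt z (fun t => -u < t ∧ t < 0) (conf σ.1 g) : ℝ) := by
            exact_mod_cast this
          linarith
        · intro t
          constructor
          · rintro ⟨ha, hb⟩
            exact ⟨by linarith, by linarith⟩
          · rintro ⟨ha, hb⟩
            exact ⟨by linarith, by linarith⟩
      · have hcard : (Finset.Ico (σ.1 x) (σ.1 z)).card = j := by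
          rw [Fin.card_Ico]; omega
        have h3 := gs_ge (Finset.Ico (σ.1 x) (σ.1 z)) u (by rw [hcard]; linarith)
        rw [hcard] at h3
        exact h3.trans (cheb_ge j u l hu hl hj2)

end KS
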