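import Pool.Agent.Lib.MP_c534e4_co.KsBasic
import Pool.Agent.Lib.MP_c534e4_co.KsCounts
import Pool.Agent.Lib.MP_c534e4_co.H50.FourFun
import Pool.Agent.Lib.MP_c534e4_co.H50.Trans

/-! Module H (owner helper50): four functions theorem for the concrete model, FKG, transformations. -/

set_option autoImplicit false

namespace KS

open MeasureTheory Set ProbabilityTheory
open scoped ENNReal

variable {Q : Type} [Fintype Q] [PartialOrder Q] [BoundedOrder Q]

theorem ks_fft (z : Q) (c c' : ℝ) (hc : c ≤ c') (f₁ f₂ f₃ f₄ : (Q → ℝ) → ℝ≥0∞)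
    (h₁ : Measurable f₁) (h₂ : Measurable f₂) (h₃ : Measurable f₃) (h₄ : Measurable f₄)
    (h : ∀ S T, S z = c → T z = c' → f₁ S * f₂ T ≤ f₃ (S ⊓ T) * f₄ (S ⊔ T)) :
    (∫⁻ S, f₁ (pin z c S) ∂(ks Q)) * (∫⁻ S, f₂ (pin z c' S) ∂(ks Q)) ≤
    (∫⁻ S, f₃ (pin z c S) ∂(ks Q)) * (∫⁻ S, f₄ (pin z c' S) ∂(ks Q)) := by
  classical
  rw [ks_pin_lintegral z c f₁ h₁, ks_pin_lintegral z c' f₂ h₂, ks_pin_lintegral z c f₃ h₃,
    ks_pin_lintegral z c' f₄ h₄]
  have hw := measurable_wO (Q := Q)
  have m : ∀ (f : (Q → ℝ) → ℝ≥0∞) (c : ℝ), Measurable f →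
      Measurable fun T : {x : Q // x ≠ z} → ℝ => f (ext z c T) * wO (ext z c T) :=
    fun f c hf => (hf.comp (measurable_ext z c)).mul (hw.comp (measurable_ext z c))
  have key := Pool.MP_c534e4_co.H50.four_functions_volume (ι := {x : Q // x ≠ z})
    (fun T => f₁ (ext z c T) * wO (ext z c T)) (fun T => f₂ (ext z c' T) * wO (ext z c' T))
    (fun T => f₄ (ext z c' T) * wO (ext z c' T)) (fun T => f₃ (ext z c T) * wO (ext z c T))
    (m f₁ c h₁) (m f₂ c' h₂) (m f₄ c' h₄) (m f₃ c h₃) (fun x y => by
      simp only [ext_sup z hc, ext_inf z hc]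
      calc f₁ (ext z c x) * wO (ext z c x) * (f₂ (ext z c' y) * wO (ext z c' y))
          = (f₁ (ext z c x) * f₂ (ext z c' y)) * (wO (ext z c x) * wO (ext z c' y)) := by ring
        _ ≤ (f₃ (ext z c x ⊓ ext z c' y) * f₄ (ext z c x ⊔ ext z c' y)) *
            (wO (ext z c x ⊓ ext z c' y) * wO (ext z c x ⊔ ext z c' y)) :=
          mul_le_mul' (h _ _ (by simp) (by simp)) (wO_mul_le _ _)
        _ = _ := by ring)
  set K := (Fintype.card (LinExt Q) : ℝ≥0∞)⁻¹
  calc _ = (K * K) * ((∫⁻ T : {x : Q // x ≠ z} → ℝ, f₁ (ext z c T) * wO (ext z c T)) *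
        (∫⁻ T : {x : Q // x ≠ z} → ℝ, f₂ (ext z c' T) * wO (ext z c' T))) := by ring
    _ ≤ (K * K) * ((∫⁻ T : {x : Q // x ≠ z} → ℝ, f₄ (ext z c' T) * wO (ext z c' T)) *
        (∫⁻ T : {x : Q // x ≠ z} → ℝ, f₃ (ext z c T) * wO (ext z c T))) :=
      mul_le_mul' le_rfl key
    _ = _ := by ring

theorem abs_max_neg_le (a N : ℝ) (hN : 0 ≤ N) : |max a (-N)| ≤ |a| := by
  rcases le_total a (-N) with h | h
  · rw [max_eq_right h, abs_neg, abs_of_nonneg hN]
    exact le_trans (by linarith) (neg_le_abs a)
  · rw [max_eq_left h]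

/-- FKG for two truncated coordinates. -/
theorem ks_fkg_trunc (x y w : Q) (N : ℝ) (hN : 0 ≤ N) :
    (∫ S, max (D x y S) (-N) ∂(ks Q)) * (∫ S, max (D w y S) (-N) ∂(ks Q)) ≤
      ∫ S, max (D x y S) (-N) * max (D w y S) (-N) ∂(ks Q) := by
  have mD : ∀ a b : Q, Measurable (D a b : (Q → ℝ) → ℝ) := fun a b => by
    unfold D; fun_prop
  have jL : ∀ a : Q, MemLp (fun S => max (D a y S) (-N)) 2 (ks Q) := fun a =>
    (ks_l2 a y).mono ((mD a y).max measurable_const).aestronglyMeasurable
      (Filter.Eventually.of_forall fun S => by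
        simpa [Real.norm_eq_abs] using abs_max_neg_le (D a y S) N hN)
  have jx := jL x
  have jw := jL w
  have ix : Integrable (fun S => max (D x y S) (-N)) (ks Q) := jx.integrable (by norm_num)
  have iw : Integrable (fun S => max (D w y S) (-N)) (ks Q) := jw.integrable (by norm_num)
  have ixw : Integrable (fun S => max (D x y S) (-N) * max (D w y S) (-N)) (ks Q) :=
    jx.integrable_mul jw
  set a : (Q → ℝ) → ℝ := fun S => max (D x y S) (-N) + N with ha
  set b : (Q → ℝ) → ℝ := fun S => max (D w y S) (-N) + N with hb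
  have ia : Integrable a (ks Q) := ix.add (integrable_const N)
  have ib : Integrable b (ks Q) := iw.add (integrable_const N)
  have iab : Integrable (fun S => a S * b S) (ks Q) :=
    (jx.add (memLp_const N)).integrable_mul (jw.add (memLp_const N))
  have a0 : ∀ S, 0 ≤ a S := fun S => by
    have := le_max_right (D x y S) (-N); simp only [ha]; linarith
  have b0 : ∀ S, 0 ≤ b S := fun S => by
    have := le_max_right (D w y S) (-N); simp only [hb]; linarith
  have key := ks_fft (Q := Q) y 0 0 le_rfl (fun S => ENNReal.ofReal (S x + N))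
    (fun S => ENNReal.ofReal (S w + N)) (fun _ => 1)
    (fun S => ENNReal.ofReal (S x + N) * ENNReal.ofReal (S w + N))
    (by fun_prop) (by fun_prop) measurable_const (by fun_prop)
    (fun S T _ _ => by
      rw [one_mul]
      refine mul_le_mul' (ENNReal.ofReal_le_ofReal ?_) (ENNReal.ofReal_le_ofReal ?_)
      · have : S x ≤ (S ⊔ T) x := le_sup_left
        linarith
      · have : T w ≤ (S ⊔ T) w := le_sup_right
        linarith)
  have pe : ∀ (v : Q) (S : Q → ℝ), ENNReal.ofReal (pin y 0 S v + N) =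
      ENNReal.ofReal (max (D v y S) (-N) + N) := by
    intro v S
    have e : pin y 0 S v = D v y S := by simp [pin, D]
    rw [e]
    rcases le_total (D v y S) (-N) with h | h
    · rw [max_eq_right h, ENNReal.ofReal_of_nonpos (by linarith)]
      simp
    · rw [max_eq_left h]
  simp only [pe, lintegral_const, measure_univ, one_mul, mul_one] at key
  have key2 : ENNReal.ofReal (∫ S, a S ∂(ks Q)) * ENNReal.ofReal (∫ S, b S ∂(ks Q)) ≤
      ENNReal.ofReal (∫ S, a S * b S ∂(ks Q)) := by
    rw [ofReal_integral_eq_lintegral_ofReal ia (Filter.Eventually.of_forall a0),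
      ofReal_integral_eq_lintegral_ofReal ib (Filter.Eventually.of_forall b0),
      ofReal_integral_eq_lintegral_ofReal iab
        (Filter.Eventually.of_forall fun S => mul_nonneg (a0 S) (b0 S))]
    refine key.trans (le_of_eq ?_)
    refine lintegral_congr fun S => ?_
    rw [ENNReal.ofReal_mul (a0 S)]
  rw [← ENNReal.ofReal_mul (integral_nonneg a0)] at key2
  have key3 := (ENNReal.ofReal_le_ofReal_iff
    (integral_nonneg fun S => mul_nonneg (a0 S) (b0 S))).1 key2
  have e1 : ∫ S, a S ∂(ks Q) = ∫ S, max (D x y S) (-N) ∂(ks Q) + N := by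
    rw [ha, integral_add ix (integrable_const N)]; simp
  have e2 : ∫ S, b S ∂(ks Q) = ∫ S, max (D w y S) (-N) ∂(ks Q) + N := by
    rw [hb, integral_add iw (integrable_const N)]; simp
  have e3 : ∫ S, a S * b S ∂(ks Q) = ∫ S, max (D x y S) (-N) * max (D w y S) (-N) ∂(ks Q)
      + N * ∫ S, max (D x y S) (-N) ∂(ks Q) + N * ∫ S, max (D w y S) (-N) ∂(ks Q) + N * N := by
    have : ∀ S, a S * b S = max (D x y S) (-N) * max (D w y S) (-N)
        + N * max (D x y S) (-N) + N * max (D w y S) (-N) + N * N := fun S => by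
      simp only [ha, hb]; ring
    simp_rw [this]
    have i1 : Integrable (fun S => max (D x y S) (-N) * max (D w y S) (-N)
        + N * max (D x y S) (-N)) (ks Q) := ixw.add (ix.const_mul N)
    have i2 : Integrable (fun S => max (D x y S) (-N) * max (D w y S) (-N)
        + N * max (D x y S) (-N) + N * max (D w y S) (-N)) (ks Q) := i1.add (iw.const_mul N)
    rw [integral_add i2 (integrable_const _), integral_add i1 (iw.const_mul N),
      integral_add ixw (ix.const_mul N), integral_const_mul, integral_const_mul]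
    simp
  rw [e1, e2, e3] at key3
  linarith [key3]

/-- FKG for two coordinates. -/
theorem ks_fkg (x y w : Q) :
    M (ks Q) x y * M (ks Q) w y ≤ ∫ S, D x y S * D w y S ∂(ks Q) := by
  have hx : MemLp (D x y) 2 (ks Q) := ks_l2 x y
  have hw : MemLp (D w y) 2 (ks Q) := ks_l2 w y
  have ix : Integrable (D x y) (ks Q) := hx.integrable (by norm_num)
  have iw : Integrable (D w y) (ks Q) := hw.integrable (by norm_num)
  have ixw : Integrable (fun S => D x y S * D w y S) (ks Q) := hx.integrable_mul hw
  have mD : ∀ a b : Q, Measurable (D a b : (Q → ℝ) → ℝ) := fun a b => by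
    unfold D; fun_prop
  have lim : ∀ a : ℝ, Filter.Tendsto (fun N : ℕ => max a (-(N : ℝ))) Filter.atTop (nhds a) := by
    intro a
    refine tendsto_const_nhds.congr' ?_
    obtain ⟨n, hn⟩ := exists_nat_ge (-a)
    filter_upwards [Filter.eventually_ge_atTop n] with k hk
    have : (n : ℝ) ≤ k := by exact_mod_cast hk
    rw [max_eq_left (by linarith)]
  have t1 : Filter.Tendsto (fun N : ℕ => ∫ S, max (D x y S) (-(N : ℝ)) ∂(ks Q)) Filter.atTop
      (nhds (∫ S, D x y S ∂(ks Q))) := by
    refine tendsto_integral_of_dominated_convergence (fun S => |D x y S|) (fun N => ?_) ix.abs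
      (fun N => ?_) ?_
    · exact ((mD x y).max measurable_const).aestronglyMeasurable
    · exact Filter.Eventually.of_forall fun S => by
        simpa [Real.norm_eq_abs] using abs_max_neg_le (D x y S) N (Nat.cast_nonneg N)
    · exact Filter.Eventually.of_forall fun S => lim _
  have t2 : Filter.Tendsto (fun N : ℕ => ∫ S, max (D w y S) (-(N : ℝ)) ∂(ks Q)) Filter.atTop
      (nhds (∫ S, D w y S ∂(ks Q))) := by
    refine tendsto_integral_of_dominated_convergence (fun S => |D w y S|) (fun N => ?_) iw.abs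
      (fun N => ?_) ?_
    · exact ((mD w y).max measurable_const).aestronglyMeasurable
    · exact Filter.Eventually.of_forall fun S => by
        simpa [Real.norm_eq_abs] using abs_max_neg_le (D w y S) N (Nat.cast_nonneg N)
    · exact Filter.Eventually.of_forall fun S => lim _
  have t3 : Filter.Tendsto (fun N : ℕ => ∫ S, max (D x y S) (-(N : ℝ)) *
      max (D w y S) (-(N : ℝ)) ∂(ks Q)) Filter.atTop (nhds (∫ S, D x y S * D w y S ∂(ks Q))) := by
    refine tendsto_integral_of_dominated_convergence (fun S => |D x y S * D w y S|) (fun N => ?_)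
      ixw.abs (fun N => ?_) ?_
    · exact (((mD x y).max measurable_const).mul
        ((mD w y).max measurable_const)).aestronglyMeasurable
    · exact Filter.Eventually.of_forall fun S => by
        rw [Real.norm_eq_abs, abs_mul, abs_mul]
        exact mul_le_mul (abs_max_neg_le _ _ (Nat.cast_nonneg N))
          (abs_max_neg_le _ _ (Nat.cast_nonneg N)) (abs_nonneg _) (abs_nonneg _)
    · exact Filter.Eventually.of_forall fun S => (lim _).mul (lim _)
  exact le_of_tendsto_of_tendsto' (t1.mul t2) t3 fun N => ks_fkg_trunc x y w N (Nat.cast_nonneg N)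

theorem ks_V_tri (x y w : Q) : V (ks Q) x w ≤ V (ks Q) x y + V (ks Q) y w := by
  have hx : MemLp (D x y) 2 (ks Q) := ks_l2 x y
  have hw : MemLp (D w y) 2 (ks Q) := ks_l2 w y
  have ix : Integrable (D x y) (ks Q) := hx.integrable (by norm_num)
  have iw : Integrable (D w y) (ks Q) := hw.integrable (by norm_num)
  have ixw : Integrable (fun S => D x y S * D w y S) (ks Q) := hx.integrable_mul hw
  have cov := ks_fkg x y w
  set m := M (ks Q) x y with hm
  set k := M (ks Q) w y with hk
  have ha : MemLp (fun S => D x y S - m) 2 (ks Q) := hx.sub (memLp_const m)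
  have hb : MemLp (fun S => D w y S - k) 2 (ks Q) := hw.sub (memLp_const k)
  have iab : Integrable (fun S => (D x y S - m) * (D w y S - k)) (ks Q) := ha.integrable_mul hb
  have iaa : Integrable (fun S => (D x y S - m) ^ 2) (ks Q) := ha.integrable_sq
  have ibb : Integrable (fun S => (D w y S - k) ^ 2) (ks Q) := hb.integrable_sq
  have eM : M (ks Q) x w = m - k := by
    have : ∀ S : Q → ℝ, D x w S = D x y S - D w y S := fun S => by simp [D]
    rw [M]
    simp_rw [this]
    rw [integral_sub ix iw]
    rfl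
  have eM2 : M (ks Q) y w = -k := by
    have : ∀ S : Q → ℝ, D y w S = - D w y S := fun S => by simp [D]
    rw [M]
    simp_rw [this]
    rw [integral_neg]
    rfl
  have eV1 : V (ks Q) x w = ∫ S, ((D x y S - m) ^ 2 + (D w y S - k) ^ 2
      - 2 * ((D x y S - m) * (D w y S - k))) ∂(ks Q) := by
    rw [V, eM]
    refine integral_congr_ae (Filter.Eventually.of_forall fun S => ?_)
    simp only [D]
    ring
  have eV2 : V (ks Q) y w = ∫ S, (D w y S - k) ^ 2 ∂(ks Q) := by
    rw [V, eM2]
    refine integral_congr_ae (Filter.Eventually.of_forall fun S => ?_)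
    simp only [D]
    ring
  have eV3 : V (ks Q) x y = ∫ S, (D x y S - m) ^ 2 ∂(ks Q) := rfl
  have ec : ∫ S, (D x y S - m) * (D w y S - k) ∂(ks Q)
      = ∫ S, D x y S * D w y S ∂(ks Q) - m * k := by
    have : ∀ S, (D x y S - m) * (D w y S - k)
        = D x y S * D w y S - k * D x y S - m * D w y S + m * k := fun S => by ring
    simp_rw [this]
    have i1 : Integrable (fun S => D x y S * D w y S - k * D x y S) (ks Q) :=
      ixw.sub (ix.const_mul k)
    have i2 : Integrable (fun S => D x y S * D w y S - k * D x y S - m * D w y S) (ks Q) :=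
      i1.sub (iw.const_mul m)
    rw [integral_add i2 (integrable_const _), integral_sub i1 (iw.const_mul m),
      integral_sub ixw (ix.const_mul k), integral_const_mul, integral_const_mul]
    have e1 : ∫ S, D x y S ∂(ks Q) = m := rfl
    have e2 : ∫ S, D w y S ∂(ks Q) = k := rfl
    rw [e1, e2]
    simp
    ring
  have isum : Integrable (fun S => (D x y S - m) ^ 2 + (D w y S - k) ^ 2) (ks Q) := iaa.add ibb
  rw [eV1, eV2, eV3, integral_sub isum (iab.const_mul 2), integral_const_mul, ec,
    integral_add iaa ibb]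
  linarith

omit [BoundedOrder Q] in
theorem ks_pin_set (z : Q) (c : ℝ) (A : Set (Q → ℝ)) (hA : MeasurableSet A) :
    ∫⁻ S, A.indicator 1 (pin z c S) ∂(ks Q) = (ks Q) {S | pin z c S ∈ A} := by
  have hm : MeasurableSet {S : Q → ℝ | pin z c S ∈ A} := measurable_pin' z c hA
  rw [← lintegral_indicator_one hm]
  rfl

theorem isKS_ks : IsKS (ks Q) where
  prob := inferInstance
  l2 := ks_l2
  fft := by
    intro z c c' hc A B C E hA hB hC hE h
    have key := ks_fft (Q := Q) z c c' hc (A.indicator 1) (B.indicator 1) (C.indicator 1)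
      (E.indicator 1) (measurable_one.indicator hA) (measurable_one.indicator hB)
      (measurable_one.indicator hC) (measurable_one.indicator hE) (fun S T hS hT => by
        by_cases hSA : S ∈ A
        swap
        · simp [hSA]
        by_cases hTB : T ∈ B
        swap
        · simp [hTB]
        obtain ⟨h1, h2⟩ := h S hSA T hTB hS hT
        simp [hSA, hTB, h1, h2])
    rw [ks_pin_set z c A hA, ks_pin_set z c' B hB, ks_pin_set z c C hC,
      ks_pin_set z c' E hE] at key
    simp only [Measure.real, ← ENNReal.toReal_mul]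
    exact ENNReal.toReal_mono (by finiteness) key
  V_tri := ks_V_tri
  d_ge := ks_d_ge
  cnt_up := ks_cnt_up
  cnt_dn := ks_cnt_dn

open Classical in
/-- change of variables: the coordinates in `U` are transformed by `ψ`. -/
theorem ks_transform (y : Q) (U : Finset Q) (hy : y ∉ U) (ψ : ℝ → ℝ) (J : ℝ → ℝ≥0∞)
    (hψm : Measurable ψ) (hJ : Measurable J)
    (hψ : (volume.withDensity J).map ψ = volume) (A B : Set (Q → ℝ)) (hA : MeasurableSet A)
    (hB : MeasurableSet B) (κ : ℝ≥0∞)
    (h : ∀ S ∈ A, S y = 0 → StrictMono S →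
      StrictMono (fun x => if x ∈ U then ψ (S x) else S x) ∧
      (fun x => if x ∈ U then ψ (S x) else S x) ∈ B ∧
      (if (⊤ : Q) ∈ U then ψ (S ⊤) else S ⊤) - (if (⊥ : Q) ∈ U then ψ (S ⊥) else S ⊥) ≤ S ⊤ - S ⊥ ∧
      κ ≤ ∏ x ∈ U, J (S x)) :
    κ * (ks Q) {S | pin y 0 S ∈ A} ≤ (ks Q) {S | pin y 0 S ∈ B} := by
  rw [← ks_pin_set y 0 A hA, ← ks_pin_set y 0 B hB,
    ks_pin_lintegral y 0 _ (measurable_one.indicator hA),
    ks_pin_lintegral y 0 _ (measurable_one.indicator hB)]
  set K := (Fintype.card (LinExt Q) : ℝ≥0∞)⁻¹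
  have hw := measurable_wO (Q := Q)
  have mG : Measurable fun T : {x : Q // x ≠ y} → ℝ =>
      B.indicator (1 : (Q → ℝ) → ℝ≥0∞) (ext y 0 T) * wO (ext y 0 T) :=
    ((measurable_one.indicator hB).comp (measurable_ext y 0)).mul (hw.comp (measurable_ext y 0))
  have mF : Measurable fun T : {x : Q // x ≠ y} → ℝ =>
      A.indicator (1 : (Q → ℝ) → ℝ≥0∞) (ext y 0 T) * wO (ext y 0 T) :=
    ((measurable_one.indicator hA).comp (measurable_ext y 0)).mul (hw.comp (measurable_ext y 0))
  have cv := lintegral_coord_change (ι := {x : Q // x ≠ y})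
    (fun i t => if (i : Q) ∈ U then ψ t else t) (fun i t => if (i : Q) ∈ U then J t else 1)
    (fun i => by split_ifs; exacts [hψm, measurable_id])
    (fun i => by split_ifs; exacts [hJ, measurable_const])
    (fun i => by
      by_cases hi : (i : Q) ∈ U
      · simpa [hi] using hψ
      · simp only [hi, if_false]
        have : (volume : Measure ℝ).withDensity (fun _ => 1) = volume := withDensity_one
        rw [this]
        exact Measure.map_id)
    _ mG
  rw [cv, ← mul_assoc, mul_comm κ K, mul_assoc, ← lintegral_const_mul κ mF]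
  refine mul_le_mul' le_rfl (lintegral_mono fun T => ?_)
  simp only
  have eT : ext y 0 (fun i : {x : Q // x ≠ y} => if (i : Q) ∈ U then ψ (T i) else T i)
      = fun x => if x ∈ U then ψ (ext y 0 T x) else ext y 0 T x := by
    funext x
    by_cases hx : x = y
    · subst hx
      simp [hy]
    · rw [ext_of_ne y 0 _ hx, ext_of_ne y 0 _ hx]
  have eP : ∏ i : {x : Q // x ≠ y}, (if (i : Q) ∈ U then J (T i) else 1)
      = ∏ x ∈ U, J (ext y 0 T x) := by
    have h1 := Fintype.prod_eq_mul_prod_subtype_ne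
      (fun x : Q => if x ∈ U then J (ext y 0 T x) else 1) y
    rw [Finset.prod_ite_mem, Finset.univ_inter, if_neg hy, one_mul] at h1
    rw [h1]
    refine Finset.prod_congr rfl fun i _ => ?_
    rw [ext_of_ne y 0 T i.2]
  rw [eT, eP]
  by_cases hTA : ext y 0 T ∈ A
  swap
  · simp [hTA]
  by_cases hTS : StrictMono (ext y 0 T)
  swap
  · simp [wO, hTS]
  obtain ⟨h1, h2, h3, h4⟩ := h _ hTA (by simp) hTS
  rw [Set.indicator_of_mem hTA, Set.indicator_of_mem h2]
  simp only [Pi.one_apply, one_mul]
  rw [mul_comm]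
  refine mul_le_mul' ?_ h4
  rw [wO, wO, if_pos hTS, if_pos h1]
  refine ENNReal.ofReal_le_ofReal (Real.exp_le_exp.2 ?_)
  linarith

end KS
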