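import Mathlib

/-! (7.3) of the blueprint: discretisation (owner helper71). -/

set_option autoImplicit false

namespace KS

open MeasureTheory Set

theorem discretise {Ω : Type} [MeasurableSpace Ω] (P : Measure Ω) [IsProbabilityMeasure P]
    {ι : Type} [Fintype ι] (f : ι → Ω → ℝ) (hf : ∀ i, Measurable (f i)) (r R : ℝ) (hr : 0 < r)
    (hR : 0 ≤ R) (N : ℕ) (hN : 2 * R / r + 1 ≤ N) (E : Set Ω) (hE : MeasurableSet E)
    (hb : ∀ ω ∈ E, ∀ i, |f i ω| ≤ R) :
    ∃ E' ⊆ E, MeasurableSet E' ∧ P.real E / (N : ℝ) ^ (Fintype.card ι) ≤ P.real E' ∧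
      ∀ ω ∈ E', ∀ ω' ∈ E', ∀ i, |f i ω - f i ω'| ≤ r := by
  classical
  have hN1 : (1 : ℝ) ≤ N := by
    have : 0 ≤ 2 * R / r := by positivity
    linarith
  have hN0 : (0 : ℝ) < N := by linarith
  -- the cell of a point
  set c : ι → Ω → ℤ := fun i ω => ⌊(f i ω + R) / r⌋ with hc
  have hcm : ∀ i, Measurable (c i) := fun i =>
    Int.measurable_floor.comp (((hf i).add_const R).div_const r)
  have hc0 : ∀ ω ∈ E, ∀ i, 0 ≤ c i ω := by
    intro ω hω i
    apply Int.floor_nonneg.2
    have := abs_le.1 (hb ω hω i)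
    apply div_nonneg _ hr.le
    linarith [this.1]
  have hc1 : ∀ ω ∈ E, ∀ i, c i ω < N := by
    intro ω hω i
    have h1 : (f i ω + R) / r ≤ 2 * R / r := by
      apply div_le_div_of_nonneg_right _ hr.le
      have := abs_le.1 (hb ω hω i)
      linarith [this.2]
    have h2 : ((c i ω : ℤ) : ℝ) ≤ (f i ω + R) / r := Int.floor_le _
    have h3 : ((c i ω : ℤ) : ℝ) < (N : ℝ) := by linarith
    exact_mod_cast h3
  set A : (ι → Fin N) → Set Ω := fun j => E ∩ ⋂ i, {ω | c i ω = ((j i : ℕ) : ℤ)} with hA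
  have hAm : ∀ j, MeasurableSet (A j) := by
    intro j
    exact hE.inter (MeasurableSet.iInter fun i => (hcm i) (measurableSet_singleton _))
  have hcover : E ⊆ ⋃ j ∈ (Finset.univ : Finset (ι → Fin N)), A j := by
    intro ω hω
    simp only [Finset.mem_univ, Set.iUnion_true, Set.mem_iUnion]
    refine ⟨fun i => ⟨(c i ω).toNat, ?_⟩, hω, ?_⟩
    · have := hc1 ω hω i
      have h0 := hc0 ω hω i
      omega
    · simp only [Set.mem_iInter, Set.mem_ofPred_eq]
      intro i
      have h0 := hc0 ω hω i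
      simp [Int.toNat_of_nonneg h0]
  have hsum : P.real E ≤ ∑ j : ι → Fin N, P.real (A j) := by
    calc P.real E ≤ P.real (⋃ j ∈ (Finset.univ : Finset (ι → Fin N)), A j) :=
          measureReal_mono hcover (measure_ne_top _ _)
      _ ≤ ∑ j : ι → Fin N, P.real (A j) := measureReal_biUnion_finset_le _ _
  have hcard : (Fintype.card (ι → Fin N) : ℝ) = (N : ℝ) ^ (Fintype.card ι) := by
    rw [Fintype.card_fun, Fintype.card_fin]; push_cast; rfl
  obtain ⟨j, hj⟩ : ∃ j : ι → Fin N, P.real E / (N : ℝ) ^ (Fintype.card ι) ≤ P.real (A j) := by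
    by_contra hcon
    push Not at hcon
    have : Nonempty (Fin N) := ⟨⟨0, by exact_mod_cast hN0⟩⟩
    have hlt : ∑ j : ι → Fin N, P.real (A j)
        < ∑ _j : ι → Fin N, P.real E / (N : ℝ) ^ (Fintype.card ι) :=
      Finset.sum_lt_sum_of_nonempty Finset.univ_nonempty fun j _ => hcon j
    rw [Finset.sum_const, nsmul_eq_mul, Finset.card_univ, hcard,
      mul_div_cancel₀ _ (by positivity)] at hlt
    linarith
  refine ⟨A j, Set.inter_subset_left, hAm j, hj, ?_⟩
  intro ω hω ω' hω' i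
  have h1 : c i ω = ((j i : ℕ) : ℤ) := by
    have := hω.2; simp only [Set.mem_iInter, Set.mem_ofPred_eq] at this; exact this i
  have h2 : c i ω' = ((j i : ℕ) : ℤ) := by
    have := hω'.2; simp only [Set.mem_iInter, Set.mem_ofPred_eq] at this; exact this i
  have h3 : |(f i ω + R) / r - (f i ω' + R) / r| < 1 :=
    Int.abs_sub_lt_one_of_floor_eq_floor (h1.trans h2.symm)
  have h4 : (f i ω + R) / r - (f i ω' + R) / r = (f i ω - f i ω') / r := by
    rw [← sub_div]; congr 1; ring
  rw [h4, abs_div, abs_of_pos hr, div_lt_one hr] at h3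
  exact h3.le

end KS
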