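import Pool.Agent.Lib.MP_c534e4_co.SP
import Pool.Agent.Lib.MP_c534e4_co.Basic

/-! Module D1 (owner helper3): doubling property and covering numbers. -/

set_option autoImplicit false

namespace KS

open MeasureTheory Set

section nets

variable {Q : Type} [Fintype Q]

/-- Every finite set contains an `r`-net which is `r`-separated. -/
theorem exists_net (μ : Measure (Q → ℝ)) (F : Finset Q) (r : ℝ) (hr : 0 ≤ r) :
    ∃ G ⊆ F, (∀ x ∈ G, ∀ y ∈ G, x ≠ y → r < d μ x y) ∧ ∀ x ∈ F, ∃ g ∈ G, d μ x g ≤ r := by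
  classical
  induction F using Finset.induction_on with
  | empty => exact ⟨∅, Finset.Subset.refl _, by simp, by simp⟩
  | insert a F ha ih =>
    obtain ⟨G, hGF, hsep, hnet⟩ := ih
    by_cases hc : ∃ g ∈ G, d μ a g ≤ r
    · refine ⟨G, hGF.trans (Finset.subset_insert a F), hsep, ?_⟩
      intro x hx
      rcases Finset.mem_insert.1 hx with h | h
      · subst h; exact hc
      · exact hnet x h
    · push Not at hc
      refine ⟨insert a G, Finset.insert_subset_insert a hGF, ?_, ?_⟩
      · intro x hx y hy hxy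
        rcases Finset.mem_insert.1 hx with h | h
        · subst h
          rcases Finset.mem_insert.1 hy with h' | h'
          · exact absurd h'.symm hxy
          · exact hc y h'
        · rcases Finset.mem_insert.1 hy with h' | h'
          · subst h'
            rw [d_symm]
            exact hc x h
          · exact hsep x h y h' hxy
      · intro x hx
        rcases Finset.mem_insert.1 hx with h | h
        · subst h
          exact ⟨x, Finset.mem_insert_self x G, by rw [d_self]; exact hr⟩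
        · obtain ⟨g, hg, hd⟩ := hnet x h
          exact ⟨g, Finset.mem_insert_of_mem hg, hd⟩

variable {μ : Measure (Q → ℝ)}

/-- tail bound inside a ball -/
theorem IsKS.tail_ball (h : IsKS μ) (x z : Q) (ρ s : ℝ) (_hρ : 0 < ρ) (hx : d μ x z ≤ ρ)
    (hs : 0 ≤ s) :
    μ.real {S | s ≤ |D x z S|} ≤ 4 * Real.exp (-(s / (8 * ρ))) := by
  have := h.prob
  by_cases hxz : x = z
  · subst hxz
    rcases eq_or_lt_of_le hs with h0 | h0
    · have h1 : μ.real {S | s ≤ |D x x S|} ≤ 1 := measureReal_le_one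
      rw [← h0]
      simp only [zero_div, neg_zero, Real.exp_zero, mul_one]
      rw [← h0] at h1
      linarith
    · have h1 : {S : Q → ℝ | s ≤ |D x x S|} = ∅ := by
        ext S
        simp only [Set.mem_ofPred_eq, Set.mem_empty_iff_false, iff_false, not_le, D, sub_self,
          abs_zero]
        exact h0
      rw [h1, measureReal_empty]
      positivity
  · have h1 := h.d_ge x z hxz
    refine (h.tail_d x z s hs).trans ?_
    have h2 : s / (8 * ρ) ≤ s / (8 * d μ x z) := by
      apply div_le_div_of_nonneg_left hs (by linarith) (by linarith)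
    have h3 : Real.exp (-(s / (8 * d μ x z))) ≤ Real.exp (-(s / (8 * ρ))) :=
      Real.exp_le_exp.2 (by linarith)
    linarith

end nets

/-- the cell of a real number in a finite grid -/
noncomputable def cell (a w : ℝ) (K : ℕ) (t : ℝ) : Fin (K + 1) :=
  ⟨min ⌊(t + a) / w⌋₊ K, by omega⟩

theorem cell_mono (a w : ℝ) (K : ℕ) (hw : 0 < w) : Monotone (cell a w K) := by
  intro s t hst
  have h1 : ⌊(s + a) / w⌋₊ ≤ ⌊(t + a) / w⌋₊ := by
    apply Nat.floor_mono
    apply div_le_div_of_nonneg_right _ hw.le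
    linarith
  show min ⌊(s + a) / w⌋₊ K ≤ min ⌊(t + a) / w⌋₊ K
  exact min_le_min h1 le_rfl

theorem measurable_cell (a w : ℝ) (K : ℕ) : Measurable (cell a w K) := by
  have h0 : Measurable (fun t : ℝ => min ⌊(t + a) / w⌋₊ K) := by
    have h1 : Measurable (fun t : ℝ => (t + a) / w) := by fun_prop
    exact (Nat.measurable_floor.comp h1).min measurable_const
  apply measurable_to_countable'
  intro i
  have h2 : (cell a w K) ⁻¹' {i} = (fun t : ℝ => min ⌊(t + a) / w⌋₊ K) ⁻¹' {(i : ℕ)} := by
    ext t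
    simp only [Set.mem_preimage, Set.mem_singleton_iff, cell, Fin.ext_iff]
  rw [h2]
  exact h0 (measurableSet_singleton _)

theorem cell_eq (a w : ℝ) (K : ℕ) (hw : 0 < w) (hK : 2 * a / w ≤ K) (s t : ℝ)
    (hs : |s| < a) (ht : |t| < a) (hst : cell a w K s = cell a w K t) : |s - t| ≤ w := by
  have key : ∀ r : ℝ, |r| < a → 0 ≤ (r + a) / w ∧ ⌊(r + a) / w⌋₊ ≤ K := by
    intro r hr
    have h1 := (abs_lt.1 hr)
    constructor
    · apply div_nonneg _ hw.le
      linarith [h1.1]
    · have h2 : (r + a) / w ≤ K := by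
        refine le_trans ?_ hK
        apply div_le_div_of_nonneg_right _ hw.le
        linarith [h1.2]
      have h3 : ⌊(r + a) / w⌋₊ ≤ ⌊(K : ℝ)⌋₊ := Nat.floor_mono h2
      simpa using h3
  obtain ⟨s0, s1⟩ := key s hs
  obtain ⟨t0, t1⟩ := key t ht
  have h4 : ⌊(s + a) / w⌋₊ = ⌊(t + a) / w⌋₊ := by
    have h5 := congrArg Fin.val hst
    simp only [cell] at h5
    omega
  have a1 := Nat.floor_le s0
  have a2 := Nat.lt_floor_add_one ((s + a) / w)
  have b1 := Nat.floor_le t0
  have b2 := Nat.lt_floor_add_one ((t + a) / w)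
  rw [h4] at a1 a2
  have c1 : |(s + a) / w - (t + a) / w| ≤ 1 := by
    rw [abs_le]
    constructor <;> linarith
  have c2 : (s + a) / w - (t + a) / w = (s - t) / w := by ring
  rw [c2, abs_div, abs_of_pos hw, div_le_one hw] at c1
  exact c1

theorem doubling (ε θ : ℝ) (hε : 0 < ε) (hθ : 0 < θ) : ∃ m : ℕ, ∀ {Q : Type} [Fintype Q]
    (μ : Measure (Q → ℝ)), IsKS μ → EpsBad μ ε → ∀ (z : Q) (ρ : ℝ), 0 < ρ → ∀ F : Finset Q,
    (∀ x ∈ F, d μ x z ≤ ρ) → (∀ x ∈ F, ∀ y ∈ F, x ≠ y → θ * ρ ≤ d μ x y) → F.card ≤ m := by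
  set h : ℝ := ε * θ / 64 with hh
  set A : ℝ := 256 / ε with hA
  have hhpos : 0 < h := by positivity
  have hApos : 0 < A := by positivity
  obtain ⟨K, hK⟩ := exists_nat_ge (2 * A / h)
  obtain ⟨m, hm⟩ := strange_pigeonhole (K + 1) (ε / 2) (by positivity)
  refine ⟨m, ?_⟩
  intro Q _ μ hμ hbad z ρ hρ F hF hsep
  have := hμ.prob
  by_contra hcon
  push Not at hcon
  -- the points
  set e : Fin m → Q := fun i => ((F.equivFin.symm (Fin.castLE hcon.le i) : F) : Q) with he
  have he_inj : Function.Injective e := by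
    intro i j hij
    have h1 : F.equivFin.symm (Fin.castLE hcon.le i) = F.equivFin.symm (Fin.castLE hcon.le j) :=
      Subtype.ext hij
    have h2 := F.equivFin.symm.injective h1
    exact Fin.castLE_injective hcon.le h2
  have he_mem : ∀ i, e i ∈ F := fun i => (F.equivFin.symm (Fin.castLE hcon.le i)).2
  have hwpos : 0 < h * ρ := by positivity
  obtain ⟨i, j, hij, hle⟩ := hm μ (fun i S => cell (A * ρ) (h * ρ) K (D (e i) z S))
    (fun i => (measurable_cell _ _ _).comp (measurable_D _ _))
  set x := e i with hx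
  set y := e j with hy
  have hxy : x ≠ y := fun hc => hij (he_inj hc)
  have hxF := he_mem i
  have hyF := he_mem j
  rw [← hx] at hxF
  rw [← hy] at hyF
  set X : (Q → ℝ) → Fin (K + 1) := fun S => cell (A * ρ) (h * ρ) K (D x z S) with hX
  set Y : (Q → ℝ) → Fin (K + 1) := fun S => cell (A * ρ) (h * ρ) K (D y z S) with hY
  have hmX : Measurable X := (measurable_cell _ _ _).comp (measurable_D _ _)
  have hmY : Measurable Y := (measurable_cell _ _ _).comp (measurable_D _ _)
  have hle' : |μ.real {S | X S < Y S} - μ.real {S | Y S < X S}| ≤ ε / 2 := hle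
  -- monotonicity
  have mono1 : ∀ S : Q → ℝ, X S < Y S → S x < S y := by
    intro S hS
    by_contra hc
    push Not at hc
    have h1 : D y z S ≤ D x z S := by simp only [D]; linarith
    have h2 : Y S ≤ X S := cell_mono _ _ _ hwpos h1
    exact absurd hS (not_lt.2 h2)
  have mono2 : ∀ S : Q → ℝ, Y S < X S → S y < S x := by
    intro S hS
    by_contra hc
    push Not at hc
    have h1 : D x z S ≤ D y z S := by simp only [D]; linarith
    have h2 : X S ≤ Y S := cell_mono _ _ _ hwpos h1
    exact absurd hS (not_lt.2 h2)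
  -- total probability
  have htot : 1 ≤ μ.real {S | X S < Y S} + μ.real {S | Y S < X S} + μ.real {S | X S = Y S} := by
    have h1 : (univ : Set (Q → ℝ)) ⊆ ({S | X S < Y S} ∪ {S | Y S < X S}) ∪ {S | X S = Y S} := by
      intro S _
      rcases lt_trichotomy (X S) (Y S) with h1 | h1 | h1
      · exact Or.inl (Or.inl h1)
      · exact Or.inr h1
      · exact Or.inl (Or.inr h1)
    have h2 : μ.real (univ : Set (Q → ℝ)) = 1 := by simp
    have h3 := measureReal_mono (μ := μ) h1
    have h4 := measureReal_union_le (μ := μ) ({S | X S < Y S} ∪ {S | Y S < X S}) {S | X S = Y S}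
    have h5 := measureReal_union_le (μ := μ) {S | X S < Y S} {S | Y S < X S}
    linarith
  -- equality is rare
  have hxd : d μ x z ≤ ρ := hF x hxF
  have hyd : d μ y z ≤ ρ := hF y hyF
  have hdxy : θ * ρ ≤ d μ x y := hsep x hxF y hyF hxy
  have hdpos : 0 < d μ x y := lt_of_lt_of_le (by positivity) hdxy
  have htail : 4 * Real.exp (-(A * ρ / (8 * ρ))) ≤ ε / 8 := by
    have h1 : A * ρ / (8 * ρ) = A / 8 := by
      field_simp
    rw [h1]
    have h2 : A / 8 = 32 / ε := by rw [hA]; ring
    rw [h2, Real.exp_neg]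
    have h3 : 32 / ε ≤ Real.exp (32 / ε) := by
      have := Real.add_one_le_exp (32 / ε)
      linarith
    have h4 : 0 < 32 / ε := by positivity
    have h5 : (Real.exp (32 / ε))⁻¹ ≤ (32 / ε)⁻¹ := inv_anti₀ h4 h3
    have h6 : (32 / ε)⁻¹ = ε / 32 := by rw [inv_div]
    rw [h6] at h5
    linarith
  have heq : μ.real {S | X S = Y S} ≤ ε / 2 := by
    have h1 : {S : Q → ℝ | X S = Y S} ⊆ ({S | |D x y S| ≤ h * ρ / d μ x y * d μ x y} ∪
        {S | A * ρ ≤ |D x z S|}) ∪ {S | A * ρ ≤ |D y z S|} := by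
      intro S hS
      by_cases hc1 : A * ρ ≤ |D x z S|
      · exact Or.inl (Or.inr hc1)
      · by_cases hc2 : A * ρ ≤ |D y z S|
        · exact Or.inr hc2
        · push Not at hc1 hc2
          refine Or.inl (Or.inl ?_)
          have h3 := cell_eq (A * ρ) (h * ρ) K hwpos (by
            have : 2 * (A * ρ) / (h * ρ) = 2 * A / h := by field_simp
            rw [this]; exact hK) _ _ hc1 hc2 hS
          have h4 : D x z S - D y z S = D x y S := by simp only [D]; ring
          rw [h4] at h3
          show |D x y S| ≤ h * ρ / d μ x y * d μ x y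
          rw [div_mul_cancel₀ _ hdpos.ne']
          exact h3
    have h2 := measureReal_mono (μ := μ) h1
    have h3 := measureReal_union_le (μ := μ) ({S | |D x y S| ≤ h * ρ / d μ x y * d μ x y} ∪
        {S | A * ρ ≤ |D x z S|}) {S | A * ρ ≤ |D y z S|}
    have h4 := measureReal_union_le (μ := μ) {S | |D x y S| ≤ h * ρ / d μ x y * d μ x y}
        {S | A * ρ ≤ |D x z S|}
    have h5 := hμ.small0 x y hxy (h * ρ / d μ x y) (by positivity)
    have h6 : h * ρ / d μ x y ≤ h / θ := by
      rw [div_le_div_iff₀ hdpos hθ]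
      nlinarith
    have h7 : h / θ = ε / 64 := by rw [hh]; field_simp
    have h8 := hμ.tail_ball x z ρ (A * ρ) hρ hxd (by positivity)
    have h9 := hμ.tail_ball y z ρ (A * ρ) hρ hyd (by positivity)
    linarith
  rw [abs_le] at hle'
  -- conclusion
  rcases hbad x y hxy with hb | hb
  · have h1 : μ.real {S | S x < S y} + μ.real {S | Y S < X S} ≤ 1 := by
      rw [← measureReal_union]
      · exact measureReal_le_one
      · rw [Set.disjoint_left]
        intro S hS1 hS2
        exact absurd hS1 (not_lt.2 (mono2 S hS2).le)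
      · exact measurableSet_lt hmY hmX
    linarith [hle'.1, hle'.2]
  · have h1 : μ.real {S | S y < S x} + μ.real {S | X S < Y S} ≤ 1 := by
      rw [← measureReal_union]
      · exact measureReal_le_one
      · rw [Set.disjoint_left]
        intro S hS1 hS2
        exact absurd hS1 (not_lt.2 (mono1 S hS2).le)
      · exact measurableSet_lt hmX hmY
    linarith [hle'.1, hle'.2]

theorem cover (ε : ℝ) (hε : 0 < ε) : ∃ m₀ : ℕ, ∀ {Q : Type} [Fintype Q]
    (μ : Measure (Q → ℝ)), IsKS μ → EpsBad μ ε → ∀ (z : Q) (ρ : ℝ), 0 < ρ → ∀ (j : ℕ) (F : Finset Q),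
    (∀ x ∈ F, d μ x z ≤ ρ) → (∀ x ∈ F, ∀ y ∈ F, x ≠ y → ρ / 2 ^ j < d μ x y) →
    F.card ≤ m₀ ^ (j + 1) := by
  classical
  obtain ⟨m₀, hm⟩ := doubling ε (1 / 2) hε (by norm_num)
  refine ⟨m₀, ?_⟩
  intro Q _ μ hμ hbad z ρ hρ j
  induction j generalizing z ρ with
  | zero =>
    intro F hF hsep
    simp only [zero_add, pow_one]
    refine hm μ hμ hbad z ρ hρ F hF ?_
    intro x hx y hy hxy
    have := hsep x hx y hy hxy
    simp only [pow_zero, div_one] at this
    linarith
  | succ j ih =>
    intro F hF hsep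
    obtain ⟨G, hGF, hGsep, hGnet⟩ := exists_net μ F (ρ / 2) (by positivity)
    have hG : G.card ≤ m₀ := by
      refine hm μ hμ hbad z ρ hρ G (fun x hx => hF x (hGF hx)) ?_
      intro x hx y hy hxy
      have := hGsep x hx y hy hxy
      linarith
    have hsub : F ⊆ G.biUnion (fun g => F.filter (fun x => d μ x g ≤ ρ / 2)) := by
      intro x hx
      obtain ⟨g, hg, hd⟩ := hGnet x hx
      exact Finset.mem_biUnion.2 ⟨g, hg, Finset.mem_filter.2 ⟨hx, hd⟩⟩
    have hcell : ∀ g ∈ G, (F.filter (fun x => d μ x g ≤ ρ / 2)).card ≤ m₀ ^ (j + 1) := by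
      intro g _
      refine ih g (ρ / 2) (by positivity) _ ?_ ?_
      · intro x hx
        exact (Finset.mem_filter.1 hx).2
      · intro x hx y hy hxy
        have := hsep x (Finset.mem_filter.1 hx).1 y (Finset.mem_filter.1 hy).1 hxy
        have h2 : ρ / 2 / 2 ^ j = ρ / 2 ^ (j + 1) := by
          rw [pow_succ]; field_simp
        rw [h2]
        exact this
    calc F.card ≤ (G.biUnion (fun g => F.filter (fun x => d μ x g ≤ ρ / 2))).card :=
          Finset.card_le_card hsub
      _ ≤ G.card * m₀ ^ (j + 1) := Finset.card_biUnion_le_card_mul _ _ _ hcell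
      _ ≤ m₀ * m₀ ^ (j + 1) := Nat.mul_le_mul_right _ hG
      _ = m₀ ^ (j + 1 + 1) := by ring

end KS
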