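import Pool.Agent.Lib.MP_c534e4_co.Density
import Pool.Agent.Lib.MP_c534e4_co.Basic
import Pool.Agent.Lib.MP_c534e4_co.H18.ExOrder

/-! Module J: chain ⊕ α ⊕ chain. -/

set_option autoImplicit false

namespace KS

open MeasureTheory Set ProbabilityTheory
open scoped ENNReal

theorem ks_M_eq_d {Q : Type} [Fintype Q] [PartialOrder Q] {x y : Q} (h : x < y) :
    M (ks Q) y x = d (ks Q) y x := by
  unfold M d
  apply integral_congr_ae
  filter_upwards [ks_strictMono (Q := Q)] with S hS
  have := hS h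
  rw [abs_of_pos]
  unfold D
  linarith

theorem ks_M_nonpos {Q : Type} [Fintype Q] [PartialOrder Q] {x y : Q} (h : x ≤ y) :
    M (ks Q) x y ≤ 0 := by
  unfold M
  apply integral_nonpos_of_ae
  filter_upwards [ks_strictMono (Q := Q)] with S hS
  have := hS.monotone h
  show D x y S ≤ 0
  unfold D
  linarith

namespace Ex

variable {n : ℕ} {α : Type} [Fintype α] [PartialOrder α]

theorem lo_chain (k : ℕ) : ∀ (i j : Fin (n + 1)), (j : ℕ) = i + k →
    M (ks (Ex n α)) (lo j) (lo i) = k ∧ V (ks (Ex n α)) (lo j) (lo i) ≤ k := by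
  have hI : IsKS (ks (Ex n α)) := isKS_ks
  induction k with
  | zero =>
    intro i j h
    have : j = i := Fin.ext (by simpa using h)
    subst this
    simp [M_self, V_self]
  | succ k ih =>
    intro i j h
    have hj : (i : ℕ) + k < n + 1 := by omega
    obtain ⟨h1, h2⟩ := ih i ⟨i + k, hj⟩ rfl
    obtain ⟨h3, h4⟩ := ks_step (Q := Ex n α) (lo ⟨i + k, hj⟩) (lo j)
      (by rw [lo_lt_lo, Fin.lt_def]; simp only; omega)
      (by
        intro w
        cases w with
        | lo l =>
          rw [lo_le_lo, lo_le_lo, Fin.le_def, Fin.le_def]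
          simp only
          omega
        | mid a => right; simp
        | hi l => right; simp)
    constructor
    · rw [← hI.M_add (lo j) (lo ⟨i + k, hj⟩) (lo i), h1, h3]
      push_cast
      ring
    · have h5 := hI.V_tri (lo j) (lo ⟨i + k, hj⟩) (lo i)
      rw [h4] at h5
      push_cast
      linarith

theorem hi_chain (k : ℕ) : ∀ (i j : Fin (n + 1)), (j : ℕ) = i + k →
    M (ks (Ex n α)) (hi j) (hi i) = k ∧ V (ks (Ex n α)) (hi j) (hi i) ≤ k := by
  have hI : IsKS (ks (Ex n α)) := isKS_ks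
  induction k with
  | zero =>
    intro i j h
    have : j = i := Fin.ext (by simpa using h)
    subst this
    simp [M_self, V_self]
  | succ k ih =>
    intro i j h
    have hj : (i : ℕ) + k < n + 1 := by omega
    obtain ⟨h1, h2⟩ := ih i ⟨i + k, hj⟩ rfl
    obtain ⟨h3, h4⟩ := ks_step (Q := Ex n α) (hi ⟨i + k, hj⟩) (hi j)
      (by rw [hi_lt_hi, Fin.lt_def]; simp only; omega)
      (by
        intro w
        cases w with
        | hi l =>
          rw [hi_le_hi, hi_le_hi, Fin.le_def, Fin.le_def]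
          simp only
          omega
        | mid a => left; simp
        | lo l => left; simp)
    constructor
    · rw [← hI.M_add (hi j) (hi ⟨i + k, hj⟩) (hi i), h1, h3]
      push_cast
      ring
    · have h5 := hI.V_tri (hi j) (hi ⟨i + k, hj⟩) (hi i)
      rw [h4] at h5
      push_cast
      linarith

/-- Within a chain the variance is at most the mean. -/
theorem lo_V_le (i j : Fin (n + 1)) :
    V (ks (Ex n α)) (lo i) (lo j) ≤ |M (ks (Ex n α)) (lo i) (lo j)| := by
  rcases le_total i j with h | h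
  · obtain ⟨k, hk⟩ := Nat.exists_eq_add_of_le (Fin.le_def.mp h)
    obtain ⟨h1, h2⟩ := lo_chain (α := α) k i j hk
    rw [V_symm, M_symm (ks (Ex n α)) (lo j) (lo i), abs_neg, h1, abs_of_nonneg (Nat.cast_nonneg k)]
    exact h2
  · obtain ⟨k, hk⟩ := Nat.exists_eq_add_of_le (Fin.le_def.mp h)
    obtain ⟨h1, h2⟩ := lo_chain (α := α) k j i hk
    rw [h1, abs_of_nonneg (Nat.cast_nonneg k)]
    exact h2

theorem hi_V_le (i j : Fin (n + 1)) :
    V (ks (Ex n α)) (hi i) (hi j) ≤ |M (ks (Ex n α)) (hi i) (hi j)| := by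
  rcases le_total i j with h | h
  · obtain ⟨k, hk⟩ := Nat.exists_eq_add_of_le (Fin.le_def.mp h)
    obtain ⟨h1, h2⟩ := hi_chain (α := α) k i j hk
    rw [V_symm, M_symm (ks (Ex n α)) (hi j) (hi i), abs_neg, h1, abs_of_nonneg (Nat.cast_nonneg k)]
    exact h2
  · obtain ⟨k, hk⟩ := Nat.exists_eq_add_of_le (Fin.le_def.mp h)
    obtain ⟨h1, h2⟩ := hi_chain (α := α) k j i hk
    rw [h1, abs_of_nonneg (Nat.cast_nonneg k)]
    exact h2

theorem tame_aux {x x' y' y : Ex n α} (h1 : x ≤ x') (h2 : x' ≤ y') (h3 : y' ≤ y)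
    (h4 : V (ks (Ex n α)) x x' ≤ |M (ks (Ex n α)) x x'|)
    (h5 : V (ks (Ex n α)) y' y ≤ |M (ks (Ex n α)) y' y|) :
    |M (ks (Ex n α)) x' y'| ≤ |M (ks (Ex n α)) x y| ∧
      V (ks (Ex n α)) x y ≤ |M (ks (Ex n α)) x y| + V (ks (Ex n α)) x' y' := by
  have hI : IsKS (ks (Ex n α)) := isKS_ks
  have a1 := ks_M_nonpos h1
  have a2 := ks_M_nonpos h2
  have a3 := ks_M_nonpos h3
  have b1 := hI.M_add x x' y
  have b2 := hI.M_add x' y' y
  have c1 := hI.V_tri x x' y
  have c2 := hI.V_tri x' y' y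
  rw [abs_of_nonpos a1] at h4
  rw [abs_of_nonpos a3] at h5
  rw [abs_of_nonpos a2, abs_of_nonpos (by linarith : M (ks (Ex n α)) x y ≤ 0)]
  constructor <;> linarith

open Classical in
/-- the core -/
noncomputable def core (n : ℕ) (α : Type) [Fintype α] [PartialOrder α] : Finset (Ex n α) :=
  Finset.univ.filter (fun x => lo (Fin.last n) ≤ x ∧ x ≤ hi 0)

theorem mem_core (x : Ex n α) : x ∈ core n α ↔ lo (Fin.last n) ≤ x ∧ x ≤ hi 0 := by
  simp [core]

theorem lo_mem_core : (lo (Fin.last n) : Ex n α) ∈ core n α := by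
  simp [mem_core]

theorem hi_mem_core : (hi 0 : Ex n α) ∈ core n α := by
  simp [mem_core]

theorem mid_mem_core (a : α) : (mid a : Ex n α) ∈ core n α := by
  simp [mem_core]

theorem tame_le (x y : Ex n α) (h : x ≤ y) : ∃ x' ∈ core n α, ∃ y' ∈ core n α,
    |M (ks (Ex n α)) x' y'| ≤ |M (ks (Ex n α)) x y| ∧
      V (ks (Ex n α)) x y ≤ |M (ks (Ex n α)) x y| + V (ks (Ex n α)) x' y' := by
  cases x with
  | lo i =>
    cases y with
    | lo j =>
      refine ⟨_, lo_mem_core, _, lo_mem_core, ?_, ?_⟩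
      · rw [M_self, abs_zero]; exact abs_nonneg _
      · rw [V_self, add_zero]; exact lo_V_le i j
    | mid a =>
      exact ⟨_, lo_mem_core, _, mid_mem_core a, tame_aux (by simp [Fin.le_last]) (by simp) le_rfl
        (lo_V_le _ _) (by simp [M_self, V_self])⟩
    | hi j =>
      exact ⟨_, lo_mem_core, _, hi_mem_core, tame_aux (by simp [Fin.le_last]) (by simp) (by simp)
        (lo_V_le _ _) (hi_V_le _ _)⟩
  | mid a =>
    cases y with
    | lo j => exact absurd h (by simp)
    | mid b =>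
      exact ⟨_, mid_mem_core a, _, mid_mem_core b, tame_aux le_rfl h le_rfl
        (by simp [M_self, V_self]) (by simp [M_self, V_self])⟩
    | hi j =>
      exact ⟨_, mid_mem_core a, _, hi_mem_core, tame_aux le_rfl (by simp) (by simp)
        (by simp [M_self, V_self]) (hi_V_le _ _)⟩
  | hi i =>
    cases y with
    | lo j => exact absurd h (by simp)
    | mid a => exact absurd h (by simp)
    | hi j =>
      refine ⟨_, hi_mem_core, _, hi_mem_core, ?_, ?_⟩
      · rw [M_self, abs_zero]; exact abs_nonneg _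
      · rw [V_self, add_zero]; exact hi_V_le i j

theorem tame (x y : Ex n α) : ∃ x' ∈ core n α, ∃ y' ∈ core n α,
    |M (ks (Ex n α)) x' y'| ≤ |M (ks (Ex n α)) x y| ∧
      V (ks (Ex n α)) x y ≤ |M (ks (Ex n α)) x y| + V (ks (Ex n α)) x' y' := by
  rcases total_or x y with h | h | ⟨a, b, rfl, rfl⟩
  · exact tame_le x y h
  · obtain ⟨x', hx', y', hy', h1, h2⟩ := tame_le y x h
    refine ⟨y', hy', x', hx', ?_, ?_⟩
    · rw [M_symm (ks (Ex n α)) x' y', abs_neg, M_symm (ks (Ex n α)) y x, abs_neg]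
      exact h1
    · rw [V_symm (ks (Ex n α)) x y, V_symm (ks (Ex n α)) y' x', M_symm (ks (Ex n α)) y x, abs_neg]
      exact h2
  · refine ⟨_, mid_mem_core a, _, mid_mem_core b, le_rfl, ?_⟩
    have := abs_nonneg (M (ks (Ex n α)) (mid a) (mid b))
    linarith

theorem d_core (x y : Ex n α) (hx : x ∈ core n α) (hy : y ∈ core n α) :
    d (ks (Ex n α)) x y ≤ Fintype.card α + 1 := by
  have h := ks_d_le x y (Fintype.card α + 1) (fun σ => by
    rw [mem_core] at hx hy
    have h1 := Fin.le_def.mp (σ.2.monotone hx.1)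
    have h2 := Fin.le_def.mp (σ.2.monotone hx.2)
    have h3 := Fin.le_def.mp (σ.2.monotone hy.1)
    have h4 := Fin.le_def.mp (σ.2.monotone hy.2)
    have h5 := pos_lo σ (Fin.last n)
    have h6 := pos_hi σ (0 : Fin (n + 1))
    rw [h5] at h1 h3
    rw [h6] at h2 h4
    simp only [Fin.val_last, Fin.val_zero] at h1 h2 h3 h4
    rw [abs_le]
    push_cast
    constructor <;> omega)
  exact_mod_cast h

theorem deep_core (z : Ex n α) (hz : z ∈ core n α) : Deep (ks (Ex n α)) z ((n : ℝ) - 1) := by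
  classical
  rw [mem_core] at hz
  apply ks_deep
  · calc n = ((Finset.Ioi (0 : Fin (n + 1))).image (hi : Fin (n + 1) → Ex n α)).card := by
          rw [Finset.card_image_of_injective _ hi_inj, Fin.card_Ioi]
          simp
      _ ≤ _ := by
          apply Finset.card_le_card
          intro w hw
          simp only [Finset.mem_image, Finset.mem_Ioi] at hw
          obtain ⟨j, hj, rfl⟩ := hw
          simp only [Finset.mem_filter, Finset.mem_univ, true_and]
          exact lt_of_le_of_lt hz.2 ((hi_lt_hi _ _).mpr hj)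
  · calc n = ((Finset.Iio (Fin.last n)).image (lo : Fin (n + 1) → Ex n α)).card := by
          rw [Finset.card_image_of_injective _ lo_inj, Fin.card_Iio]
          simp
      _ ≤ _ := by
          apply Finset.card_le_card
          intro w hw
          simp only [Finset.mem_image, Finset.mem_Iio] at hw
          obtain ⟨j, hj, rfl⟩ := hw
          simp only [Finset.mem_filter, Finset.mem_univ, true_and]
          exact lt_of_lt_of_le ((lo_lt_lo _ _).mpr hj) hz.1

end Ex

theorem exists_ext (α : Type) [Fintype α] [PartialOrder α] (K : ℝ)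
    (hK : 4 * ((Fintype.card α : ℝ) + 2) ≤ K) :
    ∃ (Q : Type) (_ : Fintype Q) (_ : PartialOrder Q) (_ : BoundedOrder Q) (ι : α → Q)
      (core : Finset Q), (∀ a b, ι a ≤ ι b ↔ a ≤ b) ∧
      (∀ x y : Q, x ≤ y ∨ y ≤ x ∨ ∃ a b, x = ι a ∧ y = ι b) ∧
      (∀ a b : α, (ks Q).real {S | S (ι a) < S (ι b)} *
        (Nat.card {σ : α ≃ Fin (Fintype.card α) // StrictMono ⇑σ} : ℝ) =
        (Nat.card {σ : α ≃ Fin (Fintype.card α) // StrictMono ⇑σ ∧ σ a < σ b} : ℝ)) ∧
      Core (ks Q) core K ∧
      (∀ x ∈ core, ∀ y ∈ core, d (ks Q) x y ≤ Fintype.card α + 1) := by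
  obtain ⟨n, hn⟩ : ∃ n : ℕ, n = ⌈K⌉₊ + 1 := ⟨_, rfl⟩
  have hm0 : (0 : ℝ) ≤ Fintype.card α := Nat.cast_nonneg _
  have hnK : K ≤ (n : ℝ) - 1 := by
    rw [hn]
    push_cast
    have := Nat.le_ceil K
    linarith
  have hI : IsKS (ks (Ex n α)) := isKS_ks
  refine ⟨Ex n α, inferInstance, inferInstance, inferInstance, Ex.mid, Ex.core n α,
    fun a b => Ex.mid_le_mid a b, Ex.total_or, ?_, ?_,
    fun x hx y hy => Ex.d_core x y hx hy⟩
  · intro a b
    have h := ks_lt (Q := Ex n α) (Ex.mid a) (Ex.mid b)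
    rw [Ex.natCard_all, Ex.natCard_lt] at h
    exact h
  · refine ⟨⟨_, Ex.lo_mem_core⟩, fun z hz => (Ex.deep_core z hz).mono hnK, Ex.tame, ?_, ?_⟩
    · intro z hz
      cases z with
      | lo i =>
        right
        have hi : (i : ℕ) ≠ n := by
          intro h
          apply hz
          have : i = Fin.last n := Fin.ext (by simpa using h)
          rw [this]
          exact Ex.lo_mem_core
        have hi2 : (i : ℕ) + 1 < n + 1 := by omega
        have h1 := (Ex.lo_chain (α := α) 1 i ⟨i + 1, hi2⟩ rfl).1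
        refine ⟨Ex.lo ⟨i + 1, hi2⟩, ?_, ?_⟩
        · rw [h1]; norm_num
        · rw [h1]; norm_num
      | mid a => exact absurd (Ex.mid_mem_core a) hz
      | hi j =>
        by_cases hj : (j : ℕ) = n
        · left
          intro y
          apply ks_M_nonpos
          have : j = Fin.last n := Fin.ext (by simpa using hj)
          rw [this, ← Ex.top_eq]
          exact le_top
        · right
          have hj2 : (j : ℕ) + 1 < n + 1 := by omega
          have h1 := (Ex.hi_chain (α := α) 1 j ⟨j + 1, hj2⟩ rfl).1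
          refine ⟨Ex.hi ⟨j + 1, hj2⟩, ?_, ?_⟩
          · rw [h1]; norm_num
          · rw [h1]; norm_num
    · intro z hz
      right
      by_cases h0 : z = Ex.hi 0
      · have hj2 : ((0 : Fin (n + 1)) : ℕ) + 1 < n + 1 := by simp; omega
        have h1 := (Ex.hi_chain (α := α) 1 0 ⟨((0 : Fin (n + 1)) : ℕ) + 1, hj2⟩ rfl).1
        refine ⟨Ex.hi ⟨((0 : Fin (n + 1)) : ℕ) + 1, hj2⟩, ?_, ?_⟩
        · rw [h0, h1]; norm_num
        · rw [h0, h1]
          push_cast
          linarith
      · have hz2 := (Ex.mem_core z).mp hz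
        have hlt : z < Ex.hi 0 := lt_of_le_of_ne hz2.2 h0
        refine ⟨Ex.hi 0, ?_, ?_⟩
        · rw [ks_M_eq_d hlt]
          have := hI.d_ge (Ex.hi 0) z (ne_of_gt hlt)
          linarith
        · rw [ks_M_eq_d hlt]
          have := Ex.d_core (Ex.hi 0) z Ex.hi_mem_core hz
          linarith

end KS
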