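import Pool.Agent.Lib.MP_c534e4_co.Basic

/-! Module E2 (owner helper18): many elements are spread with respect to an extremal pair. -/

set_option autoImplicit false

namespace KS

open MeasureTheory Set

/-- The expected number of elements in the window of length `σ` after `z` is at least `σ / 4`. -/
theorem extr_sum_ge {Q : Type} [Fintype Q] {μ : Measure (Q → ℝ)} (h : IsKS μ) (z : Q) (σ : ℝ)
    (hσ : 96 ≤ σ) (hd : Deep μ z (2 * σ)) :
    σ / 4 ≤ ∑ x : Q, μ.real {S | x ≠ z ∧ 0 < D x z S ∧ D x z S < σ} := by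
  have := h.prob
  classical
  have h1 := hd.up_ge σ (σ / 2) (by linarith) (by linarith) (by linarith)
  have h2 : 8 * (σ + σ / 2) / (σ / 2) ^ 2 ≤ 1 / 2 := by
    rw [div_le_iff₀ (by positivity)]
    nlinarith
  have hm : ∀ x : Q, MeasurableSet {S : Q → ℝ | x ≠ z ∧ 0 < D x z S ∧ D x z S < σ} := by
    intro x
    by_cases hx : x = z
    · simp [hx]
    · simp only [hx, ne_eq, not_false_eq_true, true_and]
      exact (measurableSet_lt measurable_const (measurable_D x z)).inter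
        (measurableSet_lt (measurable_D x z) measurable_const)
  have hc : ∀ S : Q → ℝ, (cnt z (fun t => 0 < t ∧ t < σ) S : ℝ) =
      ∑ x : Q, ({S : Q → ℝ | x ≠ z ∧ 0 < D x z S ∧ D x z S < σ}).indicator
        (fun _ => (1 : ℝ)) S := by
    intro S
    rw [cnt, Finset.card_filter]
    push_cast
    apply Finset.sum_congr rfl
    intro x _
    simp [Set.indicator_apply]
  have hint : ∀ x : Q, Integrable
      (({S : Q → ℝ | x ≠ z ∧ 0 < D x z S ∧ D x z S < σ}).indicator (fun _ => (1 : ℝ))) μ :=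
    fun x => (integrable_const _).indicator (hm x)
  have hsum : ∫ S, (cnt z (fun t => 0 < t ∧ t < σ) S : ℝ) ∂μ =
      ∑ x : Q, μ.real {S | x ≠ z ∧ 0 < D x z S ∧ D x z S < σ} := by
    simp_rw [hc]
    rw [integral_finsetSum _ (fun x _ => hint x)]
    apply Finset.sum_congr rfl
    intro x _
    rw [integral_indicator (hm x)]
    simp
  have hi : Integrable (fun S => (cnt z (fun t => 0 < t ∧ t < σ) S : ℝ)) μ := by
    simp_rw [hc]
    exact integrable_finsetSum _ (fun x _ => hint x)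
  have h3 := mul_meas_ge_le_integral_of_nonneg (μ := μ)
    (f := fun S => (cnt z (fun t => 0 < t ∧ t < σ) S : ℝ))
    (Filter.Eventually.of_forall (fun S => Nat.cast_nonneg _)) hi (σ / 2)
  have h4 : 1 ≤ μ.real {S | (cnt z (fun t => 0 < t ∧ t < σ) S : ℝ) < σ - σ / 2} +
      μ.real {S | σ / 2 ≤ (cnt z (fun t => 0 < t ∧ t < σ) S : ℝ)} := by
    have hu : ({S : Q → ℝ | (cnt z (fun t => 0 < t ∧ t < σ) S : ℝ) < σ - σ / 2} ∪
        {S : Q → ℝ | σ / 2 ≤ (cnt z (fun t => 0 < t ∧ t < σ) S : ℝ)}) = Set.univ := by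
      ext S
      simp only [Set.mem_union, Set.mem_ofPred_eq, Set.mem_univ, iff_true]
      rcases lt_or_ge (cnt z (fun t => 0 < t ∧ t < σ) S : ℝ) (σ / 2) with h | h
      · left; linarith
      · right; exact h
    have := measureReal_union_le (μ := μ)
      {S : Q → ℝ | (cnt z (fun t => 0 < t ∧ t < σ) S : ℝ) < σ - σ / 2}
      {S : Q → ℝ | σ / 2 ≤ (cnt z (fun t => 0 < t ∧ t < σ) S : ℝ)}
    rw [hu] at this
    simpa using this
  rw [hsum] at h3
  have h5 : 1 / 2 ≤ μ.real {S | σ / 2 ≤ (cnt z (fun t => 0 < t ∧ t < σ) S : ℝ)} := by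
    linarith
  have h6 : σ / 2 * (1 / 2) ≤ σ / 2 *
      μ.real {S | σ / 2 ≤ (cnt z (fun t => 0 < t ∧ t < σ) S : ℝ)} :=
    mul_le_mul_of_nonneg_left h5 (by linarith)
  linarith

/-- One far element. -/
theorem extr_far_one {Q : Type} [Fintype Q] {μ : Measure (Q → ℝ)} (h : IsKS μ) (C₄ σ B : ℝ)
    (hC : 1 ≤ C₄) (hσ : 1 ≤ σ) (x z : Q) (hV : V μ x z ≤ C₄ * (σ ^ 2 + σ * |M μ x z|))
    (hB : 2 * σ ≤ B) (hM : B ≤ |M μ x z|) :
    μ.real {S | x ≠ z ∧ 0 < D x z S ∧ D x z S < σ} ≤ 512 * 10 ^ 9 * C₄ ^ 3 * σ ^ 3 / B ^ 3 := by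
  have := h.prob
  have hσ0 : 0 < σ := by linarith
  have hB0 : 0 < B := by linarith
  set m := |M μ x z| with hm
  have hm0 : 0 < m := by linarith
  have h1 : μ.real {S | x ≠ z ∧ 0 < D x z S ∧ D x z S < σ} ≤
      μ.real {S | m / 2 ≤ |D x z S - M μ x z|} := by
    apply measureReal_mono _ (measure_ne_top _ _)
    rintro S ⟨_, h2, h3⟩
    simp only [Set.mem_ofPred_eq]
    have h4 : |M μ x z| ≤ |D x z S| + |D x z S - M μ x z| := by
      have := abs_sub (D x z S) (D x z S - M μ x z)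
      simpa using this
    have h5 : |D x z S| ≤ σ := by
      rw [abs_of_pos h2]; exact h3.le
    linarith
  have h2 := h.tail_6 x z (m / 2) (by linarith)
  have h3 : V μ x z ≤ 2 * C₄ * σ * m := by
    have : σ ^ 2 ≤ σ * m := by nlinarith
    have : C₄ * (σ ^ 2 + σ * m) ≤ C₄ * (σ * m + σ * m) :=
      mul_le_mul_of_nonneg_left (by linarith) (by linarith)
    linarith
  have h4 : (V μ x z) ^ 3 ≤ (2 * C₄ * σ * m) ^ 3 :=
    pow_le_pow_left₀ (V_nonneg μ x z) h3 3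
  have h5 : 10 ^ 9 * (V μ x z) ^ 3 / (m / 2) ^ 6 ≤ 10 ^ 9 * (2 * C₄ * σ * m) ^ 3 / (m / 2) ^ 6 := by
    gcongr
  have h6 : 10 ^ 9 * (2 * C₄ * σ * m) ^ 3 / (m / 2) ^ 6 = 512 * 10 ^ 9 * C₄ ^ 3 * σ ^ 3 / m ^ 3 := by
    field_simp
    ring
  have h7 : 512 * 10 ^ 9 * C₄ ^ 3 * σ ^ 3 / m ^ 3 ≤ 512 * 10 ^ 9 * C₄ ^ 3 * σ ^ 3 / B ^ 3 := by
    have : 0 ≤ 512 * 10 ^ 9 * C₄ ^ 3 * σ ^ 3 := by positivity
    gcongr
  linarith

open Classical in
theorem extr_card {Q : Type} [Fintype Q] {μ : Measure (Q → ℝ)} (h : IsKS μ) (C₄ σ R : ℝ)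
    (hC : 1 ≤ C₄) (hσ : 1 ≤ σ) (hR : σ ≤ R) (z : Q)
    (hV : ∀ x, V μ x z ≤ C₄ * (σ ^ 2 + σ * |M μ x z|)) :
    ((Finset.univ.filter (fun x : Q => |M μ x z| ≤ R)).card : ℝ) ≤ 80 * C₄ * R := by
  have hR0 : 0 < R := by linarith
  have hC0 : 0 < C₄ := by linarith
  have h1 : (Finset.univ.filter (fun x : Q => |M μ x z| ≤ R)) ⊆
      (Finset.univ.filter (fun x : Q => d μ x z ≤ 3 * C₄ * R)) := by
    intro x hx
    simp only [Finset.mem_filter, Finset.mem_univ, true_and] at hx ⊢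
    have h2 := h.d_le x z
    have h3 : V μ x z ≤ (2 * C₄ * R) ^ 2 := by
      have ha : σ ^ 2 ≤ R ^ 2 := pow_le_pow_left₀ (by linarith) hR 2
      have hb : σ * |M μ x z| ≤ R ^ 2 := by
        rw [sq]
        exact mul_le_mul hR hx (abs_nonneg _) (by linarith)
      have hc : C₄ * (σ ^ 2 + σ * |M μ x z|) ≤ C₄ * (R ^ 2 + R ^ 2) :=
        mul_le_mul_of_nonneg_left (by linarith) (by linarith)
      have hd : C₄ ≤ C₄ ^ 2 := by nlinarith
      have he : C₄ * (R ^ 2 + R ^ 2) ≤ (2 * C₄ * R) ^ 2 := by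
        have : C₄ * R ^ 2 ≤ C₄ ^ 2 * R ^ 2 := mul_le_mul_of_nonneg_right hd (sq_nonneg _)
        nlinarith [mul_nonneg (sq_nonneg C₄) (sq_nonneg R)]
      exact (hV x).trans (hc.trans he)
    have h4 : Real.sqrt (V μ x z) ≤ 2 * C₄ * R := by
      apply Real.sqrt_le_iff.mpr
      exact ⟨by positivity, h3⟩
    have h5 : R ≤ C₄ * R := by nlinarith
    linarith
  have h2 := h.card_le z (3 * C₄ * R) (by positivity)
  have h3 : ((Finset.univ.filter (fun x : Q => |M μ x z| ≤ R)).card : ℝ) ≤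
      ((Finset.univ.filter (fun x : Q => d μ x z ≤ 3 * C₄ * R)).card : ℝ) := by
    exact_mod_cast Finset.card_le_card h1
  have h4 : 1 ≤ C₄ * R := by nlinarith
  linarith

open Classical in
theorem extr_far {Q : Type} [Fintype Q] {μ : Measure (Q → ℝ)} (h : IsKS μ) (C₄ σ : ℝ)
    (hC : 1 ≤ C₄) (hσ : 1 ≤ σ) (z : Q)
    (hV : ∀ x, V μ x z ≤ C₄ * (σ ^ 2 + σ * |M μ x z|)) :
    ∑ x ∈ Finset.univ.filter (fun x : Q => 10 ^ 8 * C₄ ^ 2 * σ ≤ |M μ x z|),
      μ.real {S | x ≠ z ∧ 0 < D x z S ∧ D x z S < σ} ≤ σ / 8 := by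
  have hσ0 : 0 < σ := by linarith
  have hC0 : 0 < C₄ := by linarith
  set A : ℝ := 10 ^ 8 * C₄ ^ 2 with hA
  have hC2 : 1 ≤ C₄ ^ 2 := by nlinarith
  have hA1 : 10 ^ 8 ≤ A := by nlinarith
  have hA0 : 0 < A := by positivity
  have hAσ : 0 < A * σ := by positivity
  set F := Finset.univ.filter (fun x : Q => A * σ ≤ |M μ x z|) with hF
  have hk : ∀ x : Q, ∃ k : ℕ, x ∈ F → 2 ^ k * (A * σ) ≤ |M μ x z| ∧
      |M μ x z| ≤ 2 ^ (k + 1) * (A * σ) := by
    intro x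
    by_cases hx : x ∈ F
    · have hx' : A * σ ≤ |M μ x z| := by
        simpa [hF] using hx
      have h1 : 1 ≤ |M μ x z| / (A * σ) := by
        rw [le_div_iff₀ hAσ]; linarith
      obtain ⟨k, hk1, hk2⟩ := exists_nat_pow_near h1 (one_lt_two)
      refine ⟨k, fun _ => ⟨?_, ?_⟩⟩
      · rwa [le_div_iff₀ hAσ] at hk1
      · rw [div_lt_iff₀ hAσ] at hk2
        exact hk2.le
    · exact ⟨0, fun h => absurd h hx⟩
  choose k hk using hk
  set N := F.sup k with hN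
  have hmaps : ∀ x ∈ F, k x ∈ Finset.range (N + 1) := by
    intro x hx
    rw [Finset.mem_range]
    exact Nat.lt_succ_of_le (Finset.le_sup hx)
  rw [← Finset.sum_fiberwise_of_maps_to hmaps]
  have hterm : ∀ j ∈ Finset.range (N + 1),
      ∑ x ∈ F with k x = j, μ.real {S | x ≠ z ∧ 0 < D x z S ∧ D x z S < σ} ≤
        σ / 16 * (1 / 2) ^ j := by
    intro j _
    set t : ℝ := 2 ^ j with ht
    have ht1 : 1 ≤ t := one_le_pow₀ (by norm_num)
    have ht0 : 0 < t := by linarith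
    set B : ℝ := t * (A * σ) with hB
    have hB0 : 0 < B := by positivity
    have hAB : A * σ ≤ B := by
      rw [hB]; nlinarith
    have hB2 : 2 * σ ≤ B := by nlinarith
    have h1 : ∀ x ∈ F.filter (fun x => k x = j),
        μ.real {S | x ≠ z ∧ 0 < D x z S ∧ D x z S < σ} ≤
          512 * 10 ^ 9 * C₄ ^ 3 * σ ^ 3 / B ^ 3 := by
      intro x hx
      rw [Finset.mem_filter] at hx
      have hx1 := hk x hx.1
      rw [hx.2] at hx1
      exact extr_far_one h C₄ σ B hC hσ x z (hV x) hB2 hx1.1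
    have h2 : ((F.filter (fun x => k x = j)).card : ℝ) ≤ 160 * C₄ * B := by
      have hs : F.filter (fun x => k x = j) ⊆
          Finset.univ.filter (fun x : Q => |M μ x z| ≤ 2 * B) := by
        intro x hx
        rw [Finset.mem_filter] at hx
        have hx1 := hk x hx.1
        rw [hx.2] at hx1
        simp only [Finset.mem_filter, Finset.mem_univ, true_and]
        have : (2 : ℝ) ^ (j + 1) * (A * σ) = 2 * B := by
          rw [hB, ht]; ring
        linarith [hx1.2]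
      have h3 := extr_card h C₄ σ (2 * B) hC hσ (by linarith) z hV
      have h4 : ((F.filter (fun x => k x = j)).card : ℝ) ≤
          ((Finset.univ.filter (fun x : Q => |M μ x z| ≤ 2 * B)).card : ℝ) := by
        exact_mod_cast Finset.card_le_card hs
      linarith
    have h3 : 0 ≤ 512 * 10 ^ 9 * C₄ ^ 3 * σ ^ 3 / B ^ 3 := by positivity
    calc ∑ x ∈ F with k x = j, μ.real {S | x ≠ z ∧ 0 < D x z S ∧ D x z S < σ}
        ≤ ∑ x ∈ F with k x = j, 512 * 10 ^ 9 * C₄ ^ 3 * σ ^ 3 / B ^ 3 :=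
          Finset.sum_le_sum h1
      _ = ((F.filter (fun x => k x = j)).card : ℝ) *
            (512 * 10 ^ 9 * C₄ ^ 3 * σ ^ 3 / B ^ 3) := by
          rw [Finset.sum_const, nsmul_eq_mul]
      _ ≤ (160 * C₄ * B) * (512 * 10 ^ 9 * C₄ ^ 3 * σ ^ 3 / B ^ 3) :=
          mul_le_mul_of_nonneg_right h2 h3
      _ = (81920 / 10 ^ 7) * σ * (1 / t) ^ 2 := by
          rw [hB, hA]
          field_simp
          norm_num
      _ ≤ σ / 16 * (1 / 2) ^ j := by
          have h5 : (1 / 2 : ℝ) ^ j = 1 / t := by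
            rw [ht, one_div_pow]
          rw [h5]
          have h6 : (1 / t) ^ 2 ≤ 1 / t := by
            rw [sq]
            have : 1 / t ≤ 1 := by
              rw [div_le_one ht0]; exact ht1
            have h0 : 0 ≤ 1 / t := by positivity
            nlinarith
          have h7 : (81920 / 10 ^ 7) * σ * (1 / t) ^ 2 ≤ (81920 / 10 ^ 7) * σ * (1 / t) :=
            mul_le_mul_of_nonneg_left h6 (by positivity)
          have h8 : 0 ≤ σ * (1 / t) := by positivity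
          nlinarith
  calc ∑ j ∈ Finset.range (N + 1),
        ∑ x ∈ F with k x = j, μ.real {S | x ≠ z ∧ 0 < D x z S ∧ D x z S < σ}
      ≤ ∑ j ∈ Finset.range (N + 1), σ / 16 * (1 / 2) ^ j := Finset.sum_le_sum hterm
    _ = σ / 16 * ∑ j ∈ Finset.range (N + 1), (1 / 2 : ℝ) ^ j := by
        rw [Finset.mul_sum]
    _ ≤ σ / 16 * 2 := by
        apply mul_le_mul_of_nonneg_left _ (by positivity)
        exact sum_geometric_two_le (N + 1)
    _ = σ / 8 := by ring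

theorem extremal (η₀ C₄ : ℝ) (hη : 0 < η₀) (hC : 1 ≤ C₄) : ∃ L c₅ c₆ C₇ : ℝ, 0 < c₅ ∧ 0 < c₆ ∧
    0 < C₇ ∧ ∀ {Q : Type} [Fintype Q] (μ : Measure (Q → ℝ)), IsKS μ → ∀ σ : ℝ, L ≤ σ →
    (∀ x y, V μ x y ≤ C₄ * (σ ^ 2 + σ * |M μ x y|)) → ∀ z₁ z₂ : Q, Deep μ z₁ (2 * σ) →
    d μ z₁ z₂ = σ → η₀ ^ 2 * σ ^ 2 < V μ z₁ z₂ →
    ∃ z, (z = z₁ ∨ z = z₂) ∧ ∃ X₀ : Finset Q, c₅ * σ ≤ X₀.card ∧
      ∀ x ∈ X₀, c₆ * σ ^ 2 ≤ V μ x z ∧ |M μ x z| ≤ C₇ * σ := by
  refine ⟨96, 1 / 16, η₀ ^ 2 / 2, 10 ^ 8 * C₄ ^ 2 + 1, by norm_num, by positivity, by positivity,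
    ?_⟩
  intro Q _ μ h σ hσ hV z₁ z₂ hd hdσ hVσ
  have := h.prob
  classical
  have hσ0 : 0 < σ := by linarith
  set A : ℝ := 10 ^ 8 * C₄ ^ 2 with hA
  have hsum := extr_sum_ge h z₁ σ hσ hd
  have hfar := extr_far h C₄ σ hC (by linarith) z₁ (fun x => hV x z₁)
  rw [← hA] at hfar
  set F := Finset.univ.filter (fun x : Q => A * σ ≤ |M μ x z₁|) with hF
  set G := Finset.univ.filter (fun x : Q => ¬ A * σ ≤ |M μ x z₁|) with hG
  have hsplit : ∑ x : Q, μ.real {S | x ≠ z₁ ∧ 0 < D x z₁ S ∧ D x z₁ S < σ} =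
      ∑ x ∈ F, μ.real {S | x ≠ z₁ ∧ 0 < D x z₁ S ∧ D x z₁ S < σ} +
      ∑ x ∈ G, μ.real {S | x ≠ z₁ ∧ 0 < D x z₁ S ∧ D x z₁ S < σ} := by
    rw [hF, hG, Finset.sum_filter_add_sum_filter_not]
  have hnear : ∑ x ∈ G, μ.real {S | x ≠ z₁ ∧ 0 < D x z₁ S ∧ D x z₁ S < σ} ≤ (G.card : ℝ) := by
    calc ∑ x ∈ G, μ.real {S | x ≠ z₁ ∧ 0 < D x z₁ S ∧ D x z₁ S < σ}
        ≤ ∑ x ∈ G, (1 : ℝ) := Finset.sum_le_sum (fun x _ => measureReal_le_one)
      _ = (G.card : ℝ) := by simp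
  have hGc : σ / 8 ≤ (G.card : ℝ) := by linarith
  set G₁ := G.filter (fun x => η₀ ^ 2 / 2 * σ ^ 2 ≤ V μ x z₁) with hG₁
  set G₂ := G.filter (fun x => ¬ η₀ ^ 2 / 2 * σ ^ 2 ≤ V μ x z₁) with hG₂
  have hcard : (G₁.card : ℝ) + (G₂.card : ℝ) = (G.card : ℝ) := by
    have := Finset.card_filter_add_card_filter_not (s := G)
      (fun x : Q => η₀ ^ 2 / 2 * σ ^ 2 ≤ V μ x z₁)
    rw [hG₁, hG₂, ← this]
    push_cast
    rfl
  have hGM : ∀ x ∈ G, |M μ x z₁| ≤ A * σ := by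
    intro x hx
    rw [hG, Finset.mem_filter] at hx
    linarith [not_le.mp hx.2]
  rcases le_or_gt (σ / 16) (G₁.card : ℝ) with h1 | h1
  · refine ⟨z₁, Or.inl rfl, G₁, by linarith, ?_⟩
    intro x hx
    rw [hG₁, Finset.mem_filter] at hx
    refine ⟨hx.2, ?_⟩
    have := hGM x hx.1
    linarith
  · refine ⟨z₂, Or.inr rfl, G₂, by linarith, ?_⟩
    intro x hx
    rw [hG₂, Finset.mem_filter] at hx
    have h2 := h.V_tri z₁ x z₂
    rw [V_symm μ z₁ x] at h2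
    have h3 := not_le.mp hx.2
    refine ⟨by linarith, ?_⟩
    have h4 := hGM x hx.1
    have h5 := h.M_add x z₁ z₂
    have h6 : |M μ x z₂| ≤ |M μ x z₁| + |M μ z₁ z₂| := by
      rw [← h5]; exact abs_add_le _ _
    have h7 := h.abs_M_le_d z₁ z₂
    linarith

end KS
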