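import Mathlib

/-! Module K0 (helper42): the piecewise linear stretching of the line. -/

set_option autoImplicit false

namespace KS

open MeasureTheory Set
open scoped ENNReal

/-- the function `t ↦ t - p` cut off at `0` and `l` -/
noncomputable def clampF (p l t : ℝ) : ℝ := max 0 (min (t - p) l)

theorem clampF_continuous (p l : ℝ) : Continuous (clampF p l) := by
  unfold clampF
  fun_prop

theorem clampF_of_le {p l t : ℝ} (hl : 0 < l) (h : t ≤ p) : clampF p l t = 0 := by
  unfold clampF
  rw [min_eq_left (by linarith), max_eq_left (by linarith)]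

theorem clampF_of_mid {p l t : ℝ} (h1 : p ≤ t) (h2 : t ≤ p + l) : clampF p l t = t - p := by
  unfold clampF
  rw [min_eq_left (by linarith), max_eq_right (by linarith)]

theorem clampF_of_ge {p l t : ℝ} (hl : 0 < l) (h : p + l ≤ t) : clampF p l t = l := by
  unfold clampF
  rw [min_eq_right (by linarith), max_eq_right hl.le]

theorem clampF_mono {p l s t : ℝ} (h : s ≤ t) : clampF p l s ≤ clampF p l t := by
  unfold clampF
  exact max_le_max le_rfl (min_le_min (by linarith) le_rfl)

theorem clampF_lip {p l s t : ℝ} (h : s ≤ t) : clampF p l t ≤ clampF p l s + (t - s) := by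
  unfold clampF
  rcases le_total (t - p) l with h1 | h1 <;> rcases le_total (s - p) l with h2 | h2 <;>
  rcases le_total 0 (min (t - p) l) with h3 | h3 <;> rcases le_total 0 (min (s - p) l) with h4 | h4 <;>
  simp only [max_eq_left, max_eq_right, h3, h4] <;>
  simp only [min_eq_left, min_eq_right, h1, h2] at h3 h4 ⊢ <;> linarith

theorem clampF_hasDerivAt {p l t : ℝ} (hl : 0 < l) (h1 : t ≠ p) (h2 : t ≠ p + l) :
    HasDerivAt (clampF p l) (if p < t ∧ t ≤ p + l then 1 else 0) t := by
  rcases lt_or_gt_of_ne h1 with h | h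
  · rw [if_neg (by intro hh; linarith [hh.1])]
    refine (hasDerivAt_const t (0 : ℝ)).congr_of_eventuallyEq ?_
    filter_upwards [Iio_mem_nhds h] with s hs
    exact clampF_of_le hl (le_of_lt hs)
  · rcases lt_or_gt_of_ne h2 with h' | h'
    · rw [if_pos ⟨h, h'.le⟩]
      refine ((hasDerivAt_id t).sub_const p).congr_of_eventuallyEq ?_
      filter_upwards [Ioi_mem_nhds h, Iio_mem_nhds h'] with s hs hs'
      exact clampF_of_mid (le_of_lt hs) (le_of_lt hs')
    · rw [if_neg (by intro hh; linarith [hh.2])]
      refine (hasDerivAt_const t l).congr_of_eventuallyEq ?_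
      filter_upwards [Ioi_mem_nhds h'] with s hs
      exact clampF_of_ge hl (le_of_lt hs)

open Classical in
theorem stretch_map (b l m h : ℝ) (hl : 0 < l) (hm : 0 ≤ m) (hh : 0 ≤ h) (hhl : h < l) :
    ∃ ψ : ℝ → ℝ, ∃ J : ℝ → ℝ≥0∞, Measurable ψ ∧ Measurable J ∧ StrictMono ψ ∧
      (volume.withDensity J).map ψ = volume ∧ (∀ t, t ≤ ψ t) ∧ (∀ t, t ≤ b → ψ t = t) ∧
      (∀ t, b + l ≤ t → t ≤ b + l + m → ψ t = t + h) ∧ (∀ t, b + 2 * l + m ≤ t → ψ t = t) ∧
      (∀ t, J t = if b < t ∧ t ≤ b + l then ENNReal.ofReal (1 + h / l) else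
        if b + l + m < t ∧ t ≤ b + 2 * l + m then ENNReal.ofReal (1 - h / l) else 1) := by
  obtain ⟨r, hr⟩ : ∃ r, r = h / l := ⟨_, rfl⟩
  have hr0 : 0 ≤ r := by rw [hr]; positivity
  have hr1 : r < 1 := by rw [hr, div_lt_one hl]; exact hhl
  have hrl : r * l = h := by rw [hr]; field_simp
  set ψ : ℝ → ℝ := fun t => t + r * clampF b l t - r * clampF (b + l + m) l t with hψ
  set Jr : ℝ → ℝ := fun t => 1 + r * (if b < t ∧ t ≤ b + l then 1 else 0) -
    r * (if b + l + m < t ∧ t ≤ b + l + m + l then 1 else 0) with hJr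
  have hJmeas : Measurable Jr := by
    have m1 : MeasurableSet {t : ℝ | b < t ∧ t ≤ b + l} := measurableSet_Ioc
    have m2 : MeasurableSet {t : ℝ | b + l + m < t ∧ t ≤ b + l + m + l} := measurableSet_Ioc
    exact (measurable_const.add ((Measurable.ite m1 measurable_const measurable_const).const_mul r)).sub
      ((Measurable.ite m2 measurable_const measurable_const).const_mul r)
  have hcont : Continuous ψ :=
    (continuous_id.add (continuous_const.mul (clampF_continuous _ _))).sub
      (continuous_const.mul (clampF_continuous _ _))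
  have hmono : StrictMono ψ := by
    intro s t hst
    have h1 := clampF_mono (p := b) (l := l) hst.le
    have h2 := clampF_lip (p := b + l + m) (l := l) hst.le
    simp only [hψ]
    nlinarith
  have hJ0 : ∀ t, 0 ≤ Jr t := by
    intro t
    simp only [hJr]
    split_ifs <;> nlinarith
  have hJ2 : ∀ t, Jr t ≤ 2 := by
    intro t
    simp only [hJr]
    split_ifs <;> nlinarith
  have hint : ∀ s t : ℝ, IntervalIntegrable Jr volume s t := by
    intro s t
    refine (intervalIntegrable_const (c := (2 : ℝ))).mono_fun' hJmeas.aestronglyMeasurable ?_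
    filter_upwards with x
    rw [Real.norm_eq_abs, abs_of_nonneg (hJ0 x)]
    exact hJ2 x
  have hftc : ∀ s t : ℝ, s ≤ t → ∫ x in s..t, Jr x = ψ t - ψ s := by
    intro s t hst
    refine MeasureTheory.integral_eq_of_hasDerivAt_off_countable_of_le ψ Jr hst
      (s := {b, b + l, b + l + m, b + l + m + l}) (by simp) hcont.continuousOn ?_ (hint s t)
    intro x hx
    have hx2 := hx.2
    simp only [Set.mem_insert_iff, Set.mem_singleton_iff, not_or] at hx2
    exact ((hasDerivAt_id x).add ((clampF_hasDerivAt hl hx2.1 hx2.2.1).const_mul r)).sub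
      ((clampF_hasDerivAt hl hx2.2.2.1 hx2.2.2.2).const_mul r)
  have hlow : ∀ t, t ≤ b → ψ t = t := by
    intro t ht
    simp only [hψ]
    rw [clampF_of_le hl ht, clampF_of_le hl (by linarith)]
    ring
  have hhigh : ∀ t, b + 2 * l + m ≤ t → ψ t = t := by
    intro t ht
    simp only [hψ]
    rw [clampF_of_ge hl (by linarith), clampF_of_ge hl (by linarith)]
    ring
  have hsurj : Function.Surjective ψ := by
    apply hcont.surjective
    · refine Filter.tendsto_id.congr' ?_
      filter_upwards [Filter.eventually_ge_atTop (b + 2 * l + m)] with t ht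
      exact (hhigh t ht).symm
    · refine Filter.tendsto_id.congr' ?_
      filter_upwards [Filter.eventually_le_atBot b] with t ht
      exact (hlow t ht).symm
  refine ⟨ψ, fun t => ENNReal.ofReal (Jr t), hcont.measurable, hJmeas.ennreal_ofReal, hmono, ?_, ?_,
    hlow, ?_, hhigh, ?_⟩
  · symm
    apply Measure.ext_of_Ioc
    intro c d hcd
    obtain ⟨s, rfl⟩ := hsurj c
    obtain ⟨t, rfl⟩ := hsurj d
    have hst : s < t := hmono.lt_iff_lt.1 hcd
    rw [Measure.map_apply hcont.measurable measurableSet_Ioc]
    have hpre : ψ ⁻¹' (Ioc (ψ s) (ψ t)) = Ioc s t := by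
      ext x
      simp [hmono.lt_iff_lt, hmono.le_iff_le]
    rw [hpre, withDensity_apply _ measurableSet_Ioc, Real.volume_Ioc, ← hftc s t hst.le,
      intervalIntegral.integral_of_le hst.le, ofReal_integral_eq_lintegral_ofReal]
    · exact (hint s t).1
    · filter_upwards with x using hJ0 x
  · intro t
    simp only [hψ]
    have h1 : clampF (b + l + m) l t ≤ clampF b l t := by
      unfold clampF
      exact max_le_max le_rfl (min_le_min (by linarith) le_rfl)
    nlinarith
  · intro t h1 h2
    simp only [hψ]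
    rw [clampF_of_ge hl h1, clampF_of_le hl h2]
    linarith
  · intro t
    simp only [hJr]
    rw [← hr]
    by_cases h1 : b < t ∧ t ≤ b + l
    · rw [if_pos h1, if_pos h1, if_neg (by intro hh; linarith [hh.1, h1.2])]
      congr 1
      ring
    · rw [if_neg h1, if_neg h1]
      by_cases h2 : b + l + m < t ∧ t ≤ b + l + m + l
      · rw [if_pos h2, if_pos ⟨h2.1, by linarith [h2.2]⟩]
        congr 1
        ring
      · rw [if_neg h2, if_neg (by intro hh; exact h2 ⟨hh.1, by linarith [hh.2]⟩)]
        simp

end KS
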