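import Pool.Agent.Lib.MP_c534e4_co.Density
import Pool.Agent.Lib.MP_c534e4_co.Basic
import Pool.Agent.Lib.MP_c534e4_co.Stretch
import Pool.Agent.Lib.MP_c534e4_co.H64.Core

/-! Module K: a rigid model has no incomparable elements far apart. -/

set_option autoImplicit false

namespace KS

open MeasureTheory Set ProbabilityTheory
open scoped ENNReal

theorem partII (C : ℝ) (hC : 1 ≤ C) : ∃ Λ : ℝ, ∀ {Q : Type} [Fintype Q] [PartialOrder Q]
    [BoundedOrder Q], (∀ x y : Q, V (ks Q) x y ≤ C * (1 + |M (ks Q) x y|)) →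
    (∀ z : Q, (∀ y, M (ks Q) y z ≤ 0) ∨ ∃ y, 0 < M (ks Q) y z ∧ M (ks Q) y z ≤ C) →
    ∀ x₁ x₂ : Q, ¬ x₁ ≤ x₂ → Λ ≤ M (ks Q) x₂ x₁ → False := by
  classical
  -- number of windows
  obtain ⟨q, hq⟩ : ∃ q : ℕ, 16 * (20 * (1 + C)) * ch C ≤ q := exists_nat_ge _
  refine ⟨1 + (q + 3) * (cL C ^ 2 + 64 * C * cL C) + 1, ?_⟩
  intro Q _ _ _ hV hgap x₁ x₂ hx hM
  have hr : Rigid (ks Q) C := ⟨isKS_ks, hC, hV⟩
  have hG := cg_pos C hC
  have hf := cf_pos C hC
  have hh := ch_ge C hC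
  obtain ⟨L1, L2, L3, L4, L5, L0, LL, hml, hhl⟩ := L_facts C (cg C) (Rigid.cf C) (ch C) (cL C) hC hG hf
    hh rfl
  set L := cL C with hLd
  set l := L ^ 2 with hl
  set m := 64 * C * L with hm
  have hlp : 0 < l := by positivity
  have hmp : 0 < m := by positivity
  have hCd : 0 < 20 * (1 + C) := by positivity
  have hq0 : 0 < q := by
    have h1 : (0 : ℝ) < q := lt_of_lt_of_le (by positivity) hq
    exact_mod_cast h1
  set U : Finset Q := Finset.univ.filter (fun x => x₁ ≤ x) with hUdef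
  have hUmem : ∀ x, x ∈ U ↔ x₁ ≤ x := fun x => by rw [hUdef, Finset.mem_filter]; simp
  -- windows
  set a : ℕ → ℝ := fun j => 1 + j * (l + m) with ha
  set n : ℕ → ℝ := fun j =>
    ((U.filter fun x => a j < M (ks Q) x x₁ ∧ M (ks Q) x x₁ ≤ a j + l).card : ℝ) with hn
  have hnle : ∀ j, n j ≤ 20 * (1 + C) * (l + 1) := by
    intro j
    refine le_trans ?_ (hr.card_interval x₁ (a j) l hlp.le)
    apply Nat.cast_le.2
    apply Finset.card_le_card
    intro x hx'
    rw [Finset.mem_filter] at hx' ⊢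
    exact ⟨Finset.mem_univ _, hx'.2.1.le, hx'.2.2⟩
  have hnle2 : ∀ j, n j ≤ 2 * (20 * (1 + C)) * l := by
    intro j
    refine (hnle j).trans ?_
    have h1 : 1 ≤ l := by linarith
    have : 20 * (1 + C) * 1 ≤ 20 * (1 + C) * l := mul_le_mul_of_nonneg_left h1 hCd.le
    linarith
  obtain ⟨j, hjq, hj⟩ := exists_small_step n q hq0 (2 * (20 * (1 + C)) * l) (by
    have h0 : 0 ≤ n 0 := Nat.cast_nonneg _
    linarith [hnle2 q])
  have hjq' : (j : ℝ) + 1 ≤ q := by exact_mod_cast hjq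
  have haj : a j + (l + m) ≤ 1 + q * (l + m) := by
    rw [ha]
    have : ((j : ℝ) + 1) * (l + m) ≤ q * (l + m) := mul_le_mul_of_nonneg_right hjq' (by positivity)
    linarith
  have haj0 : 1 ≤ a j := by
    rw [ha]
    have : 0 ≤ (j : ℝ) * (l + m) := by positivity
    linarith
  have haj1 : a (j + 1) = a j + l + m := by
    rw [ha]
    push_cast
    ring
  -- the three reference elements
  obtain ⟨y, hyU, hy1, hy2⟩ := cover_dn C hr hgap x₁ x₂ hx (a j) (by linarith) (by nlinarith)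
  obtain ⟨z, hzU, hz1, hz2⟩ := cover_up C hr hgap x₁ x₂ hx (a j + l + m / 2) (by positivity)
    (by nlinarith)
  obtain ⟨y₀, hy₀U, hy01, hy02⟩ := cover_dn C hr hgap x₁ x₂ hx (a j + l + m / 2) (by positivity)
    (by nlinarith)
  have hMy : ∀ x, M (ks Q) x y = M (ks Q) x x₁ - M (ks Q) y x₁ := by
    intro x
    have h1 := hr.isKS.M_add x y x₁
    linarith
  have hMy₀ : M (ks Q) z y₀ = M (ks Q) z x₁ - M (ks Q) y₀ x₁ := by
    have h1 := hr.isKS.M_add z y₀ x₁
    linarith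
  have hm2 : m / 2 = 32 * C * L := by rw [hm]; ring
  -- the bounds for the counts
  have e1 : (U.filter fun x => (a j - M (ks Q) y x₁) < M (ks Q) x y ∧
      M (ks Q) x y ≤ (a j - M (ks Q) y x₁) + l) =
      U.filter fun x => a j < M (ks Q) x x₁ ∧ M (ks Q) x x₁ ≤ a j + l := by
    apply Finset.filter_congr
    intro x _
    rw [hMy]
    constructor
    · rintro ⟨h1, h2⟩
      exact ⟨by linarith, by linarith⟩
    · rintro ⟨h1, h2⟩
      exact ⟨by linarith, by linarith⟩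
  have e2 : (U.filter fun x => (a j - M (ks Q) y x₁) + l + m < M (ks Q) x y ∧
      M (ks Q) x y ≤ (a j - M (ks Q) y x₁) + 2 * l + m) =
      U.filter fun x => a (j + 1) < M (ks Q) x x₁ ∧ M (ks Q) x x₁ ≤ a (j + 1) + l := by
    apply Finset.filter_congr
    intro x _
    rw [hMy, haj1]
    constructor
    · rintro ⟨h1, h2⟩
      exact ⟨by linarith, by linarith⟩
    · rintro ⟨h1, h2⟩
      exact ⟨by linarith, by linarith⟩
  have hstep : n (j + 1) - n j ≤ l / (8 * ch C) := by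
    refine hj.trans ?_
    have hq' : (0 : ℝ) < q := by exact_mod_cast hq0
    rw [div_le_div_iff₀ hq' (by positivity)]
    have := mul_le_mul_of_nonneg_left hq hlp.le
    linarith
  refine stretch_contra C hr U ?_ y z y₀ ?_ ?_ ?_ ?_ (a j - M (ks Q) y x₁) (by linarith)
    (by linarith) ?_ ?_ ?_ ?_ ?_ ?_ ?_
  · intro p r hpr hp
    rw [hUmem] at hp ⊢
    exact hp.trans hpr
  · rw [hUmem]
    exact hyU
  · rw [hUmem]
    exact hzU
  · rw [hUmem]
    exact hy₀U
  · rw [hUmem]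
    intro h
    exact hx (h.trans bot_le)
  · rw [hMy]
    linarith
  · rw [hMy]
    linarith
  · rw [hMy₀]
    linarith
  · rw [hMy₀]
    linarith
  · have h1 := ks_M_top_nonneg x₂
    have h2 := hr.isKS.M_add ⊤ x₂ x₁
    rw [hMy]
    nlinarith
  · rw [e1, e2]
    exact hstep
  · rw [e2]
    exact hnle2 (j + 1)

end KS
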