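import Pool.Agent.Lib.MP_c534e4_co.Rigidity
import Pool.Agent.Lib.MP_c534e4_co.PartII
import Pool.Agent.Lib.MP_c534e4_co.Ext

/-! The Kahn–Saks conjecture (owner helper26). -/

set_option autoImplicit false

namespace KS

open MeasureTheory Set

theorem kahn_saks (ε : ℝ) (hε : 0 < ε) : ∃ W : ℕ, ∀ (α : Type) [Fintype α] [PartialOrder α],
      (∃ s : Finset α, IsAntichain (· ≤ ·) (↑s : Set α) ∧ W ≤ s.card) →
      ∃ x y : α,
        (1 / 2 - ε) * ((Nat.card {σ : α ≃ Fin (Fintype.card α) // StrictMono ⇑σ} : ℕ) : ℝ)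
          ≤ ((Nat.card {σ : α ≃ Fin (Fintype.card α) // StrictMono ⇑σ ∧ σ x < σ y} : ℕ) : ℝ) ∧
        (1 / 2 - ε) * ((Nat.card {σ : α ≃ Fin (Fintype.card α) // StrictMono ⇑σ} : ℕ) : ℝ)
          ≤ ((Nat.card {σ : α ≃ Fin (Fintype.card α) // StrictMono ⇑σ ∧ σ y < σ x} : ℕ) : ℝ) := by
  classical
  obtain ⟨ε', hε', hε'1, hε'2⟩ : ∃ ε' : ℝ, 0 < ε' ∧ ε' ≤ ε ∧ ε' ≤ 1 / 2 :=
    ⟨min ε (1 / 2), lt_min hε (by norm_num), min_le_left _ _, min_le_right _ _⟩
  obtain ⟨C, R, hC, hR, hrig⟩ := rigidity ε' hε'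
  obtain ⟨Λ, hΛ⟩ := partII C hC
  set Λ' : ℝ := max Λ 1 with hΛ'
  have hΛ'1 : 1 ≤ Λ' := le_max_right _ _
  set r : ℝ := Λ' + Real.sqrt (C * (1 + Λ')) with hr
  have hr0 : 0 ≤ r := by positivity
  refine ⟨⌈20 * (r + 1)⌉₊ + 1, ?_⟩
  rintro α _ _ ⟨s, hs, hW⟩
  by_contra hcon
  push Not at hcon
  set N : ℝ := ((Nat.card {σ : α ≃ Fin (Fintype.card α) // StrictMono ⇑σ} : ℕ) : ℝ) with hN
  obtain ⟨Q, iF, iP, iB, ι, core, hι, hcmp, hprob, hcore, hdiam⟩ :=
    exists_ext α (max (4 * ((Fintype.card α : ℝ) + 2)) (R * (Fintype.card α + 1))) (le_max_left _ _)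
  have hιinj : Function.Injective ι := by
    intro a b hab
    exact le_antisymm ((hι a b).1 hab.le) ((hι b a).1 hab.ge)
  have hks : IsKS (ks Q) := isKS_ks
  have := hks.prob
  -- sum of the two probabilities
  have hsum : ∀ x y : Q, x ≠ y → 1 ≤ (ks Q).real {S | S x < S y} + (ks Q).real {S | S y < S x} := by
    intro x y hxy
    refine le_trans ?_ (measureReal_union_le _ _)
    have h1 : ∀ᵐ S ∂(ks Q), S ∈ {S : Q → ℝ | S x < S y} ∪ {S | S y < S x} := by
      filter_upwards [ks_injective (Q := Q)] with S hS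
      rcases lt_trichotomy (S x) (S y) with h | h | h
      · exact Or.inl h
      · exact absurd (hS h) hxy
      · exact Or.inr h
    have h2 : (ks Q) ({S : Q → ℝ | S x < S y} ∪ {S | S y < S x}) = 1 := by
      have h3 : ({S : Q → ℝ | S x < S y} ∪ {S | S y < S x} : Set (Q → ℝ)) =ᵐ[ks Q] Set.univ :=
        Filter.eventuallyEq_univ.2 h1
      rw [measure_congr h3, measure_univ]
    rw [measureReal_def, h2]
    simp
  have hlt1 : ∀ x y : Q, x < y → (ks Q).real {S | S x < S y} = 1 := by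
    intro x y hxy
    have h1 : ∀ᵐ S ∂(ks Q), S ∈ {S : Q → ℝ | S x < S y} := by
      filter_upwards [ks_strictMono (Q := Q)] with S hS
      exact hS hxy
    have h2 : (ks Q) {S : Q → ℝ | S x < S y} = 1 := by
      have h3 : ({S : Q → ℝ | S x < S y} : Set (Q → ℝ)) =ᵐ[ks Q] Set.univ :=
        Filter.eventuallyEq_univ.2 h1
      rw [measure_congr h3, measure_univ]
    rw [measureReal_def, h2]
    simp
  have hbad : EpsBad (ks Q) ε' := by
    intro x y hxy
    rcases hcmp x y with h | h | ⟨a, b, rfl, rfl⟩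
    · left
      rw [hlt1 x y (lt_of_le_of_ne h hxy)]
      linarith
    · right
      rw [hlt1 y x (lt_of_le_of_ne h hxy.symm)]
      linarith
    · have hs1 := hsum _ _ hxy
      have p1 : (ks Q).real {S | S (ι a) < S (ι b)} * N =
        ((Nat.card {σ : α ≃ Fin (Fintype.card α) // StrictMono ⇑σ ∧ σ a < σ b} : ℕ) : ℝ) := hprob a b
      have p2 : (ks Q).real {S | S (ι b) < S (ι a)} * N =
        ((Nat.card {σ : α ≃ Fin (Fintype.card α) // StrictMono ⇑σ ∧ σ b < σ a} : ℕ) : ℝ) := hprob b a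
      by_cases hc : (1 / 2 - ε) * N ≤
          ((Nat.card {σ : α ≃ Fin (Fintype.card α) // StrictMono ⇑σ ∧ σ a < σ b} : ℕ) : ℝ)
      · have h3 := hcon a b hc
        left
        rw [← p2] at h3
        have hN0 : 0 < N := by
          refine lt_of_le_of_ne (Nat.cast_nonneg _) (fun h => ?_)
          rw [← h, mul_zero, mul_zero] at h3
          exact lt_irrefl _ h3
        have h4 := lt_of_mul_lt_mul_right h3 hN0.le
        linarith
      · push Not at hc
        right
        rw [← p1] at hc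
        have hN0 : 0 < N := by
          refine lt_of_le_of_ne (Nat.cast_nonneg _) (fun h => ?_)
          rw [← h, mul_zero, mul_zero] at hc
          exact lt_irrefl _ hc
        have h4 := lt_of_mul_lt_mul_right hc hN0.le
        linarith
  obtain ⟨hV, hgap⟩ := hrig (ks Q) hks hbad core _ hcore (by
    intro x hx y hy
    refine le_trans ?_ (le_max_right _ _)
    have := hdiam x hx y hy
    gcongr)
  -- the antichain
  have hsne : s.Nonempty := by
    rw [← Finset.card_pos]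
    omega
  obtain ⟨x1, hx1⟩ := hsne
  obtain ⟨a, has, had⟩ : ∃ a ∈ s, r < d (ks Q) (ι a) (ι x1) := by
    by_contra hno
    push Not at hno
    have hsub : s.image ι ⊆ Finset.univ.filter (fun x : Q => d (ks Q) x (ι x1) ≤ r) := by
      intro q hq
      obtain ⟨a, ha, rfl⟩ := Finset.mem_image.1 hq
      simp only [Finset.mem_filter, Finset.mem_univ, true_and]
      exact hno a ha
    have h1 := Finset.card_le_card hsub
    rw [Finset.card_image_of_injective _ hιinj] at h1
    have h2 := hks.card_le (ι x1) r hr0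
    have h3 : ((⌈20 * (r + 1)⌉₊ + 1 : ℕ) : ℝ) ≤ (s.card : ℝ) := by exact_mod_cast hW
    have h4 : (s.card : ℝ) ≤
      ((Finset.univ.filter (fun x : Q => d (ks Q) x (ι x1) ≤ r)).card : ℝ) := by exact_mod_cast h1
    have h5 := Nat.le_ceil (20 * (r + 1))
    push_cast at h3
    linarith
  have hM : Λ' < |M (ks Q) (ι a) (ι x1)| := by
    by_contra hno
    push Not at hno
    have h1 := hks.d_le (ι a) (ι x1)
    have h2 : Real.sqrt (V (ks Q) (ι a) (ι x1)) ≤ Real.sqrt (C * (1 + Λ')) := by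
      apply Real.sqrt_le_sqrt
      refine (hV _ _).trans ?_
      gcongr
    linarith
  have hne : a ≠ x1 := by
    rintro rfl
    rw [d_self] at had
    linarith
  have hna : ¬ ι x1 ≤ ι a := fun h => hs hx1 has hne.symm ((hι _ _).1 h)
  have hna' : ¬ ι a ≤ ι x1 := fun h => hs has hx1 hne ((hι _ _).1 h)
  rcases lt_abs.1 hM with h | h
  · exact hΛ hV hgap (ι x1) (ι a) hna (((le_max_left _ _).trans h.le))
  · rw [← M_symm] at h
    exact hΛ hV hgap (ι a) (ι x1) hna' (((le_max_left _ _).trans h.le))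

end KS
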