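import Pool.Agent.Lib.MP_c534e4_co.Basic

/-! (7.2) of the blueprint: the FKG product lemma (helper42). -/

set_option autoImplicit false

namespace KS

open MeasureTheory Set

/-- intersection with a set of coordinates below: one FKG step (meet) -/
theorem fkg_step_dn {Q : Type} [Fintype Q] {μ : Measure (Q → ℝ)} (h : IsKS μ) (z : Q)
    (A B C : Set (Q → ℝ)) (hA : MeasurableSet A) (hB : MeasurableSet B) (hC : MeasurableSet C)
    (hinf : ∀ S ∈ A, ∀ T ∈ B, S ⊓ T ∈ C) :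
    μ.real {S | pin z 0 S ∈ A} * μ.real {S | pin z 0 S ∈ B} ≤ μ.real {S | pin z 0 S ∈ C} := by
  haveI := h.prob
  have h1 := h.fft z 0 0 le_rfl A B C univ hA hB hC MeasurableSet.univ
    (fun S hS T hT _ _ => ⟨hinf S hS T hT, mem_univ _⟩)
  refine h1.trans ?_
  have h2 : μ.real {S | pin z 0 S ∈ (univ : Set (Q → ℝ))} ≤ 1 := measureReal_le_one
  have h3 : 0 ≤ μ.real {S | pin z 0 S ∈ C} := measureReal_nonneg
  nlinarith

theorem fkg_step_up {Q : Type} [Fintype Q] {μ : Measure (Q → ℝ)} (h : IsKS μ) (z : Q)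
    (A B C : Set (Q → ℝ)) (hA : MeasurableSet A) (hB : MeasurableSet B) (hC : MeasurableSet C)
    (hsup : ∀ S ∈ A, ∀ T ∈ B, S ⊔ T ∈ C) :
    μ.real {S | pin z 0 S ∈ A} * μ.real {S | pin z 0 S ∈ B} ≤ μ.real {S | pin z 0 S ∈ C} := by
  haveI := h.prob
  have h1 := h.fft z 0 0 le_rfl A B univ C hA hB MeasurableSet.univ hC
    (fun S hS T hT _ _ => ⟨mem_univ _, hsup S hS T hT⟩)
  refine h1.trans ?_
  have h2 : μ.real {S | pin z 0 S ∈ (univ : Set (Q → ℝ))} ≤ 1 := measureReal_le_one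
  have h3 : 0 ≤ μ.real {S | pin z 0 S ∈ C} := measureReal_nonneg
  nlinarith

theorem fkg_product {Q : Type} [Fintype Q] {μ : Measure (Q → ℝ)} (h : IsKS μ) (z : Q)
    (Kset : Set (Q → ℝ)) (hK : MeasurableSet Kset)
    (hinf : ∀ S ∈ Kset, ∀ T ∈ Kset, S ⊓ T ∈ Kset) (hsup : ∀ S ∈ Kset, ∀ T ∈ Kset, S ⊔ T ∈ Kset)
    (RD RU : Finset Q) (t a : ℝ) (ha : 0 ≤ a) (ha1 : a ≤ 1)
    (hij : ∀ i ∈ RD, ∀ j ∈ RU, a ≤ μ.real {S | pin z 0 S ∈ Kset ∧ pin z 0 S i ≤ -t ∧ t ≤ pin z 0 S j})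
    (hi : ∀ i ∈ RD, a ≤ μ.real {S | pin z 0 S ∈ Kset ∧ pin z 0 S i ≤ -t})
    (hj : ∀ j ∈ RU, a ≤ μ.real {S | pin z 0 S ∈ Kset ∧ t ≤ pin z 0 S j})
    (h0 : a ≤ μ.real {S | pin z 0 S ∈ Kset}) :
    a ^ ((RD.card + 1) * (RU.card + 1)) ≤
      μ.real {S | pin z 0 S ∈ Kset ∧ (∀ i ∈ RD, pin z 0 S i ≤ -t) ∧ (∀ j ∈ RU, t ≤ pin z 0 S j)} := by
  classical
  haveI := h.prob
  -- measurability of the sets involved
  have mle : ∀ i : Q, MeasurableSet {S : Q → ℝ | S i ≤ -t} := fun i =>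
    measurableSet_le (measurable_pi_apply i) measurable_const
  have mge : ∀ j : Q, MeasurableSet {S : Q → ℝ | t ≤ S j} := fun j =>
    measurableSet_le measurable_const (measurable_pi_apply j)
  have mIle : ∀ I : Finset Q, MeasurableSet {S : Q → ℝ | ∀ i ∈ I, S i ≤ -t} := fun I => by
    have : {S : Q → ℝ | ∀ i ∈ I, S i ≤ -t} = ⋂ i ∈ I, {S : Q → ℝ | S i ≤ -t} := by
      ext S; simp
    rw [this]; exact Finset.measurableSet_biInter _ (fun i _ => mle i)
  have mIge : ∀ J : Finset Q, MeasurableSet {S : Q → ℝ | ∀ j ∈ J, t ≤ S j} := fun J => by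
    have : {S : Q → ℝ | ∀ j ∈ J, t ≤ S j} = ⋂ j ∈ J, {S : Q → ℝ | t ≤ S j} := by
      ext S; simp
    rw [this]; exact Finset.measurableSet_biInter _ (fun i _ => mge i)
  -- first step: fix a finset `J` of at most one element above
  have step1 : ∀ J : Finset Q, (a ≤ μ.real {S | pin z 0 S ∈ Kset ∧ ∀ j ∈ J, t ≤ pin z 0 S j}) →
      (∀ i ∈ RD, a ≤ μ.real {S | pin z 0 S ∈ Kset ∧ pin z 0 S i ≤ -t ∧ ∀ j ∈ J, t ≤ pin z 0 S j}) →
      ∀ I : Finset Q, I ⊆ RD → a ^ (I.card + 1) ≤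
        μ.real {S | pin z 0 S ∈ Kset ∧ (∀ i ∈ I, pin z 0 S i ≤ -t) ∧ ∀ j ∈ J, t ≤ pin z 0 S j} := by
    intro J hJ0 hJi I
    induction I using Finset.induction_on with
    | empty =>
      intro _
      simpa using hJ0
    | insert i I hiI ih =>
      intro hsub
      have hI : I ⊆ RD := fun x hx => hsub (Finset.mem_insert_of_mem hx)
      have hiRD : i ∈ RD := hsub (Finset.mem_insert_self _ _)
      have e1 := ih hI
      have e2 := hJi i hiRD
      have key := fkg_step_dn h z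
        (Kset ∩ ({S : Q → ℝ | ∀ i ∈ I, S i ≤ -t} ∩ {S : Q → ℝ | ∀ j ∈ J, t ≤ S j}))
        (Kset ∩ ({S : Q → ℝ | S i ≤ -t} ∩ {S : Q → ℝ | ∀ j ∈ J, t ≤ S j}))
        (Kset ∩ ({S : Q → ℝ | ∀ i' ∈ insert i I, S i' ≤ -t} ∩ {S : Q → ℝ | ∀ j ∈ J, t ≤ S j}))
        (hK.inter ((mIle I).inter (mIge J))) (hK.inter ((mle i).inter (mIge J)))
        (hK.inter ((mIle _).inter (mIge J))) (by
          rintro S ⟨hS1, hS2, hS3⟩ T ⟨hT1, hT2, hT3⟩
          refine ⟨hinf S hS1 T hT1, ?_, ?_⟩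
          · intro i' hi'
            rcases Finset.mem_insert.1 hi' with rfl | hi'
            · exact (inf_le_right).trans hT2
            · exact (inf_le_left).trans (hS2 i' hi')
          · intro j hj'
            exact le_inf (hS3 j hj') (hT3 j hj'))
      rw [Finset.card_insert_of_notMem hiI, pow_succ]
      refine le_trans (mul_le_mul e1 e2 ha measureReal_nonneg) ?_
      exact key
  -- second step
  have hD0 : a ^ (RD.card + 1) ≤
      μ.real {S | pin z 0 S ∈ Kset ∧ (∀ i ∈ RD, pin z 0 S i ≤ -t)} := by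
    have := step1 ∅ (by simpa using h0) (by simpa using hi) RD (Finset.Subset.refl _)
    simpa using this
  have hDj : ∀ j ∈ RU, a ^ (RD.card + 1) ≤
      μ.real {S | pin z 0 S ∈ Kset ∧ (∀ i ∈ RD, pin z 0 S i ≤ -t) ∧ t ≤ pin z 0 S j} := by
    intro j hjU
    have := step1 {j} (by simpa using hj j hjU)
      (by intro i hiD; simpa using hij i hiD j hjU) RD (Finset.Subset.refl _)
    simpa using this
  have step2 : ∀ J : Finset Q, J ⊆ RU → (a ^ (RD.card + 1)) ^ (J.card + 1) ≤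
      μ.real {S | pin z 0 S ∈ Kset ∧ (∀ i ∈ RD, pin z 0 S i ≤ -t) ∧ ∀ j ∈ J, t ≤ pin z 0 S j} := by
    intro J
    induction J using Finset.induction_on with
    | empty =>
      intro _
      simpa using hD0
    | insert j J hjJ ih =>
      intro hsub
      have hJ : J ⊆ RU := fun x hx => hsub (Finset.mem_insert_of_mem hx)
      have hjU : j ∈ RU := hsub (Finset.mem_insert_self _ _)
      have e1 := ih hJ
      have e2 := hDj j hjU
      have key := fkg_step_up h z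
        (Kset ∩ ({S : Q → ℝ | ∀ i ∈ RD, S i ≤ -t} ∩ {S : Q → ℝ | ∀ j ∈ J, t ≤ S j}))
        (Kset ∩ ({S : Q → ℝ | ∀ i ∈ RD, S i ≤ -t} ∩ {S : Q → ℝ | t ≤ S j}))
        (Kset ∩ ({S : Q → ℝ | ∀ i ∈ RD, S i ≤ -t} ∩ {S : Q → ℝ | ∀ j' ∈ insert j J, t ≤ S j'}))
        (hK.inter ((mIle RD).inter (mIge J))) (hK.inter ((mIle RD).inter (mge j)))
        (hK.inter ((mIle RD).inter (mIge _))) (by
          rintro S ⟨hS1, hS2, hS3⟩ T ⟨hT1, hT2, hT3⟩
          refine ⟨hsup S hS1 T hT1, ?_, ?_⟩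
          · intro i hi'
            exact sup_le (hS2 i hi') (hT2 i hi')
          · intro j' hj'
            rcases Finset.mem_insert.1 hj' with rfl | hj'
            · exact le_trans hT3 le_sup_right
            · exact le_trans (hS3 j' hj') le_sup_left)
      rw [Finset.card_insert_of_notMem hjJ, pow_succ (a ^ (RD.card + 1))]
      refine le_trans (mul_le_mul e1 e2 (pow_nonneg ha _) measureReal_nonneg) ?_
      exact key
  rw [pow_mul]
  exact step2 RU (Finset.Subset.refl _)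

end KS
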