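import Pool.Agent.Lib.MP_c534e4_co.Basic

/-! Module E1 (owner helper49): gap lemma and growth of the variance.

All constants are explicit: `η₀ = 10⁻⁵`, `e = η₁² = 10⁻⁸`, `C' = 2·10⁷`, `e₂ = η₂² = 2·10⁻⁷`,
`C₄ = 2·10⁸`. -/

set_option autoImplicit false

namespace KS

open MeasureTheory Set

/-- (5.1) The relative smallness of the variances for all pairs. -/
theorem gap_V_all {Q : Type} [Fintype Q] {μ : Measure (Q → ℝ)} (h : IsKS μ) {core : Finset Q}
    {K : ℝ} (hc : Core μ core K) {σ : ℝ} (hσ : 1 ≤ σ)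
    (hV : ∀ x ∈ core, ∀ y ∈ core, σ < d μ x y → V μ x y ≤ (1 / 10 ^ 5) ^ 2 * (d μ x y) ^ 2)
    (x y : Q) : V μ x y ≤ 25001000 * σ ^ 2 + 2 / 10 ^ 8 * (M μ x y) ^ 2 := by
  obtain ⟨x', hx', y', hy', h1, h2⟩ := hc.tame x y
  have hσ2 : 1 ≤ σ ^ 2 := by nlinarith
  have h3 : V μ x' y' ≤ 1000 * σ ^ 2 + 1 / 10 ^ 8 * (M μ x' y') ^ 2 := by
    rcases le_or_gt (d μ x' y') σ with h4 | h4
    · have h5 := h.V_le x' y'
      have h6 : (d μ x' y') ^ 2 ≤ σ ^ 2 := pow_le_pow_left₀ (d_nonneg μ x' y') h4 2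
      nlinarith [sq_nonneg (M μ x' y')]
    · have h5 := hV x' hx' y' hy' h4
      have h6 := h.d_sq_le x' y'
      have h7 : V μ x' y' ≤ 1 / 10 ^ 10 * ((M μ x' y') ^ 2 + V μ x' y') := by
        calc V μ x' y' ≤ (1 / 10 ^ 5) ^ 2 * (d μ x' y') ^ 2 := h5
          _ ≤ (1 / 10 ^ 5) ^ 2 * ((M μ x' y') ^ 2 + V μ x' y') :=
            mul_le_mul_of_nonneg_left h6 (by positivity)
          _ = 1 / 10 ^ 10 * ((M μ x' y') ^ 2 + V μ x' y') := by norm_num
      nlinarith [sq_nonneg (M μ x' y')]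
  have h4 : (M μ x' y') ^ 2 ≤ (M μ x y) ^ 2 := sq_le_sq.mpr h1
  have h5 : |M μ x y| ≤ 25000000 + 1 / 10 ^ 8 * (M μ x y) ^ 2 := by
    have := sq_nonneg (|M μ x y| / 10 ^ 4 - 5000)
    have h6 : (M μ x y) ^ 2 = |M μ x y| ^ 2 := (sq_abs _).symm
    rw [h6]
    nlinarith
  nlinarith

/-- (5.2) Steps. -/
theorem gap_steps {Q : Type} [Fintype Q] {μ : Measure (Q → ℝ)} (h : IsKS μ) {g B : ℝ}
    (hg : 0 < g) (hB : 0 ≤ B)
    (hgap : ∀ z, (∀ y, M μ y z ≤ 0) ∨ ∃ y, 0 < M μ y z ∧ M μ y z ≤ g)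
    (hV : ∀ x y, |M μ x y| ≤ 2 * g → V μ x y ≤ B) :
    ∀ n : ℕ, ∀ x y, 0 ≤ M μ y x → M μ y x ≤ (n + 2) * g → V μ x y ≤ B * (n + 2) := by
  intro n
  induction n with
  | zero =>
    intro x y h1 h2
    have h3 : V μ x y ≤ B := by
      apply hV
      rw [M_symm μ y x, abs_neg, abs_of_nonneg h1]
      simpa using h2
    push_cast
    linarith
  | succ n ih =>
    intro x y h1 h2
    have hn : (0 : ℝ) ≤ n := Nat.cast_nonneg n
    rcases le_or_gt (M μ y x) (2 * g) with h3 | h3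
    · have h4 : V μ x y ≤ B := by
        apply hV
        rw [M_symm μ y x, abs_neg, abs_of_nonneg h1]
        exact h3
      push_cast
      nlinarith
    · -- the element `w` with maximal mean below `m_x + 2 g`
      classical
      set F : Finset Q := Finset.univ.filter (fun w : Q => M μ w x ≤ 2 * g) with hF
      have hne : F.Nonempty := ⟨x, by
        rw [hF, Finset.mem_filter]
        exact ⟨Finset.mem_univ _, by rw [M_self]; linarith⟩⟩
      obtain ⟨w, hwF, hw⟩ := Finset.exists_max_image F (fun w => M μ w x) hne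
      have hw2 : M μ w x ≤ 2 * g := by
        rw [hF, Finset.mem_filter] at hwF
        exact hwF.2
      have hyw : 0 < M μ y w := by
        have := h.M_add y w x
        linarith
      have hw1 : g < M μ w x := by
        by_contra hcon
        rw [not_lt] at hcon
        rcases hgap w with h4 | ⟨y', h4, h5⟩
        · linarith [h4 y]
        · have h6 := h.M_add y' w x
          have h7 : y' ∈ F := by
            rw [hF, Finset.mem_filter]
            exact ⟨Finset.mem_univ _, by linarith⟩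
          have h8 := hw y' h7
          linarith
      have h4 : V μ x w ≤ B := by
        apply hV
        rw [M_symm μ w x, abs_neg, abs_of_nonneg (by linarith)]
        exact hw2
      have h5 : V μ w y ≤ B * (n + 2) := by
        apply ih w y hyw.le
        have := h.M_add y w x
        push_cast at h2
        linarith
      have h6 := h.V_tri x w y
      push_cast
      linarith

theorem gap_steps' {Q : Type} [Fintype Q] {μ : Measure (Q → ℝ)} (h : IsKS μ) {g B : ℝ}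
    (hg : 0 < g) (hB : 0 ≤ B)
    (hgap : ∀ z, (∀ y, M μ y z ≤ 0) ∨ ∃ y, 0 < M μ y z ∧ M μ y z ≤ g)
    (hV : ∀ x y, |M μ x y| ≤ 2 * g → V μ x y ≤ B) (x y : Q) :
    V μ x y ≤ B * (|M μ x y| / g + 2) := by
  have key : ∀ x y : Q, 0 ≤ M μ y x → V μ x y ≤ B * (M μ y x / g + 2) := by
    intro x y hxy
    set t : ℝ := M μ y x / g with ht
    have ht0 : 0 ≤ t := div_nonneg hxy hg.le
    have htM : M μ y x = t * g := by
      rw [ht]; field_simp
    set n : ℕ := ⌈t⌉₊ - 1 with hn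
    rcases Nat.eq_zero_or_pos ⌈t⌉₊ with h0 | h0
    · have h1 : t ≤ 0 := by
        rw [Nat.ceil_eq_zero] at h0
        exact h0
      have h2 := gap_steps h hg hB hgap hV 0 x y hxy (by rw [htM]; push_cast; nlinarith)
      push_cast at h2
      nlinarith
    · have h1 : t ≤ (⌈t⌉₊ : ℝ) := Nat.le_ceil t
      have h2 : (⌈t⌉₊ : ℝ) < t + 1 := Nat.ceil_lt_add_one ht0
      have h3 : ((n : ℕ) : ℝ) = (⌈t⌉₊ : ℝ) - 1 := by
        rw [hn, Nat.cast_sub h0]
        simp
      have h4 := gap_steps h hg hB hgap hV n x y hxy (by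
        rw [htM, h3]
        have : t * g ≤ (⌈t⌉₊ : ℝ) * g := mul_le_mul_of_nonneg_right h1 hg.le
        linarith)
      rw [h3] at h4
      have h5 : B * ((⌈t⌉₊ : ℝ) - 1 + 2) ≤ B * (t + 2) :=
        mul_le_mul_of_nonneg_left (by linarith) hB
      linarith
  rcases le_total 0 (M μ y x) with h1 | h1
  · have h2 := key x y h1
    have h3 : |M μ x y| = M μ y x := by
      rw [M_symm μ y x, abs_neg, abs_of_nonneg h1]
    rw [h3]
    exact h2
  · have h2 : 0 ≤ M μ x y := by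
      rw [M_symm μ y x]; linarith
    have h3 := key y x h2
    rw [V_symm μ x y, abs_of_nonneg h2]
    exact h3

/-- Lower bound of the expected number of elements in the window `(g/3, 2g/3)` after `z`. -/
theorem gap_sum_ge {Q : Type} [Fintype Q] {μ : Measure (Q → ℝ)} (h : IsKS μ) (z : Q) (g K : ℝ)
    (hg : 20000 ≤ g) (hgK : g ≤ K) (hd : Deep μ z K) :
    g / 8 ≤ ∑ x : Q, μ.real {S | g / 3 < D x z S ∧ D x z S < 2 * g / 3} := by
  have := h.prob
  classical
  have h1 := hd.up_ge (2 * g / 3) (g / 24) (by linarith) (by linarith) (by linarith)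
  have h1' := hd.up_le (g / 3) (g / 24) (by linarith) (by linarith) (by linarith)
  have h2 : 8 * (2 * g / 3 + g / 24) / (g / 24) ^ 2 ≤ 1 / 4 := by
    rw [div_le_iff₀ (by positivity)]
    nlinarith
  have h2' : 8 * (g / 3 + g / 24) / (g / 24) ^ 2 ≤ 1 / 4 := by
    rw [div_le_iff₀ (by positivity)]
    nlinarith
  have hm : ∀ x : Q, MeasurableSet {S : Q → ℝ | g / 3 < D x z S ∧ D x z S < 2 * g / 3} := by
    intro x
    exact (measurableSet_lt measurable_const (measurable_D x z)).inter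
        (measurableSet_lt (measurable_D x z) measurable_const)
  set W : (Q → ℝ) → ℝ := fun S => ∑ x : Q,
    ({S : Q → ℝ | g / 3 < D x z S ∧ D x z S < 2 * g / 3}).indicator (fun _ => (1 : ℝ)) S with hW
  have hWc : ∀ S, W S = ((Finset.univ.filter
      (fun x : Q => g / 3 < D x z S ∧ D x z S < 2 * g / 3)).card : ℝ) := by
    intro S
    rw [hW, Finset.card_filter]
    push_cast
    apply Finset.sum_congr rfl
    intro x _
    simp [Set.indicator_apply]
  have hint : ∀ x : Q, Integrable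
      (({S : Q → ℝ | g / 3 < D x z S ∧ D x z S < 2 * g / 3}).indicator
        (fun _ => (1 : ℝ))) μ :=
    fun x => (integrable_const _).indicator (hm x)
  have hsum : ∫ S, W S ∂μ =
      ∑ x : Q, μ.real {S | g / 3 < D x z S ∧ D x z S < 2 * g / 3} := by
    rw [hW, integral_finsetSum _ (fun x _ => hint x)]
    apply Finset.sum_congr rfl
    intro x _
    rw [integral_indicator (hm x)]
    simp
  have hi : Integrable W μ := by
    rw [hW]
    exact integrable_finsetSum _ (fun x _ => hint x)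
  have hW0 : ∀ S, 0 ≤ W S := by
    intro S
    rw [hWc]
    exact Nat.cast_nonneg _
  have h3 := mul_meas_ge_le_integral_of_nonneg (μ := μ) (f := W)
    (Filter.Eventually.of_forall hW0) hi (g / 4)
  rw [hsum] at h3
  -- outside two small events, `W ≥ g / 4`
  have hcnt : ∀ S : Q → ℝ, (cnt z (fun t => 0 < t ∧ t < 2 * g / 3) S : ℝ) ≤
      (cnt z (fun t => 0 ≤ t ∧ t ≤ g / 3) S : ℝ) + W S := by
    intro S
    rw [hWc, cnt, cnt]
    have hsub : (Finset.univ.filter (fun x : Q => x ≠ z ∧ (0 < D x z S ∧ D x z S < 2 * g / 3))) ⊆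
        (Finset.univ.filter (fun x : Q => x ≠ z ∧ (0 ≤ D x z S ∧ D x z S ≤ g / 3))) ∪
        (Finset.univ.filter (fun x : Q => g / 3 < D x z S ∧ D x z S < 2 * g / 3)) := by
      intro x hx
      rw [Finset.mem_filter] at hx
      rw [Finset.mem_union, Finset.mem_filter, Finset.mem_filter]
      rcases le_or_gt (D x z S) (g / 3) with h5 | h5
      · left
        exact ⟨hx.1, hx.2.1, hx.2.2.1.le, h5⟩
      · right
        exact ⟨hx.1, h5, hx.2.2.2⟩
    have h5 := (Finset.card_le_card hsub).trans (Finset.card_union_le _ _)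
    exact_mod_cast h5
  have h4 : 1 ≤ μ.real {S | (cnt z (fun t => 0 < t ∧ t < 2 * g / 3) S : ℝ) < 2 * g / 3 - g / 24} +
      μ.real {S | g / 3 + g / 24 < (cnt z (fun t => 0 ≤ t ∧ t ≤ g / 3) S : ℝ)} +
      μ.real {S | g / 4 ≤ W S} := by
    have hu : (({S : Q → ℝ | (cnt z (fun t => 0 < t ∧ t < 2 * g / 3) S : ℝ) < 2 * g / 3 - g / 24} ∪
        {S : Q → ℝ | g / 3 + g / 24 < (cnt z (fun t => 0 ≤ t ∧ t ≤ g / 3) S : ℝ)}) ∪
        {S : Q → ℝ | g / 4 ≤ W S}) = Set.univ := by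
      ext S
      simp only [Set.mem_union, Set.mem_ofPred_eq, Set.mem_univ, iff_true]
      by_contra hcon
      push Not at hcon
      obtain ⟨⟨h5, h6⟩, h7⟩ := hcon
      have h8 := hcnt S
      linarith
    have h5 := measureReal_union_le (μ := μ)
      ({S : Q → ℝ | (cnt z (fun t => 0 < t ∧ t < 2 * g / 3) S : ℝ) < 2 * g / 3 - g / 24} ∪
        {S : Q → ℝ | g / 3 + g / 24 < (cnt z (fun t => 0 ≤ t ∧ t ≤ g / 3) S : ℝ)})
      {S : Q → ℝ | g / 4 ≤ W S}
    have h6 := measureReal_union_le (μ := μ)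
      {S : Q → ℝ | (cnt z (fun t => 0 < t ∧ t < 2 * g / 3) S : ℝ) < 2 * g / 3 - g / 24}
      {S : Q → ℝ | g / 3 + g / 24 < (cnt z (fun t => 0 ≤ t ∧ t ≤ g / 3) S : ℝ)}
    rw [hu] at h5
    have h7 : μ.real (Set.univ : Set (Q → ℝ)) = 1 := by simp
    linarith
  have h5 : 1 / 2 ≤ μ.real {S | g / 4 ≤ W S} := by
    linarith
  have h6 : g / 4 * (1 / 2) ≤ g / 4 * μ.real {S | g / 4 ≤ W S} :=
    mul_le_mul_of_nonneg_left h5 (by linarith)
  linarith

/-- One element: the probability of the window. -/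
theorem gap_one {Q : Type} [Fintype Q] {μ : Measure (Q → ℝ)} (h : IsKS μ) (x z : Q) (g : ℝ)
    (hg : 1 ≤ g) (hM : M μ x z ≤ 0 ∨ g ≤ M μ x z)
    (hV : V μ x z ≤ 4 / 10 ^ 7 * g * (|M μ x z| + g)) :
    μ.real {S | g / 3 < D x z S ∧ D x z S < 2 * g / 3} ≤
      3 / 10 ^ 6 * g ^ 3 / (|M μ x z| + g) ^ 3 := by
  have := h.prob
  set m := |M μ x z| with hm
  have hm0 : 0 ≤ m := abs_nonneg _
  have hs : 0 < m + g := by linarith
  have h1 : μ.real {S | g / 3 < D x z S ∧ D x z S < 2 * g / 3} ≤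
      μ.real {S | (m + g) / 6 ≤ |D x z S - M μ x z|} := by
    apply measureReal_mono _ (measure_ne_top _ _)
    rintro S ⟨h2, h3⟩
    simp only [Set.mem_ofPred_eq]
    rcases hM with h4 | h4
    · have h5 : m = - M μ x z := by rw [hm, abs_of_nonpos h4]
      rw [le_abs]
      left
      linarith
    · have h5 : m = M μ x z := by rw [hm, abs_of_nonneg (by linarith)]
      rw [le_abs]
      right
      linarith
  have h2 := h.tail_6 x z ((m + g) / 6) (by linarith)
  have h3 : (V μ x z) ^ 3 ≤ (4 / 10 ^ 7 * g * (m + g)) ^ 3 :=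
    pow_le_pow_left₀ (V_nonneg μ x z) hV 3
  have h4 : 10 ^ 9 * (V μ x z) ^ 3 / ((m + g) / 6) ^ 6 ≤
      10 ^ 9 * (4 / 10 ^ 7 * g * (m + g)) ^ 3 / ((m + g) / 6) ^ 6 := by
    gcongr
  have h5 : 10 ^ 9 * (4 / 10 ^ 7 * g * (m + g)) ^ 3 / ((m + g) / 6) ^ 6 =
      (10 ^ 9 * (4 / 10 ^ 7) ^ 3 * 6 ^ 6) * (g ^ 3 / (m + g) ^ 3) := by
    field_simp
  have h6 : (10 ^ 9 * (4 / 10 ^ 7) ^ 3 * 6 ^ 6 : ℝ) ≤ 3 / 10 ^ 6 := by norm_num
  have h7 : (10 ^ 9 * (4 / 10 ^ 7) ^ 3 * 6 ^ 6 : ℝ) * (g ^ 3 / (m + g) ^ 3) ≤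
      3 / 10 ^ 6 * (g ^ 3 / (m + g) ^ 3) :=
    mul_le_mul_of_nonneg_right h6 (by positivity)
  have h8 : 3 / 10 ^ 6 * g ^ 3 / (m + g) ^ 3 = 3 / 10 ^ 6 * (g ^ 3 / (m + g) ^ 3) :=
    mul_div_assoc _ _ _
  rw [h8]
  linarith

/-- `∑ 1/(i+1)² ≤ 2`. -/
theorem gap_sum_sq (n : ℕ) : ∑ i ∈ Finset.range n, (1 : ℝ) / ((i : ℝ) + 1) ^ 2 ≤ 2 := by
  have key : ∑ i ∈ Finset.range n, (1 : ℝ) / ((i : ℝ) + 1) ^ 2 ≤ 2 - 2 / ((n : ℝ) + 1) := by
    induction n with
    | zero => simp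
    | succ n ih =>
      rw [Finset.sum_range_succ]
      have hn : (0 : ℝ) ≤ n := Nat.cast_nonneg n
      have h1 : (1 : ℝ) / ((n : ℝ) + 1) ^ 2 ≤ 2 / ((n : ℝ) + 1) - 2 / ((n : ℝ) + 1 + 1) := by
        rw [div_sub_div _ _ (by positivity) (by positivity), div_le_div_iff₀ (by positivity)
          (by positivity)]
        nlinarith [mul_nonneg hn hn, mul_nonneg (mul_nonneg hn hn) hn]
      push_cast
      linarith
  have hn : (0 : ℝ) ≤ n := Nat.cast_nonneg n
  have : 0 ≤ 2 / ((n : ℝ) + 1) := by positivity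
  linarith

/-- Upper bound of the expected number of elements in the window. -/
theorem gap_sum_le {Q : Type} [Fintype Q] {μ : Measure (Q → ℝ)} (h : IsKS μ) (z : Q) (g : ℝ)
    (hg : 1 ≤ g) (hM : ∀ x, M μ x z ≤ 0 ∨ g ≤ M μ x z)
    (hV : ∀ x, V μ x z ≤ 4 / 10 ^ 7 * g * (|M μ x z| + g)) :
    ∑ x : Q, μ.real {S | g / 3 < D x z S ∧ D x z S < 2 * g / 3} ≤ 36 / 10 ^ 5 * g := by
  classical
  have hg0 : 0 < g := by linarith
  set k : Q → ℕ := fun x => ⌊|M μ x z| / g⌋₊ with hk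
  have hk1 : ∀ x, (k x : ℝ) * g ≤ |M μ x z| := by
    intro x
    have := Nat.floor_le (div_nonneg (abs_nonneg (M μ x z)) hg0.le)
    rwa [le_div_iff₀ hg0] at this
  have hk2 : ∀ x, |M μ x z| ≤ ((k x : ℝ) + 1) * g := by
    intro x
    have := (Nat.lt_floor_add_one (|M μ x z| / g)).le
    rwa [div_le_iff₀ hg0] at this
  set N := (Finset.univ : Finset Q).sup k with hN
  have hmaps : ∀ x ∈ (Finset.univ : Finset Q), k x ∈ Finset.range (N + 1) := by
    intro x hx
    rw [Finset.mem_range]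
    exact Nat.lt_succ_of_le (Finset.le_sup hx)
  rw [← Finset.sum_fiberwise_of_maps_to hmaps]
  have hterm : ∀ j ∈ Finset.range (N + 1),
      ∑ x ∈ Finset.univ with k x = j, μ.real {S | g / 3 < D x z S ∧ D x z S < 2 * g / 3} ≤
        18 / 10 ^ 5 * g * (1 / ((j : ℝ) + 1) ^ 2) := by
    intro j _
    have hj : (0 : ℝ) ≤ j := Nat.cast_nonneg j
    set t : ℝ := (j : ℝ) + 1 with ht
    have ht1 : 1 ≤ t := by linarith
    have ht0 : 0 < t := by linarith
    have h1 : ∀ x ∈ (Finset.univ : Finset Q).filter (fun x => k x = j),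
        μ.real {S | g / 3 < D x z S ∧ D x z S < 2 * g / 3} ≤ 3 / 10 ^ 6 / t ^ 3 := by
      intro x hx
      rw [Finset.mem_filter] at hx
      have hx1 := hk1 x
      rw [hx.2] at hx1
      have h2 := gap_one h x z g hg (hM x) (hV x)
      have h3 : t * g ≤ |M μ x z| + g := by
        rw [ht]; linarith
      have h4 : 3 / 10 ^ 6 * g ^ 3 / (|M μ x z| + g) ^ 3 ≤ 3 / 10 ^ 6 * g ^ 3 / (t * g) ^ 3 := by
        have : 0 < t * g := by positivity
        gcongr
      have h5 : 3 / 10 ^ 6 * g ^ 3 / (t * g) ^ 3 = 3 / 10 ^ 6 / t ^ 3 := by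
        field_simp
      linarith
    have h2 : (((Finset.univ : Finset Q).filter (fun x => k x = j)).card : ℝ) ≤ 60 * t * g := by
      have hs : (Finset.univ : Finset Q).filter (fun x => k x = j) ⊆
          Finset.univ.filter (fun x : Q => d μ x z ≤ 2 * (t * g)) := by
        intro x hx
        rw [Finset.mem_filter] at hx
        have hx1 := hk2 x
        rw [hx.2] at hx1
        simp only [Finset.mem_filter, Finset.mem_univ, true_and]
        have h3 := h.d_le x z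
        have h4 : Real.sqrt (V μ x z) ≤ t * g := by
          apply Real.sqrt_le_iff.mpr
          refine ⟨by positivity, ?_⟩
          have h5 := hV x
          have h6 : |M μ x z| + g ≤ 2 * (t * g) := by nlinarith
          have h7 : 4 / 10 ^ 7 * g * (|M μ x z| + g) ≤ 4 / 10 ^ 7 * g * (2 * (t * g)) :=
            mul_le_mul_of_nonneg_left h6 (by positivity)
          have h8 : g * (t * g) ≤ (t * g) * (t * g) :=
            mul_le_mul_of_nonneg_right (by nlinarith) (by positivity)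
          have h9 : 0 ≤ g * (t * g) := by positivity
          nlinarith
        linarith
      have h3 := h.card_le z (2 * (t * g)) (by positivity)
      have h4 : (((Finset.univ : Finset Q).filter (fun x => k x = j)).card : ℝ) ≤
          ((Finset.univ.filter (fun x : Q => d μ x z ≤ 2 * (t * g))).card : ℝ) := by
        exact_mod_cast Finset.card_le_card hs
      have h5 : 1 ≤ t * g := by nlinarith
      linarith
    have h3 : 0 ≤ 3 / 10 ^ 6 / t ^ 3 := by positivity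
    calc ∑ x ∈ Finset.univ with k x = j, μ.real {S | g / 3 < D x z S ∧ D x z S < 2 * g / 3}
        ≤ ∑ x ∈ (Finset.univ : Finset Q) with k x = j, 3 / 10 ^ 6 / t ^ 3 :=
          Finset.sum_le_sum h1
      _ = (((Finset.univ : Finset Q).filter (fun x => k x = j)).card : ℝ) *
            (3 / 10 ^ 6 / t ^ 3) := by
          rw [Finset.sum_const, nsmul_eq_mul]
      _ ≤ (60 * t * g) * (3 / 10 ^ 6 / t ^ 3) := mul_le_mul_of_nonneg_right h2 h3
      _ = 18 / 10 ^ 5 * g * (1 / t ^ 2) := by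
          field_simp
          norm_num
  calc ∑ j ∈ Finset.range (N + 1),
        ∑ x ∈ Finset.univ with k x = j, μ.real {S | g / 3 < D x z S ∧ D x z S < 2 * g / 3}
      ≤ ∑ j ∈ Finset.range (N + 1), 18 / 10 ^ 5 * g * (1 / ((j : ℝ) + 1) ^ 2) :=
        Finset.sum_le_sum hterm
    _ = 18 / 10 ^ 5 * g * ∑ j ∈ Finset.range (N + 1), 1 / ((j : ℝ) + 1) ^ 2 := by
        rw [Finset.mul_sum]
    _ ≤ 18 / 10 ^ 5 * g * 2 := by
        apply mul_le_mul_of_nonneg_left _ (by positivity)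
        exact gap_sum_sq (N + 1)
    _ = 36 / 10 ^ 5 * g := by ring

/-- (5.3) There are no large gaps. -/
theorem gap_no_large {Q : Type} [Fintype Q] {μ : Measure (Q → ℝ)} (h : IsKS μ) {core : Finset Q}
    {K : ℝ} (hc : Core μ core K) {σ : ℝ} (hσ : 1 ≤ σ)
    (hV : ∀ x y, V μ x y ≤ 25001000 * σ ^ 2 + 2 / 10 ^ 8 * (M μ x y) ^ 2) (z : Q) :
    (∀ y, M μ y z ≤ 0) ∨ ∃ y, 0 < M μ y z ∧ M μ y z ≤ 2 * 10 ^ 7 * σ := by
  classical
  -- consecutive pairs
  set P : Finset (Q × Q) := Finset.univ.filter (fun p : Q × Q => 0 < M μ p.2 p.1 ∧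
    ∀ y, 0 < M μ y p.1 → M μ p.2 p.1 ≤ M μ y p.1) with hP
  have hnext : ∀ z : Q, (∀ y, M μ y z ≤ 0) ∨ ∃ y, (z, y) ∈ P := by
    intro z
    by_cases h1 : ∃ y, 0 < M μ y z
    · right
      have hne : (Finset.univ.filter (fun y : Q => 0 < M μ y z)).Nonempty := by
        obtain ⟨y, hy⟩ := h1
        exact ⟨y, by rw [Finset.mem_filter]; exact ⟨Finset.mem_univ _, hy⟩⟩
      obtain ⟨y, hy, hmin⟩ := Finset.exists_min_image _ (fun y => M μ y z) hne
      refine ⟨y, ?_⟩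
      rw [hP, Finset.mem_filter]
      rw [Finset.mem_filter] at hy
      refine ⟨Finset.mem_univ _, hy.2, ?_⟩
      intro y' hy'
      exact hmin y' (by rw [Finset.mem_filter]; exact ⟨Finset.mem_univ _, hy'⟩)
    · left
      push Not at h1
      exact h1
  rcases hnext z with h1 | ⟨y, hy⟩
  · left; exact h1
  right
  have hPne : P.Nonempty := ⟨_, hy⟩
  obtain ⟨⟨z₀, y₀⟩, h₀, hmax⟩ := Finset.exists_max_image P (fun p => M μ p.2 p.1) hPne
  set g : ℝ := M μ y₀ z₀ with hgdef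
  have h₀' := h₀
  rw [hP, Finset.mem_filter] at h₀'
  obtain ⟨-, hg0, hgmin⟩ := h₀'
  simp only at hg0 hgmin
  have hgap : ∀ z, (∀ y, M μ y z ≤ 0) ∨ ∃ y, 0 < M μ y z ∧ M μ y z ≤ g := by
    intro z
    rcases hnext z with h2 | ⟨y, hy⟩
    · left; exact h2
    · right
      have h3 := hmax _ hy
      rw [hP, Finset.mem_filter] at hy
      exact ⟨y, hy.2.1, h3⟩
  have hbound : g ≤ 2 * 10 ^ 7 * σ := by
    by_contra hcon
    rw [not_le] at hcon
    have hg1 : 2 * 10 ^ 7 < g := by nlinarith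
    have hcore : z₀ ∈ core := by
      by_contra hz
      rcases hc.gap1 z₀ hz with h2 | ⟨y, h2, h3⟩
      · linarith [h2 y₀]
      · linarith [hgmin y h2]
    have hgK : g ≤ K / 4 := by
      rcases hc.gapK z₀ hcore with h2 | ⟨y, h2, h3⟩
      · linarith [h2 y₀]
      · linarith [hgmin y h2]
    have hdeep := hc.deep z₀ hcore
    -- the variance bound
    have hσg : 4 * 10 ^ 14 * σ ^ 2 ≤ g ^ 2 := by
      have h2 : (2 * 10 ^ 7 * σ) ^ 2 ≤ g ^ 2 := pow_le_pow_left₀ (by positivity) hcon.le 2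
      nlinarith
    have hB : ∀ x y, |M μ x y| ≤ 2 * g → V μ x y ≤ 2 / 10 ^ 7 * g ^ 2 := by
      intro x y hxy
      have h2 := hV x y
      have h3 : (M μ x y) ^ 2 ≤ (2 * g) ^ 2 := by
        rw [← sq_abs]
        exact pow_le_pow_left₀ (abs_nonneg _) hxy 2
      nlinarith
    have hVz : ∀ x, V μ x z₀ ≤ 4 / 10 ^ 7 * g * (|M μ x z₀| + g) := by
      intro x
      have h2 := gap_steps' h hg0 (by positivity) hgap hB x z₀
      have h3 : 2 / 10 ^ 7 * g ^ 2 * (|M μ x z₀| / g + 2) =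
          2 / 10 ^ 7 * g * (|M μ x z₀| + 2 * g) := by
        field_simp
      rw [h3] at h2
      have h4 : 2 / 10 ^ 7 * g * (|M μ x z₀| + 2 * g) ≤ 2 / 10 ^ 7 * g * (2 * (|M μ x z₀| + g)) := by
        apply mul_le_mul_of_nonneg_left _ (by positivity)
        have := abs_nonneg (M μ x z₀)
        linarith
      linarith
    have hMz : ∀ x, M μ x z₀ ≤ 0 ∨ g ≤ M μ x z₀ := by
      intro x
      rcases le_or_gt (M μ x z₀) 0 with h2 | h2
      · left; exact h2
      · right; exact hgmin x h2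
    have hup := gap_sum_le h z₀ g (by linarith) hMz hVz
    have hlow := gap_sum_ge h z₀ g K (by linarith) (by linarith) hdeep
    linarith
  have h2 := hmax _ hy
  simp only at h2
  rw [hP, Finset.mem_filter] at hy
  exact ⟨y, hy.2.1, h2.trans hbound⟩

theorem growth : ∃ η₀ C₄ : ℝ, 0 < η₀ ∧ 1 ≤ C₄ ∧ ∀ {Q : Type} [Fintype Q] (μ : Measure (Q → ℝ)),
    IsKS μ → ∀ (core : Finset Q) (K : ℝ), Core μ core K → ∀ σ : ℝ, 1 ≤ σ →
    (∀ x ∈ core, ∀ y ∈ core, σ < d μ x y → V μ x y ≤ η₀ ^ 2 * (d μ x y) ^ 2) →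
    (∀ x y, V μ x y ≤ C₄ * (σ ^ 2 + σ * |M μ x y|)) ∧
    (∀ z, (∀ y, M μ y z ≤ 0) ∨ ∃ y, 0 < M μ y z ∧ M μ y z ≤ C₄ * σ) := by
  refine ⟨1 / 10 ^ 5, 2 * 10 ^ 8, by positivity, by norm_num, ?_⟩
  intro Q _ μ h core K hc σ hσ hV
  have hσ0 : 0 < σ := by linarith
  have hV1 := gap_V_all h hc hσ hV
  have hgap := gap_no_large h hc hσ hV1
  refine ⟨?_, ?_⟩
  · intro x y
    have hB : ∀ x y, |M μ x y| ≤ 2 * (2 * 10 ^ 7 * σ) → V μ x y ≤ 57001000 * σ ^ 2 := by
      intro x y hxy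
      have h2 := hV1 x y
      have h3 : (M μ x y) ^ 2 ≤ (2 * (2 * 10 ^ 7 * σ)) ^ 2 := by
        rw [← sq_abs]
        exact pow_le_pow_left₀ (abs_nonneg _) hxy 2
      nlinarith
    have h2 := gap_steps' h (by positivity : (0 : ℝ) < 2 * 10 ^ 7 * σ) (by positivity) hgap hB x y
    have h3 : 57001000 * σ ^ 2 * (|M μ x y| / (2 * 10 ^ 7 * σ) + 2) =
        57001000 / (2 * 10 ^ 7) * (σ * |M μ x y|) + 2 * 57001000 * σ ^ 2 := by
      field_simp
    rw [h3] at h2
    have h4 : 0 ≤ σ * |M μ x y| := mul_nonneg hσ0.le (abs_nonneg _)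
    have h5 : 0 ≤ σ ^ 2 := sq_nonneg σ
    nlinarith
  · intro z
    rcases hgap z with h2 | ⟨y, h2, h3⟩
    · left; exact h2
    · right
      exact ⟨y, h2, by linarith⟩

end KS
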