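import Pool.Agent.Lib.MP_c534e4_co.Defs
import Pool.Agent.Lib.MP_c534e4_co.H71.Law

/-! Module F (owner helper71): the concrete model, comparison probabilities, density. -/

set_option autoImplicit false

namespace KS

open MeasureTheory Set ProbabilityTheory
open scoped ENNReal

section
variable {Q : Type} [Fintype Q] [PartialOrder Q]

instance : Nonempty (LinExt Q) := by
  classical
  have : Fintype (LinearExtension Q) := inferInstanceAs (Fintype Q)
  have hc : Fintype.card (LinearExtension Q) = Fintype.card Q := by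
    apply Fintype.card_congr
    exact Equiv.refl _
  let o := monoEquivOfFin (LinearExtension Q) hc
  let i : Q ≃ LinearExtension Q := Equiv.refl _
  refine ⟨⟨i.trans o.toEquiv.symm, ?_⟩⟩
  intro a b hab
  have h1 : i a ≤ i b := (toLinearExtension (α := Q)).monotone hab.le
  have h2 : i a < i b := lt_of_le_of_ne h1 (i.injective.ne hab.ne)
  exact o.symm.lt_iff_lt.2 h2

lemma conf_apply (σ : Q ≃ Fin (Fintype.card Q)) (g : Fin (Fintype.card Q) → ℝ) (x : Q) :
    conf σ g x = ∑ i ∈ Finset.Iio (σ x), g i := by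
  unfold conf
  rw [← Finset.sum_filter]
  congr 1
  ext i
  simp

omit [PartialOrder Q] in
lemma measurable_conf (σ : Q ≃ Fin (Fintype.card Q)) : Measurable (conf σ) := by
  rw [measurable_pi_iff]
  intro x
  unfold conf
  apply Finset.measurable_sum
  intro i _
  by_cases h : i < σ x
  · simp only [h, if_true]
    exact measurable_pi_apply i
  · simp only [h, if_false]
    exact measurable_const

lemma conf_lt_of_lt (σ : Q ≃ Fin (Fintype.card Q)) {g : Fin (Fintype.card Q) → ℝ}
    (hg : ∀ i, 0 < g i) {x y : Q} (h : σ x < σ y) : conf σ g x < conf σ g y := by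
  rw [conf_apply, conf_apply]
  have hs : Finset.Iio (σ y) = Finset.Iio (σ x) ∪ Finset.Ico (σ x) (σ y) := by
    ext i
    simp only [Finset.mem_Iio, Finset.mem_union, Finset.mem_Ico]
    constructor
    · intro hi
      rcases lt_or_ge i (σ x) with h' | h'
      · exact Or.inl h'
      · exact Or.inr ⟨h', hi⟩
    · rintro (h' | h')
      · exact h'.trans h
      · exact h'.2
  rw [hs, Finset.sum_union]
  · have : 0 < ∑ k ∈ Finset.Ico (σ x) (σ y), g k :=
      Finset.sum_pos (fun k _ => hg k) ⟨σ x, Finset.mem_Ico.2 ⟨le_rfl, h⟩⟩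
    linarith
  · rw [Finset.disjoint_left]
    intro i hi hi2
    exact absurd (Finset.mem_Iio.1 hi) (not_lt.2 (Finset.mem_Ico.1 hi2).1)

lemma conf_lt_iff (σ : Q ≃ Fin (Fintype.card Q)) {g : Fin (Fintype.card Q) → ℝ}
    (hg : ∀ i, 0 < g i) {x y : Q} : conf σ g x < conf σ g y ↔ σ x < σ y := by
  constructor
  · intro h
    by_contra hn
    rcases (not_lt.1 hn).lt_or_eq with h' | h'
    · exact absurd h (not_lt.2 (conf_lt_of_lt σ hg h').le)
    · rw [σ.injective h'] at h
      exact absurd h (lt_irrefl _)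
  · exact conf_lt_of_lt σ hg

lemma exp_Iic_zero : expMeasure 1 (Iic 0) = 0 := by
  rw [Pool.Agent.Lib.MP_c534e4_co.H96.expMeasure_apply measurableSet_Iic]
  rw [setLIntegral_congr (Iio_ae_eq_Iic (μ := volume) (a := (0 : ℝ))).symm]
  exact lintegral_exponentialPDF_of_nonpos le_rfl

lemma ae_gap_pos (n : ℕ) :
    ∀ᵐ g ∂(Measure.pi (fun _ : Fin n => expMeasure 1)), ∀ i, 0 < g i := by
  rw [ae_all_iff]
  intro i
  have h := (Measure.quasiMeasurePreserving_eval (fun _ : Fin n => expMeasure 1) i).ae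
      (p := fun x : ℝ => 0 < x) (by
        rw [ae_iff]
        simp only [not_lt]
        exact exp_Iic_zero)
  exact h

variable (Q) in
lemma card_linExt_ne_zero : (Fintype.card (LinExt Q) : ℝ≥0∞) ≠ 0 := by
  simp [Fintype.card_ne_zero]

/-- Integrals against the model. -/
theorem lintegral_ks (F : (Q → ℝ) → ℝ≥0∞) (hF : Measurable F) :
    ∫⁻ S, F S ∂(ks Q) = (Fintype.card (LinExt Q) : ℝ≥0∞)⁻¹ *
      ∑ σ : LinExt Q, ∫⁻ g, F (conf σ.1 g) ∂(Measure.pi (fun _ : Fin (Fintype.card Q) => expMeasure 1)) := by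
  unfold ks
  rw [lintegral_smul_measure, smul_eq_mul, lintegral_finset_sum_measure]
  congr 1
  apply Finset.sum_congr rfl
  intro σ _
  rw [lintegral_map hF (measurable_conf σ.1)]

theorem ks_apply {s : Set (Q → ℝ)} (hs : MeasurableSet s) :
    ks Q s = (Fintype.card (LinExt Q) : ℝ≥0∞)⁻¹ *
      ∑ σ : LinExt Q, (Measure.pi (fun _ : Fin (Fintype.card Q) => expMeasure 1)) (conf σ.1 ⁻¹' s) := by
  unfold ks
  rw [Measure.smul_apply, smul_eq_mul, Measure.finset_sum_apply]
  congr 1
  apply Finset.sum_congr rfl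
  intro σ _
  rw [Measure.map_apply (measurable_conf σ.1) hs]

instance : IsProbabilityMeasure (ks Q) := by
  constructor
  rw [ks_apply MeasurableSet.univ]
  simp only [preimage_univ, measure_univ, Finset.sum_const, Finset.card_univ, nsmul_eq_mul, mul_one]
  exact ENNReal.inv_mul_cancel (card_linExt_ne_zero Q) (ENNReal.natCast_ne_top _)

theorem ae_ks {p : (Q → ℝ) → Prop} (hp : MeasurableSet {S | p S})
    (h : ∀ σ : LinExt Q, ∀ᵐ g ∂(Measure.pi (fun _ : Fin (Fintype.card Q) => expMeasure 1)),
      p (conf σ.1 g)) : ∀ᵐ S ∂(ks Q), p S := by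
  rw [ae_iff]
  have hp' : MeasurableSet {S | ¬ p S} := hp.compl
  rw [ks_apply hp']
  have : ∀ σ : LinExt Q, (Measure.pi (fun _ : Fin (Fintype.card Q) => expMeasure 1))
      (conf σ.1 ⁻¹' {S | ¬ p S}) = 0 := by
    intro σ
    exact ae_iff.1 (h σ)
  rw [Finset.sum_eq_zero (fun σ _ => this σ), mul_zero]

theorem ks_lt (x y : Q) : (ks Q).real {S | S x < S y} *
    (Nat.card {σ : Q ≃ Fin (Fintype.card Q) // StrictMono ⇑σ} : ℝ) =
    (Nat.card {σ : Q ≃ Fin (Fintype.card Q) // StrictMono ⇑σ ∧ σ x < σ y} : ℝ) := by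
  classical
  have hm : MeasurableSet {S : Q → ℝ | S x < S y} :=
    measurableSet_lt (measurable_pi_apply x) (measurable_pi_apply y)
  have h1 : ∀ σ : LinExt Q, (Measure.pi (fun _ : Fin (Fintype.card Q) => expMeasure 1))
      (conf σ.1 ⁻¹' {S | S x < S y}) = if σ.1 x < σ.1 y then 1 else 0 := by
    intro σ
    split_ifs with h
    · rw [← measure_univ (μ := Measure.pi (fun _ : Fin (Fintype.card Q) => expMeasure 1))]
      apply measure_congr
      filter_upwards [ae_gap_pos (Fintype.card Q)] with g hg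
      apply propext
      constructor
      · intro _; trivial
      · intro _
        exact (conf_lt_iff σ.1 hg).2 h
    · have h2 : ∀ᵐ g ∂(Measure.pi (fun _ : Fin (Fintype.card Q) => expMeasure 1)),
          ¬ (conf σ.1 g x < conf σ.1 g y) := by
        filter_upwards [ae_gap_pos (Fintype.card Q)] with g hg
        rw [conf_lt_iff σ.1 hg]
        exact h
      rw [ae_iff] at h2
      simp only [not_not] at h2
      exact h2
  have h3 : ks Q {S | S x < S y} = (Fintype.card (LinExt Q) : ℝ≥0∞)⁻¹ *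
      (Nat.card {σ : Q ≃ Fin (Fintype.card Q) // StrictMono ⇑σ ∧ σ x < σ y} : ℝ≥0∞) := by
    rw [ks_apply hm, Finset.sum_congr rfl (fun σ _ => h1 σ)]
    congr 1
    rw [Finset.sum_ite, Finset.sum_const_zero, add_zero, Finset.sum_const, nsmul_eq_mul, mul_one]
    congr 1
    rw [← Fintype.card_subtype, ← Nat.card_eq_fintype_card]
    apply Nat.card_congr
    exact Equiv.subtypeSubtypeEquivSubtypeInter (fun σ : Q ≃ Fin (Fintype.card Q) => StrictMono ⇑σ)
      (fun σ => σ x < σ y)
  have hc : (Nat.card {σ : Q ≃ Fin (Fintype.card Q) // StrictMono ⇑σ} : ℝ)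
      = (Fintype.card (LinExt Q) : ℝ) := by
    rw [Nat.card_eq_fintype_card]
  have hc0 : (Fintype.card (LinExt Q) : ℝ) ≠ 0 := by
    exact_mod_cast Fintype.card_ne_zero
  rw [hc, Measure.real, h3, ENNReal.toReal_mul, ENNReal.toReal_inv, ENNReal.toReal_natCast,
    ENNReal.toReal_natCast]
  field_simp

theorem ks_strictMono : ∀ᵐ S ∂(ks Q), StrictMono S := by
  apply ae_ks (Pool.MP_c534e4_co.H71.measurableSet_cone)
  intro σ
  filter_upwards [ae_gap_pos (Fintype.card Q)] with g hg a b hab
  exact conf_lt_of_lt σ.1 hg (σ.2 hab)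

theorem ks_injective : ∀ᵐ S ∂(ks Q), Function.Injective S := by
  have hm : MeasurableSet {S : Q → ℝ | Function.Injective S} := by
    have : {S : Q → ℝ | Function.Injective S} = ⋂ a : Q, ⋂ b : Q, ⋂ (_ : a ≠ b), {S | S a ≠ S b} := by
      ext S
      simp only [Function.Injective, mem_setOf_eq, mem_iInter]
      constructor
      · intro h a b hab hs
        exact hab (h hs)
      · intro h a b hs
        by_contra hab
        exact h a b hab hs
    rw [this]
    refine MeasurableSet.iInter fun a => MeasurableSet.iInter fun b => MeasurableSet.iInter fun _ => ?_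
    exact (measurableSet_eq_fun (measurable_pi_apply a) (measurable_pi_apply b)).compl
  apply ae_ks hm
  intro σ
  filter_upwards [ae_gap_pos (Fintype.card Q)] with g hg a b hab
  by_contra hne
  rcases lt_or_gt_of_ne (σ.1.injective.ne hne) with h | h
  · exact absurd hab (conf_lt_of_lt σ.1 hg h).ne
  · exact absurd hab (conf_lt_of_lt σ.1 hg h).ne'

end

section rotation

open Pool.MP_c534e4_co.H71 (cum pos gapLaw)

lemma cum_rotate {m : ℕ} (g : Fin (m + 1) → ℝ) (j : Fin (m + 1)) :
    cum (fun k => g ((finRotate (m + 1)).symm k)) j = ∑ i ∈ Finset.Iio j, g i + g (Fin.last m) := by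
  unfold cum
  have h0 : Fin.last m ∉ Finset.Iio j := by
    simp only [Finset.mem_Iio, not_lt]
    exact Fin.le_last j
  rw [add_comm (∑ i ∈ Finset.Iio j, g i), ← Finset.sum_insert h0]
  symm
  apply Finset.sum_equiv (finRotate (m + 1))
  · intro i
    simp only [Finset.mem_insert, Finset.mem_Iio, Finset.mem_Iic]
    by_cases hi : i = Fin.last m
    · subst hi
      simp
    · have hlt : i < Fin.last m := lt_of_le_of_ne (Fin.le_last i) hi
      have : ((finRotate (m + 1) i : Fin (m + 1)) : ℕ) = (i : ℕ) + 1 := by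
        rw [coe_finRotate_of_ne_last hi]
      simp only [hi, false_or]
      rw [Fin.lt_def, Fin.le_def, this]
      omega
  · intro i _
    simp

lemma lintegral_rotate {m : ℕ} (H : (Fin (m + 1) → ℝ) → ℝ≥0∞) (hH : Measurable H) :
    ∫⁻ g, H (fun k => g ((finRotate (m + 1)).symm k))
      ∂(Measure.pi (fun _ : Fin (m + 1) => expMeasure 1)) =
    ∫⁻ g, H g ∂(Measure.pi (fun _ : Fin (m + 1) => expMeasure 1)) := by
  have h := measurePreserving_piCongrLeft (α := fun _ : Fin (m + 1) => ℝ)
    (fun _ : Fin (m + 1) => expMeasure 1) (finRotate (m + 1))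
  have h2 := h.lintegral_comp hH
  rw [← h2]
  apply lintegral_congr
  intro g
  congr 1
  funext k
  have := MeasurableEquiv.piCongrLeft_apply_apply (e := finRotate (m + 1))
    (β := fun _ : Fin (m + 1) => ℝ) g ((finRotate (m + 1)).symm k)
  rw [Equiv.apply_symm_apply] at this
  exact this.symm

lemma lintegral_conf_aux {Q : Type} {n : ℕ} (hn : n ≠ 0) (e : Q ≃ Fin n)
    (G : (Q → ℝ) → ℝ≥0∞) (hG : Measurable G)
    (hinv : ∀ (t : Q → ℝ) (a : ℝ), G (fun x => t x + a) = G t) :
    ∫⁻ g, G (fun x => ∑ i ∈ Finset.Iio (e x), g i) ∂(Measure.pi (fun _ : Fin n => expMeasure 1)) =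
    ∫⁻ g, G (pos e g) ∂(Measure.pi (fun _ : Fin n => expMeasure 1)) := by
  obtain ⟨m, rfl⟩ := Nat.exists_eq_succ_of_ne_zero hn
  have hm : Measurable (pos e) := by
    rw [measurable_pi_iff]
    intro x
    unfold pos
    exact (measurable_pi_apply (e x)).comp Pool.MP_c534e4_co.H71.measurable_cum
  rw [← lintegral_rotate (fun g => G (pos e g)) (hG.comp hm)]
  apply lintegral_congr
  intro g
  rw [← hinv _ (g (Fin.last m))]
  congr 1
  funext x
  unfold pos
  rw [cum_rotate]

end rotation

section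
variable {Q : Type} [Fintype Q] [PartialOrder Q] [BoundedOrder Q]

open Classical in
theorem ks_pin_lintegral (y : Q) (c : ℝ) (F : (Q → ℝ) → ℝ≥0∞) (hF : Measurable F) :
    ∫⁻ S, F (pin y c S) ∂(ks Q) =
      (Fintype.card (LinExt Q) : ℝ≥0∞)⁻¹ * ∫⁻ T : {x : Q // x ≠ y} → ℝ, F (ext y c T) * wO (ext y c T) := by
  have hpin : Measurable (pin y c : (Q → ℝ) → (Q → ℝ)) := by
    unfold pin
    rw [measurable_pi_iff]
    intro x
    exact ((measurable_pi_apply x).sub (measurable_pi_apply y)).add measurable_const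
  have hG : Measurable (fun S : Q → ℝ => F (pin y c S)) := hF.comp hpin
  have hinv : ∀ (t : Q → ℝ) (a : ℝ), F (pin y c (fun x => t x + a)) = F (pin y c t) := by
    intro t a
    congr 1
    funext x
    unfold pin
    ring
  rw [lintegral_ks _ hG]
  congr 1
  have : Nonempty Q := ⟨y⟩
  have h1 : ∀ σ : LinExt Q, ∫⁻ g, F (pin y c (conf σ.1 g))
      ∂(Measure.pi (fun _ : Fin (Fintype.card Q) => expMeasure 1)) =
      ∫⁻ g, F (pin y c (Pool.MP_c534e4_co.H71.pos σ.1 g))
        ∂(Pool.MP_c534e4_co.H71.gapLaw (Fintype.card Q)) := by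
    intro σ
    have h := lintegral_conf_aux (Fintype.card_ne_zero (α := Q)) σ.1
      (fun S : Q → ℝ => F (pin y c S)) hG hinv
    have h2 : ∀ g, (fun x => ∑ i ∈ Finset.Iio (σ.1 x), g i) = conf σ.1 g := by
      intro g
      funext x
      rw [conf_apply]
    simp_rw [h2] at h
    exact h
  simp_rw [h1]
  have h3 := Pool.MP_c534e4_co.H71.lintegral_pinned y (fun S : Q → ℝ => F (pin y c S)) hG hinv
  have h4 : ∑ σ : LinExt Q, ∫⁻ g, F (pin y c (Pool.MP_c534e4_co.H71.pos σ.1 g))
        ∂(Pool.MP_c534e4_co.H71.gapLaw (Fintype.card Q)) =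
      ∫⁻ s : {x : Q // x ≠ y} → ℝ, (Pool.MP_c534e4_co.H71.cone Q).indicator
        (fun t => F (pin y c t) * Pool.MP_c534e4_co.H71.wt t) (Pool.MP_c534e4_co.H71.pin y s) := by
    rw [h3]
  rw [h4]
  have h5 := lintegral_add_right_eq_self (μ := (volume : Measure ({x : Q // x ≠ y} → ℝ)))
    (fun T => F (ext y c T) * wO (ext y c T)) (fun _ => c)
  rw [← h5]
  apply lintegral_congr
  intro s
  have e1 : ext y c (s + fun _ => c) = fun x => Pool.MP_c534e4_co.H71.pin y s x + c := by
    funext x
    by_cases h : x = y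
    · subst h
      simp [ext, Pool.MP_c534e4_co.H71.pin]
    · simp [ext, Pool.MP_c534e4_co.H71.pin, h]
  rw [e1]
  set t := Pool.MP_c534e4_co.H71.pin y s with ht
  have e2 : pin y c t = fun x => t x + c := by
    funext x
    simp [pin, ht]
  have hcone : StrictMono (fun x => t x + c) ↔ t ∈ Pool.MP_c534e4_co.H71.cone Q := by
    constructor
    · intro h a b hab
      have := h hab
      simp only at this
      linarith
    · intro h a b hab
      have := h hab
      simp only
      linarith
  by_cases hc : t ∈ Pool.MP_c534e4_co.H71.cone Q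
  · rw [Set.indicator_of_mem hc]
    have hm : StrictMono t := hc
    have hmx : Pool.MP_c534e4_co.H71.mx t = t ⊤ := by
      apply le_antisymm
      · exact ciSup_le fun x => hm.monotone le_top
      · exact le_ciSup (Set.finite_range t).bddAbove ⊤
    have hmn : Pool.MP_c534e4_co.H71.mn t = t ⊥ := by
      apply le_antisymm
      · exact ciInf_le (Set.finite_range t).bddBelow ⊥
      · exact le_ciInf fun x => hm.monotone bot_le
    rw [e2]
    unfold wO Pool.MP_c534e4_co.H71.wt
    rw [if_pos (hcone.2 hc), hmx, hmn]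
    congr 4
    ring
  · rw [Set.indicator_of_notMem hc]
    unfold wO
    rw [if_neg (fun h => hc (hcone.1 h)), mul_zero]

end

end KS
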