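import Pool.Agent.Lib.MP_c534e4_co.Stage1
import Pool.Agent.Lib.MP_c534e4_co.H26.Flux

/-! Module F (owner helper26): the flux argument. -/

set_option autoImplicit false

namespace KS

open MeasureTheory Set

theorem neg_real {Q : Type} [Fintype Q] (μ : Measure (Q → ℝ)) (E : Set (Q → ℝ)) :
    (μ.map (fun S => -S)).real E = μ.real {S | -S ∈ E} := by
  have h := (MeasurableEquiv.neg (Q → ℝ)).map_apply (μ := μ) E
  rw [measureReal_def, measureReal_def]
  congr 1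

theorem EpsBad.mono {Q : Type} [Fintype Q] {μ : Measure (Q → ℝ)} {ε ε' : ℝ} (h : EpsBad μ ε)
    (he : ε' ≤ ε) : EpsBad μ ε' := by
  intro x y hxy
  rcases h x y hxy with h | h
  · exact Or.inl (by linarith)
  · exact Or.inr (by linarith)

theorem mainI (ε C₄ c₅ c₆ C₇ : ℝ) (hε : 0 < ε) (h4 : 1 ≤ C₄) (h5 : 0 < c₅) (h6 : 0 < c₆)
    (h7 : 0 < C₇) : ∃ L R : ℝ, ∀ {Q : Type} [Fintype Q] (μ : Measure (Q → ℝ)), IsKS μ →
    EpsBad μ ε → ∀ σ : ℝ, L ≤ σ → (∀ x y, V μ x y ≤ C₄ * (σ ^ 2 + σ * |M μ x y|)) →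
    ∀ z : Q, Deep μ z (R * σ) → ∀ X₀ : Finset Q, c₅ * σ ≤ X₀.card →
    (∀ x ∈ X₀, c₆ * σ ^ 2 ≤ V μ x z ∧ |M μ x z| ≤ C₇ * σ) → False := by
  classical
  -- constants
  obtain ⟨ε', hε', hε'1, hε'2⟩ : ∃ ε' : ℝ, 0 < ε' ∧ ε' ≤ ε ∧ ε' ≤ 1 / 2 :=
    ⟨min ε (1 / 2), lt_min hε (by norm_num), min_le_left _ _, min_le_right _ _⟩
  have hs6 : 0 < Real.sqrt c₆ := Real.sqrt_pos.2 h6
  obtain ⟨c1, hc1, hc1a, hc1b, hc1c⟩ : ∃ c1 : ℝ, 0 < c1 ∧ c1 ≤ 1 ∧ 200 * c1 ≤ c₅ ∧
      1024 * c1 ≤ Real.sqrt c₆ := by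
    refine ⟨min 1 (min (c₅ / 200) (Real.sqrt c₆ / 1024)), by positivity, min_le_left _ _, ?_, ?_⟩
    · have := (min_le_right (1 : ℝ) (min (c₅ / 200) (Real.sqrt c₆ / 1024))).trans (min_le_left _ _)
      linarith
    · have := (min_le_right (1 : ℝ) (min (c₅ / 200) (Real.sqrt c₆ / 1024))).trans (min_le_right _ _)
      linarith
  obtain ⟨C, c, hC, hc, hchain⟩ := chaining ε' hε'
  obtain ⟨m, hm, hm1, hm2⟩ : ∃ m : ℝ, 0 < m ∧ m ≤ ε' / 32 ∧ m ≤ 1 / 64 :=
    ⟨min (ε' / 32) (1 / 64), by positivity, min_le_left _ _, min_le_right _ _⟩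
  obtain ⟨T0, hT0, hT0m⟩ : ∃ T0 : ℝ, 0 < T0 ∧ ∀ t, T0 ≤ t → C * Real.exp (-t) ≤ m := by
    refine ⟨max 1 (Real.log (C / m)), by positivity, ?_⟩
    intro t ht
    have h1 : Real.log (C / m) ≤ t := (le_max_right _ _).trans ht
    have h2 : C / m ≤ Real.exp t := by
      rw [← Real.exp_log (div_pos hC hm)]
      exact Real.exp_le_exp.2 h1
    rw [Real.exp_neg, ← div_eq_mul_inv, div_le_iff₀ (Real.exp_pos t)]
    rw [div_le_iff₀ hm] at h2
    linarith
  obtain ⟨δ₁, hδ, hδa, hδb⟩ : ∃ δ₁ : ℝ, 0 < δ₁ ∧ T0 ≤ c * c1 / (8 * δ₁) ∧ 1000 * δ₁ ^ 2 < c₆ := by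
    refine ⟨min (c * c1 / (8 * T0)) (Real.sqrt c₆ / 40), by positivity, ?_, ?_⟩
    · rw [le_div_iff₀ (by positivity)]
      have h1 : min (c * c1 / (8 * T0)) (Real.sqrt c₆ / 40) ≤ c * c1 / (8 * T0) := min_le_left _ _
      calc T0 * (8 * min (c * c1 / (8 * T0)) (Real.sqrt c₆ / 40))
          ≤ T0 * (8 * (c * c1 / (8 * T0))) := by gcongr
        _ = c * c1 := by field_simp
    · have h1 : min (c * c1 / (8 * T0)) (Real.sqrt c₆ / 40) ≤ Real.sqrt c₆ / 40 := min_le_right _ _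
      have h0 : 0 ≤ min (c * c1 / (8 * T0)) (Real.sqrt c₆ / 40) := by positivity
      calc 1000 * (min (c * c1 / (8 * T0)) (Real.sqrt c₆ / 40)) ^ 2
          ≤ 1000 * (Real.sqrt c₆ / 40) ^ 2 := by gcongr
        _ = 1000 * (c₆ / 1600) := by rw [div_pow, Real.sq_sqrt h6.le]; norm_num
        _ < c₆ := by linarith
  set θ : ℝ := ε' * δ₁ / 64 with hθdef
  have hθ : 0 < θ := by positivity
  obtain ⟨h0, hh0, hh0a, hh0b⟩ : ∃ h0 : ℝ, 0 < h0 ∧ 8 * h0 ≤ θ ∧ 16 * h0 ≤ c1 := by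
    refine ⟨min (θ / 8) (c1 / 16), by positivity, ?_, ?_⟩
    · have := min_le_left (θ / 8) (c1 / 16)
      linarith
    · have := min_le_right (θ / 8) (c1 / 16)
      linarith
  set r7 : ℝ := C₇ + Real.sqrt (C₄ * (1 + C₇)) with hr7def
  have hr7 : 0 < r7 := by positivity
  obtain ⟨R4, hR4, hR4a⟩ : ∃ R4 : ℝ, 4 ≤ R4 ∧ T0 ≤ c * (R4 / 2) / r7 := by
    refine ⟨max 4 (2 * r7 * T0 / c), le_max_left _ _, ?_⟩
    rw [le_div_iff₀ hr7]
    have h1 : 2 * r7 * T0 / c ≤ max 4 (2 * r7 * T0 / c) := le_max_right _ _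
    calc T0 * r7 = c * ((2 * r7 * T0 / c) / 2) := by field_simp
      _ ≤ c * (max 4 (2 * r7 * T0 / c) / 2) := by gcongr
  have hR40 : 0 < R4 := by linarith
  obtain ⟨J, hJ, hJ'⟩ : ∃ J : ℕ, (J : ℝ) ≤ R4 / h0 + 4 ∧ R4 / h0 + 4 < J + 1 :=
    ⟨⌊R4 / h0 + 4⌋₊, Nat.floor_le (by positivity), Nat.lt_floor_add_one _⟩
  obtain ⟨lam, hlam, hlam1, hlam2, hlam3, hlam4⟩ : ∃ lam : ℝ, 0 < lam ∧ lam ≤ 1 ∧ 400 * lam ≤ c₅ ∧
      12 * lam ≤ h0 ∧ (2 * J + 1) * (6 * lam + 6 * lam) < c₅ / 32 := by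
    have hJ0 : (0 : ℝ) < 2 * J + 1 := by positivity
    have hpos : 0 < c₅ / (400 * (2 * J + 1)) := by positivity
    refine ⟨min (min 1 (c₅ / 400)) (min (h0 / 12) (c₅ / (400 * (2 * J + 1)))), by positivity, ?_, ?_, ?_, ?_⟩
    · exact (min_le_left _ _).trans (min_le_left _ _)
    · have := (min_le_left (min 1 (c₅ / 400)) (min (h0 / 12) (c₅ / (400 * (2 * J + 1))))).trans
        (min_le_right _ _)
      linarith
    · have := (min_le_right (min 1 (c₅ / 400)) (min (h0 / 12) (c₅ / (400 * (2 * J + 1))))).trans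
        (min_le_left _ _)
      linarith
    · have h1 := (min_le_right (min 1 (c₅ / 400)) (min (h0 / 12) (c₅ / (400 * (2 * J + 1))))).trans
        (min_le_right _ _)
      have h2 : min (min 1 (c₅ / 400)) (min (h0 / 12) (c₅ / (400 * (2 * J + 1)))) * (400 * (2 * J + 1)) ≤ c₅ := by
        rwa [le_div_iff₀ (by positivity)] at h1
      nlinarith
  obtain ⟨R', a, ha, hR', hst⟩ := stage1 ε' C₄ C₇ c1 δ₁ θ R4 lam lam hε' hε'2 h4 h7 hc1 hδ hθ
    (by rw [hθdef]; linarith) hR40 hlam hlam (by linarith)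
  obtain ⟨L, hflux⟩ := flux c1 c₅ h0 R4 lam lam θ a J hc1 hh0 hlam hlam ha hh0a hh0b hlam3 hc1b hlam2
    hR4 hc1a hlam1 hJ hJ' hlam4
  refine ⟨max L 1, R4 + 4, ?_⟩
  intro Q _ μ hμ hbad σ hσL hV z hdeep X₀ hX₀ hX₀'
  have := hμ.prob
  have hσ1 : 1 ≤ σ := (le_max_right _ _).trans hσL
  have hσ : 0 < σ := by linarith
  have hbad' := hbad.mono hε'1
  -- suprema near z
  have hsB : μ.real {S | ∃ x, d μ x z ≤ δ₁ * σ ∧ c1 * σ / 8 < |D x z S|} ≤ m := by
    refine (hchain μ hμ hbad' z (δ₁ * σ) (c1 * σ / 8) (by positivity) (by positivity)).trans ?_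
    apply hT0m
    refine hδa.trans (le_of_eq ?_)
    field_simp
  have hs7 : μ.real {S | ∃ x, |M μ x z| ≤ C₇ * σ ∧ R4 * σ / 2 < |D x z S|} ≤ m := by
    have hsub : {S : Q → ℝ | ∃ x, |M μ x z| ≤ C₇ * σ ∧ R4 * σ / 2 < |D x z S|} ⊆
        {S | ∃ x, d μ x z ≤ r7 * σ ∧ R4 * σ / 2 < |D x z S|} := by
      rintro S ⟨x, hx1, hx2⟩
      refine ⟨x, ?_, hx2⟩
      refine (hμ.d_le x z).trans ?_
      have h1 : Real.sqrt (V μ x z) ≤ Real.sqrt (C₄ * (1 + C₇)) * σ := by
        rw [Real.sqrt_le_left (by positivity), mul_pow, Real.sq_sqrt (by positivity)]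
        refine (hV x z).trans ?_
        have : σ * |M μ x z| ≤ σ * (C₇ * σ) := by gcongr
        nlinarith
      rw [hr7def, add_mul]
      exact add_le_add hx1 h1
    refine (measureReal_mono hsub).trans ?_
    refine (hchain μ hμ hbad' z (r7 * σ) (R4 * σ / 2) (by positivity) (by positivity)).trans ?_
    apply hT0m
    refine hR4a.trans (le_of_eq ?_)
    field_simp
  obtain ⟨FD, FU, A, p, n, n', hF, hAm, hAa, hA, hFD, hFU, hpX⟩ :=
    hst μ hμ hbad' σ hσ1 hV z (hsB.trans hm1) (hs7.trans hm1)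
  -- elements of X₀
  have hX0F : ∀ x ∈ X₀, x ∈ FD ∨ x ∈ FU := by
    intro x hx
    obtain ⟨h1, h2⟩ := hX₀' x hx
    refine (hF x).2 ⟨?_, h2.trans (by gcongr)⟩
    by_contra hcon
    push Not at hcon
    have h3 := hμ.V_le x z
    have h4 : (d μ x z) ^ 2 ≤ (δ₁ * σ) ^ 2 := by
      have := d_nonneg μ x z
      gcongr
    have h5 : c₆ * σ ^ 2 ≤ 1000 * δ₁ ^ 2 * σ ^ 2 := by nlinarith
    have h6' : 0 < σ ^ 2 := by positivity
    nlinarith
  have hX0p : ∀ x ∈ X₀, |p x| ≤ R4 * σ / 2 := fun x hx => hpX x (hX0F x hx) (hX₀' x hx).2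
  have hdir : ∀ x ∈ X₀, 3 / 8 ≤ μ.real {S | p x + c1 * σ ≤ D x z S} ∨
      3 / 8 ≤ μ.real {S | D x z S ≤ p x - c1 * σ} := by
    intro x hx
    have hV' := (hX₀' x hx).1
    have h1 := hμ.small x z (p x - c1 * σ) (2 * (c1 * σ)) (by positivity)
    have h2 : Real.sqrt c₆ * σ ≤ Real.sqrt (V μ x z) := by
      rw [Real.le_sqrt (by positivity) (V_nonneg μ x z), mul_pow, Real.sq_sqrt h6.le]
      exact hV'
    have h3 : μ.real {S | p x - c1 * σ ≤ D x z S ∧ D x z S ≤ p x - c1 * σ + 2 * (c1 * σ)} ≤ 1 / 4 := by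
      have h4 : μ.real {S | p x - c1 * σ ≤ D x z S ∧ D x z S ≤ p x - c1 * σ + 2 * (c1 * σ)} *
          (Real.sqrt c₆ * σ) ≤ 128 * (2 * (c1 * σ)) :=
        (mul_le_mul_of_nonneg_left h2 measureReal_nonneg).trans h1
      have h5 : 128 * (2 * (c1 * σ)) ≤ 1 / 4 * (Real.sqrt c₆ * σ) := by
        have := mul_le_mul_of_nonneg_right hc1c hσ.le
        linarith
      exact le_of_mul_le_mul_right (h4.trans h5) (by positivity)
    have hcover : (Set.univ : Set (Q → ℝ)) ⊆ ({S | p x + c1 * σ ≤ D x z S} ∪ {S | D x z S ≤ p x - c1 * σ}) ∪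
        {S | p x - c1 * σ ≤ D x z S ∧ D x z S ≤ p x - c1 * σ + 2 * (c1 * σ)} := by
      intro S _
      by_cases ha1 : p x + c1 * σ ≤ D x z S
      · exact Or.inl (Or.inl ha1)
      · by_cases ha2 : D x z S ≤ p x - c1 * σ
        · exact Or.inl (Or.inr ha2)
        · push Not at ha1 ha2
          exact Or.inr ⟨ha2.le, by linarith⟩
    have h4 := (measureReal_mono (μ := μ) hcover).trans (measureReal_union_le _ _)
    have h5 := measureReal_union_le (μ := μ) {S | p x + c1 * σ ≤ D x z S} {S | D x z S ≤ p x - c1 * σ}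
    rw [probReal_univ] at h4
    by_contra hcon
    push Not at hcon
    linarith [hcon.1, hcon.2]
  set Xp : Finset Q := X₀.filter (fun x => 3 / 8 ≤ μ.real {S | p x + c1 * σ ≤ D x z S}) with hXp
  set Xm : Finset Q := X₀.filter (fun x => 3 / 8 ≤ μ.real {S | D x z S ≤ p x - c1 * σ}) with hXm
  have hcard : (X₀.card : ℝ) ≤ Xp.card + Xm.card := by
    have : X₀ ⊆ Xp ∪ Xm := by
      intro x hx
      rw [Finset.mem_union, hXp, hXm, Finset.mem_filter, Finset.mem_filter]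
      rcases hdir x hx with h | h
      · exact Or.inl ⟨hx, h⟩
      · exact Or.inr ⟨hx, h⟩
    exact_mod_cast (Finset.card_le_card this).trans (Finset.card_union_le _ _)
  set B : Finset Q := Finset.univ.filter (fun x => d μ x z ≤ δ₁ * σ) with hB
  set FL : Finset Q := Finset.univ.filter (fun x => M μ x z < -(R' * σ)) with hFL
  set FR : Finset Q := Finset.univ.filter (fun x => R' * σ < M μ x z) with hFR
  have hcov : ∀ x, x ∈ B ∨ x ∈ FD ∨ x ∈ FU ∨ x ∈ FL ∨ x ∈ FR := by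
    intro x
    by_cases h1 : d μ x z ≤ δ₁ * σ
    · left; simp [hB, h1]
    · by_cases h2 : |M μ x z| ≤ R' * σ
      · rcases (hF x).2 ⟨not_le.1 h1, h2⟩ with h | h
        · exact Or.inr (Or.inl h)
        · exact Or.inr (Or.inr (Or.inl h))
      · rcases lt_abs.1 (not_le.1 h2) with h | h
        · right; right; right; right; simp [hFR, h]
        · right; right; right; left; simp only [hFL, Finset.mem_filter, Finset.mem_univ, true_and]
          linarith
  have hBf : ∀ P : Q → Prop, B.filter P = Finset.univ.filter (fun x => d μ x z ≤ δ₁ * σ ∧ P x) := by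
    intro P
    ext x
    simp [hB]
  have hsup : μ.real {S | ∃ x ∈ B, c1 * σ / 8 < |D x z S|} ≤ 1 / 64 := by
    refine le_trans (measureReal_mono ?_) (hsB.trans hm2)
    rintro S ⟨x, hx1, hx2⟩
    exact ⟨x, (Finset.mem_filter.1 hx1).2, hx2⟩
  rcases le_or_gt (c₅ * σ / 2) (Xp.card : ℝ) with hcase | hcase
  · -- upward
    refine hflux μ hμ σ ((le_max_left _ _).trans hσL) z hdeep B FD FU FL FR hcov A p n hAm hAa ?_
      hFD hFU hsup Xp hcase (fun x hx => hX0F x (Finset.mem_filter.1 hx).1)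
      (fun x hx => hX0p x (Finset.mem_filter.1 hx).1) (fun x hx => (Finset.mem_filter.1 hx).2)
    intro S hS
    obtain ⟨g1, g2, g3, g4, g5, g6⟩ := hA S hS
    refine ⟨fun x hx => g1 x (Finset.mem_filter.1 hx).2, g2, fun x hx => g3 x (Finset.mem_filter.1 hx).2,
      fun x hx => g4 x (Finset.mem_filter.1 hx).2, ?_⟩
    rw [hBf]
    exact g5
  · -- downward
    have hcase' : c₅ * σ / 2 ≤ (Xm.card : ℝ) := by linarith
    have hnegm : Measurable (fun S : Q → ℝ => -S) := measurable_neg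
    refine hflux (μ.map (fun S => -S)) hμ.neg σ ((le_max_left _ _).trans hσL) z hdeep.neg B FU FD FR FL ?_
      {S | -S ∈ A} (fun x => - p x) n' (hnegm hAm) ?_ ?_ ?_ ?_ ?_ Xm hcase' ?_ ?_ ?_
    · intro x
      rcases hcov x with h | h | h | h | h
      · exact Or.inl h
      · exact Or.inr (Or.inr (Or.inl h))
      · exact Or.inr (Or.inl h)
      · exact Or.inr (Or.inr (Or.inr (Or.inr h)))
      · exact Or.inr (Or.inr (Or.inr (Or.inl h)))
    · rw [neg_real]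
      refine hAa.trans (le_of_eq ?_)
      congr 1
      ext S
      have : -(pin z 0 (-S)) = pin z 0 S := by
        funext x; simp [pin]; ring
      show pin z 0 S ∈ A ↔ -(pin z 0 (-S)) ∈ A
      rw [this]
    · intro S hS
      obtain ⟨g1, g2, g3, g4, g5, g6⟩ := hA (-S) hS
      refine ⟨?_, ?_, ?_, ?_, ?_⟩
      · intro x hx
        have := g1 x (Finset.mem_filter.1 hx).2
        rwa [Pi.neg_apply, abs_neg] at this
      · intro x hx
        have := g2 x hx.symm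
        rw [Pi.neg_apply] at this
        have e : S x - -p x = -(-S x - p x) := by ring
        rw [e, abs_neg]
        exact this
      · intro x hx
        have := g4 x (Finset.mem_filter.1 hx).2
        rw [Pi.neg_apply] at this
        linarith
      · intro x hx
        have := g3 x (Finset.mem_filter.1 hx).2
        rw [Pi.neg_apply] at this
        linarith
      · rw [hBf]
        have e : (Finset.univ.filter (fun x => d μ x z ≤ δ₁ * σ ∧ S x < 0)) =
            (Finset.univ.filter (fun x => d μ x z ≤ δ₁ * σ ∧ 0 < (-S) x)) := by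
          ext x; simp
        rw [e]
        exact g6
    · intro x hx
      have := hFU x hx
      linarith
    · intro x hx
      have := hFD x hx
      linarith
    · rw [neg_real]
      refine le_trans (measureReal_mono ?_) hsup
      rintro S ⟨x, hx1, hx2⟩
      refine ⟨x, hx1, ?_⟩
      have e : D x z (-S) = - D x z S := by simp [D]; ring
      rw [e, abs_neg] at hx2
      exact hx2
    · intro x hx
      exact (hX0F x (Finset.mem_filter.1 hx).1).symm
    · intro x hx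
      rw [abs_neg]
      exact hX0p x (Finset.mem_filter.1 hx).1
    · intro x hx
      rw [neg_real]
      refine (Finset.mem_filter.1 hx).2.trans (measureReal_mono ?_)
      intro S hS
      have e : D x z (-S) = - D x z S := by simp [D]; ring
      show -p x + c1 * σ ≤ D x z (-S)
      rw [e]
      have hS' : D x z S ≤ p x - c1 * σ := hS
      linarith

end KS
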