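import Pool.Agent.Lib.MP_c534e4_co.Chain

/-! Module D3 (helper42): tight nets, far elements stay far. -/

set_option autoImplicit false

namespace KS

open MeasureTheory Set Filter Topology

theorem net_aux (ε : ℝ) (hε : 0 < ε) : ∃ (m₀ : ℕ) (C c : ℝ), 0 < C ∧ 0 < c ∧
    ∀ {Q : Type} [Fintype Q] (μ : Measure (Q → ℝ)), IsKS μ → EpsBad μ ε →
    ∀ (z : Q) (ρ : ℝ), 0 < ρ → ∀ F : Finset Q, (∀ x ∈ F, d μ x z ≤ ρ) → ∀ (j : ℕ) (t : ℝ), 0 ≤ t →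
    ∃ R ⊆ F, R.card ≤ m₀ ^ (j + 1) ∧ ∃ π : Q → Q, (∀ x ∈ F, π x ∈ R) ∧
      μ.real {S | ∃ x ∈ F, t < |D x (π x) S|} ≤
        (m₀ : ℝ) ^ (j + 1) * (C * Real.exp (-(c * (t / ρ) * 2 ^ j))) := by
  classical
  obtain ⟨m₀, hm₀⟩ := cover ε hε
  obtain ⟨C, c, hC, hc, hch⟩ := chaining ε hε
  refine ⟨m₀, C, c, hC, hc, ?_⟩
  intro Q _ μ hμ hbad z ρ hρ F hF j t ht
  have := hμ.prob
  have hδ : 0 < ρ / 2 ^ j := by positivity
  obtain ⟨R, hRF, hsep, hnet⟩ := exists_net μ F (ρ / 2 ^ j) hδ.le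
  have hcard := hm₀ μ hμ hbad z ρ hρ j R (fun x hx => hF x (hRF hx)) hsep
  choose! π hπ using hnet
  refine ⟨R, hRF, hcard, π, fun x hx => (hπ x hx).1, ?_⟩
  have hsub : {S : Q → ℝ | ∃ x ∈ F, t < |D x (π x) S|} ⊆
      ⋃ r ∈ R, {S : Q → ℝ | ∃ x, d μ x r ≤ ρ / 2 ^ j ∧ t < |D x r S|} := by
    rintro S ⟨x, hx, hS⟩
    simp only [Set.mem_iUnion]
    exact ⟨π x, (hπ x hx).1, x, (hπ x hx).2, hS⟩
  calc μ.real {S : Q → ℝ | ∃ x ∈ F, t < |D x (π x) S|}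
      ≤ μ.real (⋃ r ∈ R, {S : Q → ℝ | ∃ x, d μ x r ≤ ρ / 2 ^ j ∧ t < |D x r S|}) :=
        measureReal_mono hsub (measure_ne_top _ _)
    _ ≤ ∑ r ∈ R, μ.real {S : Q → ℝ | ∃ x, d μ x r ≤ ρ / 2 ^ j ∧ t < |D x r S|} :=
        measureReal_biUnion_finset_le _ _
    _ ≤ ∑ r ∈ R, C * Real.exp (-(c * (t / ρ) * 2 ^ j)) := by
        apply Finset.sum_le_sum
        intro r _
        refine (hch μ hμ hbad r (ρ / 2 ^ j) t hδ ht).trans (le_of_eq ?_)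
        congr 3
        field_simp
    _ = (R.card : ℝ) * (C * Real.exp (-(c * (t / ρ) * 2 ^ j))) := by
        rw [Finset.sum_const, nsmul_eq_mul]
    _ ≤ (m₀ : ℝ) ^ (j + 1) * (C * Real.exp (-(c * (t / ρ) * 2 ^ j))) := by
        apply mul_le_mul_of_nonneg_right _ (by positivity)
        exact_mod_cast hcard

/-- double exponential decay beats exponential growth -/
theorem dexp_tendsto (a b : ℝ) (hb : 0 < b) :
    Tendsto (fun n : ℕ => a ^ (n + 1) * Real.exp (-(b * 2 ^ n))) atTop (𝓝 0) := by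
  have h1 : Tendsto (fun n : ℕ => (2 : ℝ) ^ n) atTop atTop :=
    tendsto_pow_atTop_atTop_of_one_lt (by norm_num)
  obtain ⟨k, hk⟩ : ∃ k : ℕ, |a| ≤ 2 ^ k := by
    obtain ⟨k, hk⟩ := pow_unbounded_of_one_lt |a| (by norm_num : (1 : ℝ) < 2)
    exact ⟨k, hk.le⟩
  have h2 : Tendsto (fun x : ℝ => (2 : ℝ) ^ k * (x ^ k * Real.exp (-b * x))) atTop (𝓝 ((2 : ℝ) ^ k * 0)) := by
    apply Tendsto.const_mul
    have := tendsto_rpow_mul_exp_neg_mul_atTop_nhds_zero (k : ℝ) b hb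
    simpa using this
  rw [mul_zero] at h2
  have h3 := h2.comp h1
  refine squeeze_zero_norm (fun n => ?_) h3
  rw [norm_mul, norm_pow, Real.norm_eq_abs, Real.norm_eq_abs, Real.abs_exp]
  simp only [Function.comp]
  have h4 : |a| ^ (n + 1) ≤ 2 ^ k * ((2 : ℝ) ^ n) ^ k := by
    calc |a| ^ (n + 1) ≤ ((2 : ℝ) ^ k) ^ (n + 1) := by gcongr
      _ = 2 ^ k * ((2 : ℝ) ^ n) ^ k := by rw [pow_succ, ← pow_mul, ← pow_mul, mul_comm k n]; ring
  calc |a| ^ (n + 1) * Real.exp (-(b * 2 ^ n)) ≤ (2 ^ k * ((2 : ℝ) ^ n) ^ k) * Real.exp (-(b * 2 ^ n)) := by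
        gcongr
    _ = _ := by rw [mul_assoc, neg_mul]

theorem nets (ε θ η : ℝ) (hε : 0 < ε) (hθ : 0 < θ) (hη : 0 < η) : ∃ k : ℕ, ∀ {Q : Type} [Fintype Q]
    (μ : Measure (Q → ℝ)), IsKS μ → EpsBad μ ε → ∀ (z : Q) (ρ : ℝ), 0 < ρ → ∀ F : Finset Q,
    (∀ x ∈ F, d μ x z ≤ ρ) → ∃ R ⊆ F, R.card ≤ k ∧ ∃ π : Q → Q, (∀ x ∈ F, π x ∈ R) ∧
      μ.real {S | ∃ x ∈ F, θ * ρ < |D x (π x) S|} ≤ η := by
  obtain ⟨m₀, C, c, hC, hc, h⟩ := net_aux ε hε
  have hlim := (dexp_tendsto (m₀ : ℝ) (c * θ) (by positivity)).mul_const C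
  rw [zero_mul] at hlim
  obtain ⟨j, hj⟩ := (hlim.eventually (ge_mem_nhds hη)).exists
  refine ⟨m₀ ^ (j + 1), ?_⟩
  intro Q _ μ hμ hbad z ρ hρ F hF
  obtain ⟨R, hRF, hcard, π, hπ, hle⟩ := h μ hμ hbad z ρ hρ F hF j (θ * ρ) (by positivity)
  refine ⟨R, hRF, hcard, π, hπ, hle.trans ?_⟩
  refine le_trans (le_of_eq ?_) hj
  have : θ * ρ / ρ = θ := by field_simp
  rw [this]
  ring

/-- exponential decay in the square root beats polynomials -/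
theorem sexp_tendsto (k : ℕ) (b : ℝ) (hb : 0 < b) :
    Tendsto (fun x : ℝ => x ^ k * Real.exp (-(b * Real.sqrt x))) atTop (𝓝 0) := by
  have h1 := tendsto_rpow_mul_exp_neg_mul_atTop_nhds_zero ((2 * k : ℕ) : ℝ) b hb
  have h2 := h1.comp Real.tendsto_sqrt_atTop
  refine h2.congr' ?_
  filter_upwards [eventually_ge_atTop (0 : ℝ)] with x hx
  simp only [Function.comp]
  rw [Real.rpow_natCast, pow_mul, Real.sq_sqrt hx, neg_mul]

theorem IsKS.tail_W {Q : Type} [Fintype Q] {μ : Measure (Q → ℝ)} (h : IsKS μ) (x y : Q) (s W : ℝ)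
    (hs : 0 < s) (_hW : 0 < W) (hV : V μ x y ≤ W) :
    μ.real {S | s ≤ |D x y S - M μ x y|} ≤ 4 * Real.exp (-(s / (8 * Real.sqrt W))) := by
  have hV0 := V_nonneg μ x y
  rcases hV0.eq_or_lt with h0 | h0
  · have := h.cheb x y s hs
    rw [← h0, zero_div] at this
    exact this.trans (by positivity)
  · refine (h.tail_V x y s hs.le).trans ?_
    have h1 : 0 < Real.sqrt (V μ x y) := Real.sqrt_pos.2 h0
    have h2 : Real.sqrt (V μ x y) ≤ Real.sqrt W := Real.sqrt_le_sqrt hV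
    gcongr

theorem geom_half (N : ℕ) : ∑ i ∈ Finset.range N, (1 / 2 : ℝ) ^ (i + 1) = 1 - (1 / 2) ^ N := by
  induction N with
  | zero => simp
  | succ n ih =>
    rw [Finset.sum_range_succ, ih]
    ring

/-- one shell `r ≤ s * M x z < 2 r` -/
theorem far_shell (ε : ℝ) (hε : 0 < ε) : ∃ (m₀ : ℕ) (C c : ℝ), 0 < C ∧ 0 < c ∧
    ∀ (K s : ℝ), 1 ≤ K → |s| = 1 →
    ∀ {Q : Type} [Fintype Q] (μ : Measure (Q → ℝ)), IsKS μ → EpsBad μ ε → ∀ σ : ℝ, 1 ≤ σ →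
    (∀ x y, V μ x y ≤ K * (σ ^ 2 + σ * |M μ x y|)) → ∀ (z : Q) (X : ℝ) (j : ℕ), 1 ≤ X →
    μ.real {S | ∃ x, X * σ ≤ s * M μ x z ∧ s * M μ x z < 2 * (X * σ) ∧
      s * D x z S < (X * σ) / 2} ≤
      (m₀ : ℝ) ^ (j + 1) * (C * Real.exp (-(c / (4 * (2 + Real.sqrt (3 * K))) * 2 ^ j))) +
      (m₀ : ℝ) ^ (j + 1) * (4 * Real.exp (-(1 / (32 * Real.sqrt (3 * K)) * Real.sqrt X))) := by
  classical
  obtain ⟨m₀, C, c, hC, hc, hnet⟩ := net_aux ε hε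
  refine ⟨m₀, C, c, hC, hc, ?_⟩
  intro K s hK hs Q _ μ hμ hbad σ hσ hV z X j hX
  have := hμ.prob
  obtain ⟨r, hr⟩ : ∃ r, r = X * σ := ⟨_, rfl⟩
  rw [← hr]
  have hr0 : 0 < r := by rw [hr]; positivity
  have hσr : σ ≤ r := by rw [hr]; nlinarith
  have hsK : 0 < Real.sqrt (3 * K) := Real.sqrt_pos.2 (by linarith)
  obtain ⟨A, hA⟩ : ∃ A, A = 2 + Real.sqrt (3 * K) := ⟨_, rfl⟩
  rw [← hA]
  have hA0 : 0 < A := by rw [hA]; positivity
  set F : Finset Q := Finset.univ.filter (fun x => r ≤ s * M μ x z ∧ s * M μ x z < 2 * r) with hF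
  have hMabs : ∀ x ∈ F, |M μ x z| ≤ 2 * r := by
    intro x hx
    simp only [hF, Finset.mem_filter, Finset.mem_univ, true_and] at hx
    have : |M μ x z| = |s * M μ x z| := by rw [abs_mul, hs, one_mul]
    rw [this, abs_of_nonneg (by linarith [hx.1])]
    exact hx.2.le
  have hVx : ∀ x ∈ F, V μ x z ≤ 3 * K * (σ * r) := by
    intro x hx
    refine (hV x z).trans ?_
    have h1 := hMabs x hx
    have h2 : σ ^ 2 ≤ σ * r := by nlinarith
    have h3 : σ * |M μ x z| ≤ σ * (2 * r) := by gcongr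
    nlinarith
  have hσX : σ * r = r ^ 2 / X := by
    rw [hr]
    field_simp
  have hdx : ∀ x ∈ F, d μ x z ≤ A * r := by
    intro x hx
    refine (hμ.d_le x z).trans ?_
    have h1 := hMabs x hx
    have h2 : Real.sqrt (V μ x z) ≤ Real.sqrt (3 * K) * r := by
      have h3 : V μ x z ≤ (3 * K) * r ^ 2 := by
        refine (hVx x hx).trans ?_
        have : σ * r ≤ r ^ 2 := by nlinarith
        nlinarith
      calc Real.sqrt (V μ x z) ≤ Real.sqrt ((3 * K) * r ^ 2) := Real.sqrt_le_sqrt h3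
        _ = Real.sqrt (3 * K) * r := by
          rw [Real.sqrt_mul (by linarith), Real.sqrt_sq hr0.le]
    rw [hA]
    linarith
  obtain ⟨R, hRF, hcard, π, hπ, hle⟩ := hnet μ hμ hbad z (A * r) (by positivity) F hdx j (r / 4)
    (by positivity)
  have htail : ∀ y ∈ R, μ.real {S | r / 4 ≤ |D y z S - M μ y z|} ≤
      4 * Real.exp (-(1 / (32 * Real.sqrt (3 * K)) * Real.sqrt X)) := by
    intro y hy
    refine (hμ.tail_W y z (r / 4) (3 * K * (σ * r)) (by positivity) (by positivity)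
      (hVx y (hRF hy))).trans (le_of_eq ?_)
    congr 2
    rw [hσX, Real.sqrt_mul (by linarith), Real.sqrt_div (by positivity), Real.sqrt_sq hr0.le]
    have hX0 : 0 < Real.sqrt X := Real.sqrt_pos.2 (by linarith)
    field_simp
    norm_num
  have hsub : {S : Q → ℝ | ∃ x, r ≤ s * M μ x z ∧ s * M μ x z < 2 * r ∧ s * D x z S < r / 2} ⊆
      {S | ∃ x ∈ F, r / 4 < |D x (π x) S|} ∪ ⋃ y ∈ R, {S | r / 4 ≤ |D y z S - M μ y z|} := by
    rintro S ⟨x, hx1, hx2, hx3⟩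
    have hxF : x ∈ F := by
      simp only [hF, Finset.mem_filter, Finset.mem_univ, true_and]
      exact ⟨hx1, hx2⟩
    by_cases h1 : r / 4 < |D x (π x) S|
    · exact Or.inl ⟨x, hxF, h1⟩
    · right
      simp only [Set.mem_iUnion]
      refine ⟨π x, hπ x hxF, ?_⟩
      by_contra h2
      simp only [Set.mem_ofPred_eq, not_le] at h2
      have hπF := hRF (hπ x hxF)
      simp only [hF, Finset.mem_filter, Finset.mem_univ, true_and] at hπF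
      have e1 : s * D x z S = s * D x (π x) S + s * (D (π x) z S - M μ (π x) z) +
          s * M μ (π x) z := by
        unfold D
        ring
      have e2 : -(r / 4) ≤ s * D x (π x) S := by
        have : |s * D x (π x) S| ≤ r / 4 := by
          rw [abs_mul, hs, one_mul]
          exact not_lt.1 h1
        exact (abs_le.1 this).1
      have e3 : -(r / 4) < s * (D (π x) z S - M μ (π x) z) := by
        have : |s * (D (π x) z S - M μ (π x) z)| < r / 4 := by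
          rw [abs_mul, hs, one_mul]
          exact h2
        exact (abs_lt.1 this).1
      linarith [hπF.1]
  have eA : c * (r / 4 / (A * r)) * 2 ^ j = c / (4 * A) * 2 ^ j := by
    field_simp
  rw [eA] at hle
  calc _ ≤ _ := measureReal_mono hsub (measure_ne_top _ _)
    _ ≤ μ.real {S | ∃ x ∈ F, r / 4 < |D x (π x) S|} +
        μ.real (⋃ y ∈ R, {S | r / 4 ≤ |D y z S - M μ y z|}) := measureReal_union_le _ _
    _ ≤ _ + _ := by
        apply add_le_add hle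
        calc μ.real (⋃ y ∈ R, {S | r / 4 ≤ |D y z S - M μ y z|})
            ≤ ∑ y ∈ R, μ.real {S | r / 4 ≤ |D y z S - M μ y z|} :=
              measureReal_biUnion_finset_le _ _
          _ ≤ ∑ y ∈ R, 4 * Real.exp (-(1 / (32 * Real.sqrt (3 * K)) * Real.sqrt X)) :=
              Finset.sum_le_sum htail
          _ = (R.card : ℝ) * (4 * Real.exp (-(1 / (32 * Real.sqrt (3 * K)) * Real.sqrt X))) := by
              rw [Finset.sum_const, nsmul_eq_mul]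
          _ ≤ (m₀ : ℝ) ^ (j + 1) * (4 * Real.exp (-(1 / (32 * Real.sqrt (3 * K)) * Real.sqrt X))) := by
              apply mul_le_mul_of_nonneg_right _ (by positivity)
              exact_mod_cast hcard

theorem far_aux (ε C₄ R₄ η s : ℝ) (hε : 0 < ε) (hη : 0 < η) (hs : |s| = 1) :
    ∃ R : ℝ, 0 < R ∧ ∀ R', R ≤ R' → ∀ {Q : Type} [Fintype Q]
    (μ : Measure (Q → ℝ)), IsKS μ → EpsBad μ ε → ∀ σ : ℝ, 1 ≤ σ →
    (∀ x y, V μ x y ≤ C₄ * (σ ^ 2 + σ * |M μ x y|)) → ∀ z : Q,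
    μ.real {S | ∃ x, R' * σ ≤ s * M μ x z ∧ s * D x z S < R₄ * σ} ≤ η := by
  obtain ⟨m₀, C, c, hC, hc, hsh⟩ := far_shell ε hε
  obtain ⟨K, hK⟩ : ∃ K, K = max C₄ 1 := ⟨_, rfl⟩
  have hK1 : 1 ≤ K := hK ▸ le_max_right _ _
  have hKC : C₄ ≤ K := hK ▸ le_max_left _ _
  obtain ⟨c', hc'⟩ : ∃ c', c' = c / (4 * (2 + Real.sqrt (3 * K))) := ⟨_, rfl⟩
  obtain ⟨b, hb⟩ : ∃ b, b = 1 / (32 * Real.sqrt (3 * K)) := ⟨_, rfl⟩
  have hsK : 0 < Real.sqrt (3 * K) := Real.sqrt_pos.2 (by linarith)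
  have hc'0 : 0 < c' := by rw [hc']; positivity
  have hb0 : 0 < b := by rw [hb]; positivity
  -- choice of J
  have hlim1 := (dexp_tendsto (2 * (m₀ : ℝ)) c' hc'0).mul_const C
  rw [zero_mul] at hlim1
  obtain ⟨J, hJ⟩ := eventually_atTop.1 (hlim1.eventually (ge_mem_nhds (show (0 : ℝ) < η / 4 by positivity)))
  obtain ⟨κ, hκ⟩ : ∃ κ : ℕ, 2 * (m₀ : ℝ) ≤ 2 ^ κ := by
    obtain ⟨κ, hκ⟩ := pow_unbounded_of_one_lt (2 * (m₀ : ℝ)) (by norm_num : (1 : ℝ) < 2)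
    exact ⟨κ, hκ.le⟩
  have hlim2 := (sexp_tendsto κ b hb0).const_mul ((m₀ : ℝ) ^ J * 4 * 2 ^ κ)
  rw [mul_zero] at hlim2
  obtain ⟨R₀, hR₀⟩ := eventually_atTop.1 (hlim2.eventually (ge_mem_nhds (show (0 : ℝ) < η / 4 by positivity)))
  refine ⟨max (max R₀ 1) (2 * R₄), lt_max_of_lt_left (lt_max_of_lt_right one_pos), ?_⟩
  intro R' hR' Q _ μ hμ hbad σ hσ hV z
  have := hμ.prob
  have hR'0 : R₀ ≤ R' := (le_max_left _ _).trans ((le_max_left _ _).trans hR')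
  have hR'1 : 1 ≤ R' := (le_max_right _ _).trans ((le_max_left _ _).trans hR')
  have hR'4 : 2 * R₄ ≤ R' := (le_max_right _ _).trans hR'
  have hV' : ∀ x y, V μ x y ≤ K * (σ ^ 2 + σ * |M μ x y|) := by
    intro x y
    refine (hV x y).trans ?_
    have : 0 ≤ σ ^ 2 + σ * |M μ x y| := by positivity
    exact mul_le_mul_of_nonneg_right hKC this
  -- one shell
  have hshell : ∀ i : ℕ, μ.real {S | ∃ x, (2 ^ i * R') * σ ≤ s * M μ x z ∧
      s * M μ x z < 2 * ((2 ^ i * R') * σ) ∧ s * D x z S < ((2 ^ i * R') * σ) / 2} ≤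
      (η / 2) * (1 / 2) ^ (i + 1) := by
    intro i
    have h2i : (1 : ℝ) ≤ 2 ^ i := one_le_pow₀ (by norm_num)
    have hX1 : 1 ≤ 2 ^ i * R' := by nlinarith
    have hXi : (2 : ℝ) ^ i ≤ 2 ^ i * R' := by nlinarith
    have hXR : R₀ ≤ 2 ^ i * R' := by nlinarith
    refine (hsh K s hK1 hs μ hμ hbad σ hσ hV' z (2 ^ i * R') (J + i) hX1).trans ?_
    rw [← hc', ← hb]
    have a1 := hJ (J + i) (Nat.le_add_right _ _)
    have a2 := hR₀ _ hXR
    have b1 : (m₀ : ℝ) ^ (J + i + 1) * (C * Real.exp (-(c' * 2 ^ (J + i)))) ≤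
        (η / 4) * (1 / 2) ^ (i + 1) := by
      have e1 : (2 * (m₀ : ℝ)) ^ (J + i + 1) * Real.exp (-(c' * 2 ^ (J + i))) * C =
          2 ^ (J + i + 1) * ((m₀ : ℝ) ^ (J + i + 1) * (C * Real.exp (-(c' * 2 ^ (J + i))))) := by
        rw [mul_pow]; ring
      rw [e1] at a1
      have e2 : (2 : ℝ) ^ (i + 1) ≤ 2 ^ (J + i + 1) := pow_le_pow_right₀ (by norm_num) (by omega)
      have e3 : 0 ≤ (m₀ : ℝ) ^ (J + i + 1) * (C * Real.exp (-(c' * 2 ^ (J + i)))) := by positivity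
      have e4 : (2 : ℝ) ^ (i + 1) * ((m₀ : ℝ) ^ (J + i + 1) * (C * Real.exp (-(c' * 2 ^ (J + i))))) ≤ η / 4 :=
        (mul_le_mul_of_nonneg_right e2 e3).trans a1
      rw [one_div, inv_pow, ← div_eq_mul_inv, le_div_iff₀ (by positivity)]
      linarith
    have b2 : (m₀ : ℝ) ^ (J + i + 1) * (4 * Real.exp (-(b * Real.sqrt (2 ^ i * R')))) ≤
        (η / 4) * (1 / 2) ^ (i + 1) := by
      rw [one_div, inv_pow, ← div_eq_mul_inv, le_div_iff₀ (by positivity)]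
      refine le_trans ?_ a2
      have e1 : (2 * (m₀ : ℝ)) ^ (i + 1) ≤ 2 ^ κ * (2 ^ i * R') ^ κ := by
        calc (2 * (m₀ : ℝ)) ^ (i + 1) ≤ ((2 : ℝ) ^ κ) ^ (i + 1) := by gcongr
          _ = 2 ^ κ * ((2 : ℝ) ^ i) ^ κ := by
            rw [pow_succ, ← pow_mul, ← pow_mul, mul_comm κ i]; ring
          _ ≤ 2 ^ κ * (2 ^ i * R') ^ κ := by gcongr
      calc (m₀ : ℝ) ^ (J + i + 1) * (4 * Real.exp (-(b * Real.sqrt (2 ^ i * R')))) * 2 ^ (i + 1)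
          = (m₀ : ℝ) ^ J * 4 * (2 * (m₀ : ℝ)) ^ (i + 1) * Real.exp (-(b * Real.sqrt (2 ^ i * R'))) := by
            rw [mul_pow, pow_add, pow_add, pow_add]; ring
        _ ≤ (m₀ : ℝ) ^ J * 4 * (2 ^ κ * (2 ^ i * R') ^ κ) * Real.exp (-(b * Real.sqrt (2 ^ i * R'))) := by
            gcongr
        _ = _ := by ring
    calc _ ≤ (η / 4) * (1 / 2) ^ (i + 1) + (η / 4) * (1 / 2) ^ (i + 1) := add_le_add b1 b2
      _ = _ := by ring
  obtain ⟨B, hB⟩ := (Set.finite_range (fun x : Q => s * M μ x z)).bddAbove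
  obtain ⟨N, hN⟩ := pow_unbounded_of_one_lt B (by norm_num : (1 : ℝ) < 2)
  have hRσ : 1 ≤ R' * σ := by nlinarith
  have hsub : {S : Q → ℝ | ∃ x, R' * σ ≤ s * M μ x z ∧ s * D x z S < R₄ * σ} ⊆
      ⋃ i ∈ Finset.range N, {S | ∃ x, (2 ^ i * R') * σ ≤ s * M μ x z ∧
      s * M μ x z < 2 * ((2 ^ i * R') * σ) ∧ s * D x z S < ((2 ^ i * R') * σ) / 2} := by
    rintro S ⟨x, hx1, hx2⟩
    have h1 : 1 ≤ s * M μ x z / (R' * σ) := by
      rw [le_div_iff₀ (by linarith)]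
      linarith
    obtain ⟨i, hi1, hi2⟩ := exists_nat_pow_near h1 (by norm_num : (1 : ℝ) < 2)
    rw [le_div_iff₀ (by linarith)] at hi1
    rw [div_lt_iff₀ (by linarith)] at hi2
    simp only [Set.mem_iUnion]
    have hxB : s * M μ x z ≤ B := hB ⟨x, rfl⟩
    have h2i : (1 : ℝ) ≤ 2 ^ i := one_le_pow₀ (by norm_num)
    refine ⟨i, ?_, x, by linarith, by rw [pow_succ] at hi2; linarith, ?_⟩
    · rw [Finset.mem_range]
      by_contra hcon
      have h3 : (2 : ℝ) ^ N ≤ 2 ^ i := pow_le_pow_right₀ (by norm_num) (not_lt.1 hcon)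
      nlinarith
    · have h4 : R₄ * σ ≤ (2 ^ i * R') * σ / 2 := by
        have : 2 * R₄ ≤ 2 ^ i * R' := by nlinarith
        nlinarith
      linarith
  calc _ ≤ _ := measureReal_mono hsub (measure_ne_top _ _)
    _ ≤ _ := measureReal_biUnion_finset_le _ _
    _ ≤ ∑ i ∈ Finset.range N, (η / 2) * (1 / 2) ^ (i + 1) := Finset.sum_le_sum (fun i _ => hshell i)
    _ = (η / 2) * (1 - (1 / 2) ^ N) := by
        rw [← Finset.mul_sum, geom_half]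
    _ ≤ η := by
        have : (0 : ℝ) ≤ (1 / 2) ^ N := by positivity
        nlinarith

theorem far (ε C₄ R₄ η : ℝ) (hε : 0 < ε) (hη : 0 < η) : ∃ R : ℝ, 0 < R ∧ ∀ {Q : Type} [Fintype Q]
    (μ : Measure (Q → ℝ)), IsKS μ → EpsBad μ ε → ∀ σ : ℝ, 1 ≤ σ →
    (∀ x y, V μ x y ≤ C₄ * (σ ^ 2 + σ * |M μ x y|)) → ∀ z : Q,
    μ.real {S | ∃ x, (M μ x z < -(R * σ) ∧ -(R₄ * σ) < D x z S) ∨
      (R * σ < M μ x z ∧ D x z S < R₄ * σ)} ≤ η := by
  obtain ⟨R₁, hR₁, h₁⟩ := far_aux ε C₄ R₄ (η / 2) 1 hε (by positivity) (by norm_num)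
  obtain ⟨R₂, hR₂, h₂⟩ := far_aux ε C₄ R₄ (η / 2) (-1) hε (by positivity) (by norm_num)
  refine ⟨max R₁ R₂, lt_max_of_lt_left hR₁, ?_⟩
  intro Q _ μ hμ hbad σ hσ hV z
  have := hμ.prob
  have e₁ := h₁ (max R₁ R₂) (le_max_left _ _) μ hμ hbad σ hσ hV z
  have e₂ := h₂ (max R₁ R₂) (le_max_right _ _) μ hμ hbad σ hσ hV z
  have hsub : {S : Q → ℝ | ∃ x, (M μ x z < -(max R₁ R₂ * σ) ∧ -(R₄ * σ) < D x z S) ∨
      (max R₁ R₂ * σ < M μ x z ∧ D x z S < R₄ * σ)} ⊆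
      {S | ∃ x, max R₁ R₂ * σ ≤ 1 * M μ x z ∧ 1 * D x z S < R₄ * σ} ∪
      {S | ∃ x, max R₁ R₂ * σ ≤ (-1) * M μ x z ∧ (-1) * D x z S < R₄ * σ} := by
    rintro S ⟨x, h | h⟩
    · right
      exact ⟨x, by linarith [h.1], by linarith [h.2]⟩
    · left
      exact ⟨x, by linarith [h.1], by linarith [h.2]⟩
  calc _ ≤ _ := measureReal_mono hsub (measure_ne_top _ _)
    _ ≤ _ := measureReal_union_le _ _
    _ ≤ η / 2 + η / 2 := add_le_add e₁ e₂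
    _ = η := by ring

end KS
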