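import Pool.Agent.Lib.MP_c534e4_co.Defs

/-! Module B (owner helper88): one-dimensional laws with log-concave tails. -/

set_option autoImplicit false

namespace KS

open MeasureTheory Set

/-- A function with log-concavity-type inequality decays geometrically. -/
theorem OneD.geo {G : ℝ → ℝ} (h0 : ∀ t, 0 ≤ G t) (h1 : ∀ t, G t ≤ 1)
    (hG : ∀ r t s : ℝ, r ≤ t → 0 ≤ s → G (t + s) * G r ≤ G (r + s) * G t)
    (b s q : ℝ) (hs : 0 ≤ s) (hb : 0 < G b) (hq : G (b + s) ≤ q * G b) (j : ℕ) :
    G (b + s * j) ≤ q ^ j := by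
  have hq0 : 0 ≤ q := by
    by_contra hcon
    push Not at hcon
    nlinarith [h0 (b + s)]
  induction j with
  | zero => simpa using h1 b
  | succ j ih =>
    have h2 := hG b (b + s * j) s (by nlinarith [mul_nonneg hs (Nat.cast_nonneg (α := ℝ) j)]) hs
    have h3 : G (b + s * j + s) * G b ≤ (q * G (b + s * j)) * G b := by
      calc _ ≤ G (b + s) * G (b + s * j) := h2
        _ ≤ (q * G b) * G (b + s * j) := mul_le_mul_of_nonneg_right hq (h0 _)
        _ = _ := by ring
    have h4 := le_of_mul_le_mul_right h3 hb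
    have h5 : b + s * ((j + 1 : ℕ) : ℝ) = b + s * j + s := by push_cast; ring
    rw [h5, pow_succ']
    exact h4.trans (mul_le_mul_of_nonneg_left ih hq0)

/-- exponential upper tail -/
theorem OneD.up_exp {G : ℝ → ℝ} (h0 : ∀ t, 0 ≤ G t) (h1 : ∀ t, G t ≤ 1) (hanti : Antitone G)
    (hG : ∀ r t s : ℝ, r ≤ t → 0 ≤ s → G (t + s) * G r ≤ G (r + s) * G t)
    (a e : ℝ) (he : 0 < e) (h4 : G (a + 4 * e) ≤ 1 / 4) (h34 : 3 / 4 ≤ G (a - 4 * e))
    (u : ℝ) :
    G (a + u) ≤ 2 * Real.exp (-(u / (8 * e))) := by
  have h3 : G (a - 4 * e + 8 * e) ≤ (1 / 3) * G (a - 4 * e) := by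
    have : a - 4 * e + 8 * e = a + 4 * e := by ring
    rw [this]; linarith
  have hgeo := OneD.geo h0 h1 hG (a - 4 * e) (8 * e) (1 / 3) (by positivity) (by linarith) h3
  rcases lt_or_ge u (4 * e) with hu | hu
  · have h5 : u / (8 * e) ≤ 1 / 2 := by
      rw [div_le_iff₀ (by positivity)]; linarith
    have h6 : (1 : ℝ) / 2 ≤ Real.exp (-(u / (8 * e))) := by
      have := Real.add_one_le_exp (-(u / (8 * e)))
      linarith
    linarith [h1 (a + u)]
  · -- u ≥ 4e; j = floor ((u + 4e)/(8e))
    set v := (u + 4 * e) / (8 * e) with hv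
    have hv0 : 0 ≤ v := div_nonneg (by linarith) (by positivity)
    set j := ⌊v⌋₊ with hj
    have hj1 : (j : ℝ) ≤ v := Nat.floor_le hv0
    have hj2 : v < j + 1 := Nat.lt_floor_add_one v
    have h7 : a - 4 * e + 8 * e * j ≤ a + u := by
      have : 8 * e * j ≤ 8 * e * v := mul_le_mul_of_nonneg_left hj1 (by positivity)
      rw [hv, mul_div_cancel₀ _ (by positivity)] at this
      linarith
    have h8 : G (a + u) ≤ (1 / 3) ^ j := (hanti h7).trans (hgeo j)
    have h9 : u / (8 * e) = v - 1 / 2 := by
      rw [hv]; field_simp; ring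
    have h10 : (1 : ℝ) / 3 ≤ Real.exp (-1) := by
      rw [Real.exp_neg, one_div]
      apply inv_anti₀ (Real.exp_pos _)
      have := Real.exp_one_lt_d9
      linarith
    have h11 : (1 / 3 : ℝ) ^ j ≤ Real.exp (-1) ^ j := pow_le_pow_left₀ (by norm_num) h10 j
    have h12 : Real.exp (-1) ^ j = Real.exp (-(j : ℝ)) := by
      rw [← Real.exp_nat_mul]; ring_nf
    have h13 : Real.exp (-(j : ℝ)) ≤ 2 * Real.exp (-(u / (8 * e))) := by
      rw [h9]
      have h14 : Real.exp (-(j : ℝ)) = Real.exp (-(v - 1/2)) * Real.exp (v - 1 / 2 - j) := by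
        rw [← Real.exp_add]; ring_nf
      have h15 : Real.exp (v - 1 / 2 - j) ≤ Real.exp (1 / 2) := Real.exp_le_exp.mpr (by linarith)
      have h16 : Real.exp (1 / 2) ≤ 2 := by
        have h17 : Real.exp (1/2) ^ 2 = Real.exp 1 := by
          rw [← Real.exp_nat_mul]; norm_num
        have := Real.exp_one_lt_d9
        nlinarith [Real.exp_pos (1/2 : ℝ)]
      rw [h14, mul_comm (2 : ℝ)]
      exact mul_le_mul_of_nonneg_left (h15.trans h16) (Real.exp_pos _).le
    calc G (a + u) ≤ (1 / 3) ^ j := h8
      _ ≤ _ := h11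
      _ = _ := h12
      _ ≤ _ := h13

variable {ρ : Measure ℝ} [IsProbabilityMeasure ρ]

theorem LC.tail_exp (h : LC ρ) (hi : Integrable (fun t : ℝ => t) ρ) (a s : ℝ) (hs : 0 ≤ s) :
    ρ.real {t | s ≤ |t - a|} ≤ 4 * Real.exp (-(s / (8 * ∫ t, |t - a| ∂ρ))) := by
  set e := ∫ t, |t - a| ∂ρ with he
  have he0 : 0 ≤ e := integral_nonneg fun t => abs_nonneg _
  rcases he0.eq_or_lt with he1 | he1
  · rw [← he1]
    simp only [mul_zero, div_zero, neg_zero, Real.exp_zero, mul_one]
    have : ρ.real {t | s ≤ |t - a|} ≤ 1 := measureReal_le_one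
    linarith
  have hint : Integrable (fun t : ℝ => |t - a|) ρ := (hi.sub (integrable_const a)).abs
  have hmk : ρ.real {t | 4 * e ≤ |t - a|} ≤ 1 / 4 := by
    have := mul_meas_ge_le_integral_of_nonneg (μ := ρ) (f := fun t : ℝ => |t - a|)
      (Filter.Eventually.of_forall fun t => abs_nonneg _) hint (4 * e)
    rw [← he] at this
    have h2 : (4 * ρ.real {t | 4 * e ≤ |t - a|}) * e ≤ 1 * e := by linarith
    have := le_of_mul_le_mul_right h2 he1
    linarith
  have hup : ∀ u, ρ.real (Ici (a + u)) ≤ 2 * Real.exp (-(u / (8 * e))) := by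
    intro u
    refine OneD.up_exp (G := fun t => ρ.real (Ici t)) (fun _ => measureReal_nonneg)
      (fun _ => measureReal_le_one) ?_ h.up a e he1 ?_ ?_ u
    · intro x y hxy
      exact measureReal_mono (Ici_subset_Ici.mpr hxy)
    · refine (measureReal_mono ?_).trans hmk
      intro t ht
      simp only [mem_Ici] at ht
      simp only [mem_ofPred_eq]
      exact le_trans (by linarith) (le_abs_self _)
    · have h2 : ρ.real (Ici (a - 4 * e))ᶜ ≤ 1 / 4 := by
        refine (measureReal_mono ?_).trans hmk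
        intro t ht
        simp only [mem_compl_iff, mem_Ici, not_le] at ht
        simp only [mem_ofPred_eq]
        exact le_trans (by linarith) (neg_le_abs _)
      rw [probReal_compl_eq_one_sub measurableSet_Ici] at h2
      linarith
  have hdn : ∀ u, ρ.real (Iic (a - u)) ≤ 2 * Real.exp (-(u / (8 * e))) := by
    intro u
    have := OneD.up_exp (G := fun t => ρ.real (Iic (-t))) (fun _ => measureReal_nonneg)
      (fun _ => measureReal_le_one) ?_ h.dn (-a) e he1 ?_ ?_ u
    · have h2 : -(-a + u) = a - u := by ring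
      simpa only [h2] using this
    · intro x y hxy
      exact measureReal_mono (Iic_subset_Iic.mpr (by linarith))
    · refine (measureReal_mono ?_).trans hmk
      intro t ht
      simp only [mem_Iic] at ht
      simp only [mem_ofPred_eq]
      exact le_trans (by linarith) (neg_le_abs _)
    · have h2 : ρ.real (Iic (-(-a - 4 * e)))ᶜ ≤ 1 / 4 := by
        refine (measureReal_mono ?_).trans hmk
        intro t ht
        simp only [mem_compl_iff, mem_Iic, not_le] at ht
        simp only [mem_ofPred_eq]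
        exact le_trans (by linarith) (le_abs_self _)
      rw [probReal_compl_eq_one_sub measurableSet_Iic] at h2
      linarith
  have hsub : {t : ℝ | s ≤ |t - a|} ⊆ Ici (a + s) ∪ Iic (a - s) := by
    intro t ht
    simp only [mem_ofPred_eq] at ht
    rcases le_abs.mp ht with h1 | h1
    · left; simp only [mem_Ici]; linarith
    · right; simp only [mem_Iic]; linarith
  calc ρ.real {t | s ≤ |t - a|} ≤ ρ.real (Ici (a + s) ∪ Iic (a - s)) := measureReal_mono hsub
    _ ≤ ρ.real (Ici (a + s)) + ρ.real (Iic (a - s)) := measureReal_union_le _ _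
    _ ≤ 2 * Real.exp (-(s / (8 * e))) + 2 * Real.exp (-(s / (8 * e))) := add_le_add (hup s) (hdn s)
    _ = _ := by ring

theorem LC.sq_le (h : LC ρ) (hi : MemLp (fun t : ℝ => t) 2 ρ) (a : ℝ) :
    ∫ t, (t - a) ^ 2 ∂ρ ≤ 1000 * (∫ t, |t - a| ∂ρ) ^ 2 := by
  have hi1 : Integrable (fun t : ℝ => t) ρ := hi.integrable (by norm_num)
  have hint : Integrable (fun t : ℝ => |t - a|) ρ := (hi1.sub (integrable_const a)).abs
  have htail := h.tail_exp hi1 a
  set e := ∫ t, |t - a| ∂ρ with he
  have he0 : 0 ≤ e := integral_nonneg fun t => abs_nonneg _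
  rcases he0.eq_or_lt with he1 | he1
  · have h2 : (fun t : ℝ => |t - a|) =ᵐ[ρ] 0 := by
      rwa [← integral_eq_zero_iff_of_nonneg (fun t => abs_nonneg _) hint, eq_comm]
    have h3 : ∫ t, (t - a) ^ 2 ∂ρ = 0 := by
      apply integral_eq_zero_of_ae
      filter_upwards [h2] with t ht
      simp only [Pi.zero_apply, abs_eq_zero] at ht ⊢
      rw [ht]; norm_num
    rw [h3, ← he1]; norm_num
  · have hlay := lintegral_rpow_eq_lintegral_meas_le_mul ρ (f := fun t : ℝ => |t - a|)
      (Filter.Eventually.of_forall fun t => abs_nonneg _) hint.aemeasurable (p := 2) (by norm_num)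
    have hsq : ∫ t, (t - a) ^ 2 ∂ρ = (∫⁻ t, ENNReal.ofReal (|t - a| ^ (2 : ℝ)) ∂ρ).toReal := by
      rw [integral_eq_lintegral_of_nonneg_ae (Filter.Eventually.of_forall fun t => sq_nonneg _)]
      · congr 1
        apply lintegral_congr
        intro t
        rw [Real.rpow_two, sq_abs]
      · exact (Measurable.aestronglyMeasurable (by fun_prop))
    rw [hsq, hlay]
    have hr : 0 < 1 / (8 * e) := by positivity
    have hgam := Real.integral_rpow_mul_exp_neg_mul_Ioi (a := 2) (r := 1 / (8 * e)) (by norm_num) hr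
    have hgint : IntegrableOn (fun t : ℝ => t ^ ((2 : ℝ) - 1) * Real.exp (-(1 / (8 * e) * t)))
        (Ioi 0) := by
      by_contra hcon
      rw [integral_undef hcon] at hgam
      have : 0 < (1 / (1 / (8 * e))) ^ (2 : ℝ) * Real.Gamma 2 :=
        mul_pos (Real.rpow_pos_of_pos (by positivity) _) (Real.Gamma_pos_of_pos (by norm_num))
      linarith
    have hle : (∫⁻ t in Ioi (0 : ℝ), ρ {x | t ≤ |x - a|} * ENNReal.ofReal (t ^ ((2 : ℝ) - 1))) ≤
        ENNReal.ofReal (4 * (8 * e) ^ 2) := by
      have h5 : ∀ t ∈ Ioi (0 : ℝ), ρ {x | t ≤ |x - a|} * ENNReal.ofReal (t ^ ((2 : ℝ) - 1)) ≤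
          ENNReal.ofReal (4 * (t ^ ((2 : ℝ) - 1) * Real.exp (-(1 / (8 * e) * t)))) := by
        intro t ht
        have h6 := htail t (le_of_lt ht)
        have h7 : ρ {x | t ≤ |x - a|} = ENNReal.ofReal (ρ.real {x | t ≤ |x - a|}) := by
          rw [ofReal_measureReal]
        rw [h7, ← ENNReal.ofReal_mul measureReal_nonneg]
        apply ENNReal.ofReal_le_ofReal
        have h8 : (0 : ℝ) ≤ t ^ ((2 : ℝ) - 1) := Real.rpow_nonneg (le_of_lt ht) _
        calc _ ≤ (4 * Real.exp (-(t / (8 * e)))) * t ^ ((2 : ℝ) - 1) :=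
              mul_le_mul_of_nonneg_right h6 h8
          _ = _ := by
              have : 1 / (8 * e) * t = t / (8 * e) := by ring
              rw [this]; ring
      calc _ ≤ ∫⁻ t in Ioi (0 : ℝ),
            ENNReal.ofReal (4 * (t ^ ((2 : ℝ) - 1) * Real.exp (-(1 / (8 * e) * t)))) :=
              setLIntegral_mono' measurableSet_Ioi h5
        _ = ENNReal.ofReal (∫ t in Ioi (0 : ℝ),
              4 * (t ^ ((2 : ℝ) - 1) * Real.exp (-(1 / (8 * e) * t)))) := by
              rw [ofReal_integral_eq_lintegral_ofReal]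
              · exact hgint.const_mul 4
              · refine (ae_restrict_iff' measurableSet_Ioi).mpr (Filter.Eventually.of_forall ?_)
                intro t ht
                have h8 : (0 : ℝ) ≤ t ^ ((2 : ℝ) - 1) := Real.rpow_nonneg (le_of_lt ht) _
                have := Real.exp_pos (-(1 / (8 * e) * t))
                simp only [Pi.zero_apply]
                positivity
        _ = ENNReal.ofReal (4 * (8 * e) ^ 2) := by
              rw [integral_const_mul, hgam]
              congr 2
              rw [Real.Gamma_two, one_div_one_div, mul_one, Real.rpow_two]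
    have h9 : (ENNReal.ofReal 2 * ∫⁻ t in Ioi (0 : ℝ), ρ {x | t ≤ |x - a|} *
        ENNReal.ofReal (t ^ ((2 : ℝ) - 1))).toReal ≤ 2 * (4 * (8 * e) ^ 2) := by
      apply ENNReal.toReal_le_of_le_ofReal (by positivity)
      rw [ENNReal.ofReal_mul (by norm_num)]
      exact mul_le_mul_right hle _
    refine h9.trans ?_
    nlinarith [sq_nonneg e]

/-- `∑ 2r 1[t ≥ b + 2rj] ≥ (t-b)^+` -/
theorem OneD.sum_ge (b r t : ℝ) (hr : 0 < r) :
    ENNReal.ofReal (t - b) ≤ ∑' j : ℕ, ENNReal.ofReal (2 * r) *
      (Ici (b + 2 * r * j)).indicator (fun _ => 1) t := by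
  rcases lt_or_ge t b with h | h
  · rw [ENNReal.ofReal_of_nonpos (by linarith)]; exact zero_le
  · set v := (t - b) / (2 * r) with hv
    have hv0 : 0 ≤ v := div_nonneg (by linarith) (by positivity)
    have hv1 : 2 * r * v = t - b := by rw [hv, mul_div_cancel₀ _ (by positivity)]
    have hj1 : (⌊v⌋₊ : ℝ) ≤ v := Nat.floor_le hv0
    have hj2 : v < ⌊v⌋₊ + 1 := Nat.lt_floor_add_one v
    calc ENNReal.ofReal (t - b) ≤ ENNReal.ofReal ((⌊v⌋₊ + 1 : ℕ) * (2 * r)) := by
          apply ENNReal.ofReal_le_ofReal
          push_cast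
          nlinarith
      _ = ∑ j ∈ Finset.range (⌊v⌋₊ + 1), ENNReal.ofReal (2 * r) *
            (Ici (b + 2 * r * j)).indicator (fun _ => 1) t := by
          rw [Finset.sum_congr rfl (g := fun _ => ENNReal.ofReal (2 * r))]
          · rw [Finset.sum_const, Finset.card_range, nsmul_eq_mul,
              ENNReal.ofReal_mul (by positivity), ENNReal.ofReal_natCast]
          · intro j hj
            have hj3 : (j : ℝ) ≤ v := by
              have : (j : ℝ) ≤ ⌊v⌋₊ := by
                exact_mod_cast Nat.lt_succ_iff.mp (Finset.mem_range.mp hj)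
              linarith
            rw [indicator_of_mem, mul_one]
            simp only [mem_Ici]
            have : 2 * r * j ≤ 2 * r * v := mul_le_mul_of_nonneg_left hj3 (by positivity)
            linarith
      _ ≤ _ := ENNReal.sum_le_tsum _

theorem OneD.small_half {G : ℝ → ℝ} (h0 : ∀ t, 0 ≤ G t) (h1 : ∀ t, G t ≤ 1)
    (hG : ∀ r t s : ℝ, r ≤ t → 0 ≤ s → G (t + s) * G r ≤ G (r + s) * G t)
    (b r p : ℝ) (hr : 0 < r) (hp : 0 < p) (hb : G (b + 2 * r) + p ≤ G b) :
    ∑' j : ℕ, ENNReal.ofReal (2 * r) * ENNReal.ofReal (G (b + 2 * r * j)) ≤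
      ENNReal.ofReal (2 * r / p) := by
  have hp1 : p ≤ 1 := by linarith [h0 (b + 2 * r), h1 b]
  have hq : G (b + 2 * r) ≤ (1 - p) * G b := by nlinarith [h1 b]
  have hgeo := OneD.geo h0 h1 hG b (2 * r) (1 - p) (by positivity)
    (by linarith [h0 (b + 2 * r)]) hq
  have hsum : HasSum (fun j : ℕ => 2 * r * (1 - p) ^ j) (2 * r / p) := by
    have := (hasSum_geometric_of_lt_one (r := 1 - p) (by linarith) (by linarith)).mul_left (2 * r)
    rwa [sub_sub_cancel, ← div_eq_mul_inv] at this
  calc _ ≤ ∑' j : ℕ, ENNReal.ofReal (2 * r * (1 - p) ^ j) := by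
        apply ENNReal.tsum_le_tsum
        intro j
        rw [ENNReal.ofReal_mul (p := 2 * r) (by positivity)]
        exact mul_le_mul_right (ENNReal.ofReal_le_ofReal (hgeo j)) _
    _ = ENNReal.ofReal (2 * r / p) := by
        rw [← ENNReal.ofReal_tsum_of_nonneg (fun j => by
          have : 0 ≤ 1 - p := by linarith
          positivity) hsum.summable, hsum.tsum_eq]

theorem LC.small (h : LC ρ) (hi : Integrable (fun t : ℝ => t) ρ) (b r : ℝ) (hr : 0 < r) :
    ρ.real (Icc b (b + r)) * ∫ t, |t - b| ∂ρ ≤ 4 * r := by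
  set p := ρ.real (Icc b (b + r)) with hp
  have hp0 : 0 ≤ p := measureReal_nonneg
  rcases hp0.eq_or_lt with hp1 | hp1
  · rw [← hp1, zero_mul]; positivity
  have hup := OneD.small_half (G := fun t => ρ.real (Ici t)) (fun _ => measureReal_nonneg)
    (fun _ => measureReal_le_one) h.up b r p hr hp1 (by
      have hd : Disjoint (Ici (b + 2 * r)) (Icc b (b + r)) := by
        rw [Set.disjoint_left]
        intro t h1 h2
        simp only [mem_Ici] at h1
        simp only [mem_Icc] at h2
        linarith [h2.2]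
      rw [hp, ← measureReal_union hd measurableSet_Icc]
      refine measureReal_mono ?_ (measure_ne_top _ _)
      intro t ht
      simp only [mem_union, mem_Ici, mem_Icc] at ht ⊢
      rcases ht with ht | ht
      · linarith
      · exact ht.1)
  have hdn := OneD.small_half (G := fun t => ρ.real (Iic (-t))) (fun _ => measureReal_nonneg)
    (fun _ => measureReal_le_one) h.dn (-(b + r)) r p hr hp1 (by
      have hd : Disjoint (Iic (-(-(b + r) + 2 * r))) (Icc b (b + r)) := by
        rw [Set.disjoint_left]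
        intro t h1 h2
        simp only [mem_Iic] at h1
        simp only [mem_Icc] at h2
        linarith [h2.1]
      rw [hp, ← measureReal_union hd measurableSet_Icc]
      refine measureReal_mono ?_ (measure_ne_top _ _)
      intro t ht
      simp only [mem_union, mem_Iic, mem_Icc] at ht ⊢
      rcases ht with ht | ht
      · linarith
      · linarith [ht.2])
  have hkey : ∫⁻ t, ENNReal.ofReal |t - b| ∂ρ ≤ ENNReal.ofReal (4 * r / p) := by
    have h1 : ∀ t : ℝ, ENNReal.ofReal |t - b| ≤
        (∑' j : ℕ, ENNReal.ofReal (2 * r) * (Ici (b + 2 * r * j)).indicator (fun _ => 1) t) +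
        ∑' j : ℕ, ENNReal.ofReal (2 * r) *
          (Iic (-(-(b + r) + 2 * r * j))).indicator (fun _ => 1) t := by
      intro t
      rcases le_total b t with ht | ht
      · rw [abs_of_nonneg (by linarith)]
        exact (OneD.sum_ge b r t hr).trans le_self_add
      · rw [abs_of_nonpos (by linarith)]
        refine le_trans ?_ le_add_self
        have h2 := OneD.sum_ge (-(b + r)) r (-t) hr
        refine le_trans (ENNReal.ofReal_le_ofReal (by linarith)) (h2.trans (le_of_eq ?_))
        congr 1
        ext j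
        congr 1
        by_cases h3 : -(b + r) + 2 * r * j ≤ -t
        · rw [indicator_of_mem (show -t ∈ Ici _ from h3), indicator_of_mem]
          simp only [mem_Iic]; linarith
        · rw [indicator_of_notMem (show -t ∉ Ici _ from h3), indicator_of_notMem]
          simp only [mem_Iic]; linarith
    calc _ ≤ ∫⁻ t, ((∑' j : ℕ, ENNReal.ofReal (2 * r) *
            (Ici (b + 2 * r * j)).indicator (fun _ => 1) t) +
            ∑' j : ℕ, ENNReal.ofReal (2 * r) *
              (Iic (-(-(b + r) + 2 * r * j))).indicator (fun _ => 1) t) ∂ρ := lintegral_mono h1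
      _ = (∑' j : ℕ, ENNReal.ofReal (2 * r) * ENNReal.ofReal (ρ.real (Ici (b + 2 * r * j)))) +
          ∑' j : ℕ, ENNReal.ofReal (2 * r) *
            ENNReal.ofReal (ρ.real (Iic (-(-(b + r) + 2 * r * j)))) := by
          have hm1 : ∀ j : ℕ, Measurable fun t : ℝ => ENNReal.ofReal (2 * r) *
              (Ici (b + 2 * r * j)).indicator (fun _ => (1 : ENNReal)) t := fun j =>
            (measurable_const.indicator measurableSet_Ici).const_mul _
          have hm2 : ∀ j : ℕ, Measurable fun t : ℝ => ENNReal.ofReal (2 * r) *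
              (Iic (-(-(b + r) + 2 * r * j))).indicator (fun _ => (1 : ENNReal)) t := fun j =>
            (measurable_const.indicator measurableSet_Iic).const_mul _
          rw [lintegral_add_left (Measurable.tsum hm1),
            lintegral_tsum (fun j => (hm1 j).aemeasurable),
            lintegral_tsum (fun j => (hm2 j).aemeasurable)]
          congr 1
          · congr 1; ext j
            rw [lintegral_const_mul _ (measurable_const.indicator measurableSet_Ici),
              lintegral_indicator measurableSet_Ici, setLIntegral_const, one_mul, ofReal_measureReal]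
          · congr 1; ext j
            rw [lintegral_const_mul _ (measurable_const.indicator measurableSet_Iic),
              lintegral_indicator measurableSet_Iic, setLIntegral_const, one_mul, ofReal_measureReal]
      _ ≤ ENNReal.ofReal (2 * r / p) + ENNReal.ofReal (2 * r / p) := add_le_add hup hdn
      _ = ENNReal.ofReal (4 * r / p) := by
          rw [← ENNReal.ofReal_add (by positivity) (by positivity)]
          congr 1; ring
  have hint : Integrable (fun t : ℝ => |t - b|) ρ := (hi.sub (integrable_const b)).abs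
  have h2 : ∫ t, |t - b| ∂ρ ≤ 4 * r / p := by
    rw [integral_eq_lintegral_of_nonneg_ae (Filter.Eventually.of_forall fun t => abs_nonneg _)
      hint.aestronglyMeasurable]
    exact ENNReal.toReal_le_of_le_ofReal (by positivity) hkey
  calc p * ∫ t, |t - b| ∂ρ ≤ p * (4 * r / p) := mul_le_mul_of_nonneg_left h2 hp0
    _ = 4 * r := by field_simp

end KS
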