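import Pool.Agent.Lib.MP_c534e4_co.MainI
import Pool.Agent.Lib.MP_c534e4_co.Gap
import Pool.Agent.Lib.MP_c534e4_co.Extremal

/-! Assembly of part I (owner helper26). -/

set_option autoImplicit false

namespace KS

open MeasureTheory Set

theorem rigidity (ε : ℝ) (hε : 0 < ε) : ∃ C R : ℝ, 1 ≤ C ∧ 1 ≤ R ∧ ∀ {Q : Type} [Fintype Q]
    (μ : Measure (Q → ℝ)), IsKS μ → EpsBad μ ε → ∀ (core : Finset Q) (K : ℝ), Core μ core K →
    (∀ x ∈ core, ∀ y ∈ core, R * d μ x y ≤ K) →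
    (∀ x y, V μ x y ≤ C * (1 + |M μ x y|)) ∧
    (∀ z, (∀ y, M μ y z ≤ 0) ∨ ∃ y, 0 < M μ y z ∧ M μ y z ≤ C) := by
  classical
  obtain ⟨η₀, C₄, hη, hC4, hgrow⟩ := growth
  obtain ⟨L, c₅, c₆, C₇, h5, h6, h7, hext⟩ := extremal η₀ C₄ hη hC4
  obtain ⟨L', R', hmain⟩ := mainI ε C₄ c₅ c₆ C₇ hε hC4 h5 h6 h7
  obtain ⟨Lm, hLm1, hLm2, hLm3⟩ : ∃ Lm : ℝ, L ≤ Lm ∧ L' ≤ Lm ∧ 2 ≤ Lm :=
    ⟨max (max L L') 2, (le_max_left _ _).trans (le_max_left _ _),
      (le_max_right _ _).trans (le_max_left _ _), le_max_right _ _⟩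
  refine ⟨C₄ * Lm ^ 2, max R' 2, by nlinarith, le_trans (by norm_num) (le_max_right _ _), ?_⟩
  intro Q _ μ hμ hbad core K hcore hdiam
  set pairs : Finset (Q × Q) := (core ×ˢ core).filter
    (fun q => η₀ ^ 2 * (d μ q.1 q.2) ^ 2 < V μ q.1 q.2) with hpairs
  by_cases hcase : ∃ q ∈ pairs, Lm ≤ d μ q.1 q.2
  · exfalso
    obtain ⟨q0, hq0, hq0L⟩ := hcase
    obtain ⟨q, hq, hmax⟩ := Finset.exists_max_image pairs (fun q => d μ q.1 q.2) ⟨q0, hq0⟩
    have hσ : Lm ≤ d μ q.1 q.2 := hq0L.trans (hmax q0 hq0)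
    rw [hpairs, Finset.mem_filter, Finset.mem_product] at hq
    obtain ⟨⟨hq1, hq2⟩, hqV⟩ := hq
    set σ : ℝ := d μ q.1 q.2 with hσdef
    have hgr := hgrow μ hμ core K hcore σ (by linarith) (by
      intro x hx y hy hxy
      by_contra hcon
      push Not at hcon
      have : (x, y) ∈ pairs := by
        rw [hpairs, Finset.mem_filter, Finset.mem_product]
        exact ⟨⟨hx, hy⟩, hcon⟩
      have := hmax _ this
      simp only at this
      linarith)
    have hK := hdiam q.1 hq1 q.2 hq2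
    rw [← hσdef] at hK
    have hσ0 : 0 ≤ σ := by linarith
    have hK2 : 2 * σ ≤ K := by
      have : 2 * σ ≤ max R' 2 * σ := by gcongr; exact le_max_right _ _
      linarith
    have hKR : R' * σ ≤ K := by
      have : R' * σ ≤ max R' 2 * σ := by gcongr; exact le_max_left _ _
      linarith
    obtain ⟨z, hz, X₀, hX1, hX2⟩ := hext μ hμ σ (by linarith) hgr.1 q.1 q.2
      ((hcore.deep q.1 hq1).mono hK2) rfl hqV
    have hzcore : z ∈ core := by
      rcases hz with h | h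
      · rw [h]; exact hq1
      · rw [h]; exact hq2
    exact hmain μ hμ hbad σ (by linarith) hgr.1 z ((hcore.deep z hzcore).mono hKR) X₀ hX1 hX2
  · push Not at hcase
    have hgr := hgrow μ hμ core K hcore Lm (by linarith) (by
      intro x hx y hy hxy
      by_contra hcon
      push Not at hcon
      have : (x, y) ∈ pairs := by
        rw [hpairs, Finset.mem_filter, Finset.mem_product]
        exact ⟨⟨hx, hy⟩, hcon⟩
      have := hcase _ this
      simp only at this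
      linarith)
    refine ⟨fun x y => (hgr.1 x y).trans ?_, fun z => ?_⟩
    · have h1 : 0 ≤ |M μ x y| := abs_nonneg _
      have h2 : Lm * |M μ x y| ≤ Lm ^ 2 * |M μ x y| := by
        have : Lm ≤ Lm ^ 2 := by nlinarith
        gcongr
      have h3 : C₄ * (Lm ^ 2 + Lm * |M μ x y|) ≤ C₄ * (Lm ^ 2 + Lm ^ 2 * |M μ x y|) := by
        gcongr
      linarith
    · rcases hgr.2 z with h | ⟨y, hy1, hy2⟩
      · exact Or.inl h
      · refine Or.inr ⟨y, hy1, hy2.trans ?_⟩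
        have : Lm ≤ Lm ^ 2 := by nlinarith
        gcongr

end KS
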