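import Pool.Agent.Lib.MP_c534e4_co.Defs
import Pool.Agent.Lib.MP_c534e4_co.H88.Pigeon

/-! Module C (owner helper88): pigeonhole for variables with values in a finite chain. -/

set_option autoImplicit false

namespace KS

open MeasureTheory Set

theorem strange_pigeonhole (K : ℕ) (δ : ℝ) (hδ : 0 < δ) : ∃ m : ℕ, ∀ {Ω : Type} [MeasurableSpace Ω]
    (P : Measure Ω) [IsProbabilityMeasure P] (X : Fin m → Ω → Fin K), (∀ i, Measurable (X i)) →
    ∃ i j, i ≠ j ∧ |P.real {ω | X i ω < X j ω} - P.real {ω | X j ω < X i ω}| ≤ δ := by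
  obtain ⟨L, hL⟩ : ∃ L : ℕ, 16 * (K : ℝ) ^ 2 < L * δ ^ 2 := by
    obtain ⟨L, hL⟩ := exists_nat_gt (16 * (K : ℝ) ^ 2 / δ ^ 2)
    exact ⟨L, by rwa [div_lt_iff₀ (by positivity)] at hL⟩
  refine ⟨2 ^ (2 ^ L), fun {Ω} _ P _ X hX => ?_⟩
  have hne : Nonempty Ω := by
    by_contra h
    rw [not_nonempty_iff] at h
    have := measure_univ (μ := P)
    rw [univ_eq_empty_iff.mpr h, measure_empty] at this
    exact zero_ne_one this
  have hK : 0 < K := by
    obtain ⟨ω⟩ := hne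
    exact Nat.pos_of_ne_zero fun h => by
      subst h
      exact (X ⟨0, by positivity⟩ ω).elim0
  obtain ⟨x, -, y, -, hxy, h⟩ := KahnSaks.H88.exists_balanced_bucket P K δ L hK hδ hL Finset.univ
    (by simp) X (fun x _ => hX x)
  exact ⟨x, y, hxy, h.le⟩

end KS
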