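import Pool.Agent.Lib.MP_c534e4_co.H26.St1

/-! (7.1)-(7.3) of the blueprint: the event `A*` (owner helper49). -/

set_option autoImplicit false

namespace KS

open MeasureTheory Set

open Classical in
theorem stage1 (ε C₄ C₇ c1 δ₁ θ R₄ lam th : ℝ) (hε : 0 < ε) (hε2 : ε ≤ 1 / 2) (h4 : 1 ≤ C₄)
    (h7 : 0 < C₇) (hc1 : 0 < c1) (hδ : 0 < δ₁) (hθ : 0 < θ) (hθ' : 64 * θ ≤ ε * δ₁) (hR4 : 0 < R₄)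
    (hlam : 0 < lam) (hth : 0 < th) (hth' : th ≤ θ) :
    ∃ R' a : ℝ, 0 < a ∧ C₇ ≤ R' ∧ ∀ {Q : Type} [Fintype Q] (μ : Measure (Q → ℝ)), IsKS μ →
    EpsBad μ ε → ∀ σ : ℝ, 1 ≤ σ → (∀ x y, V μ x y ≤ C₄ * (σ ^ 2 + σ * |M μ x y|)) → ∀ z : Q,
    μ.real {S | ∃ x, d μ x z ≤ δ₁ * σ ∧ c1 * σ / 8 < |D x z S|} ≤ ε / 32 →
    μ.real {S | ∃ x, |M μ x z| ≤ C₇ * σ ∧ R₄ * σ / 2 < |D x z S|} ≤ ε / 32 →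
    ∃ (FD FU : Finset Q) (A : Set (Q → ℝ)) (p : Q → ℝ) (n n' : ℝ),
      (∀ x, (x ∈ FD ∨ x ∈ FU) ↔ (δ₁ * σ < d μ x z ∧ |M μ x z| ≤ R' * σ)) ∧
      MeasurableSet A ∧ a ≤ μ.real {S | pin z 0 S ∈ A} ∧
      (∀ S ∈ A, (∀ x, d μ x z ≤ δ₁ * σ → |S x| ≤ c1 * σ / 8) ∧
        (∀ x, x ∈ FD ∨ x ∈ FU → |S x - p x| ≤ 3 * th * σ) ∧
        (∀ x, M μ x z < -(R' * σ) → S x ≤ -(R₄ * σ)) ∧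
        (∀ x, R' * σ < M μ x z → R₄ * σ ≤ S x) ∧
        |((Finset.univ.filter (fun x : Q => d μ x z ≤ δ₁ * σ ∧ S x < 0)).card : ℝ) - n| ≤ lam * σ ∧
        |((Finset.univ.filter (fun x : Q => d μ x z ≤ δ₁ * σ ∧ 0 < S x)).card : ℝ) - n'| ≤ lam * σ) ∧
      (∀ x ∈ FD, p x ≤ -(θ * σ)) ∧ (∀ x ∈ FU, θ * σ ≤ p x) ∧
      (∀ x, (x ∈ FD ∨ x ∈ FU) → |M μ x z| ≤ C₇ * σ → |p x| ≤ R₄ * σ / 2) := by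
  exact stage1' ε C₄ C₇ c1 δ₁ θ R₄ lam th hε hε2 h4 h7 hc1 hδ hθ hθ' hR4 hlam hth hth'

end KS
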